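import Pool.Agent.Work.PT.Typed

/-!
# Polynomial-time functions on lists and (unary) natural numbers
-/

set_option autoImplicit false

namespace Pool.Agent.PT

open Function

section

variable {α β γ δ σ : Type} [Enc α] [Enc β] [Enc γ] [Enc δ] [Enc σ]

/-! ### Lists: constructors, destructors -/

theorem PTF.cons {f : α → β} {l : α → List β} (hf : PTF f) (hl : PTF l) :
    PTF (fun a => f a :: l a) := (hf.pair hl).recode (fun _ => rfl)

theorem PTF.tail {l : α → List β} (hl : PTF l) : PTF (fun a => (l a).tail) := by
  refine PTF.comp (f := fun l : List β => l.tail) (PTF.of_tl (fun l => ?_)) hl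
  cases l <;> rfl

theorem PTF.headD {l : α → List β} {d : α → β} (hl : PTF l) (hd : PTF d) :
    PTF (fun a => (l a).headD (d a)) := by
  refine (PTF.list_case (g := fun p : α × (β × List β) => p.2.1) hl hd
    (PTF.fst.comp PTF.snd)).congr (fun a => ?_)
  cases l a <;> rfl

theorem PTF.head? {l : α → List β} (hl : PTF l) : PTF (fun a => (l a).head?) := by
  have h : PTF (fun b : β => some b) := (PTF.id.pair (PTF.const ())).recode (fun _ => rfl)
  refine (PTF.list_case (g := fun p : α × (β × List β) => some p.2.1) hl (PTF.const none)
    (h.comp (PTF.fst.comp PTF.snd))).congr (fun a => ?_)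
  cases l a <;> rfl

theorem PTF.some {f : α → β} (hf : PTF f) : PTF (fun a => Option.some (f a)) :=
  (hf.pair (PTF.const ())).recode (fun _ => rfl)

theorem PTF.isEmpty {l : α → List β} (hl : PTF l) : PTF (fun a => (l a).isEmpty) := by
  refine (PTF.list_case (g := fun _ : α × (β × List β) => false) hl (PTF.const true)
    (PTF.const false)).congr (fun a => ?_)
  cases l a <;> rfl

theorem PTF.optToList {o : α → Option β} (ho : PTF o) : PTF (fun a => (o a).toList) :=
  ho.recode (fun a => by cases o a <;> rfl)

theorem PTF.succ {n : α → ℕ} (hn : PTF n) : PTF (fun a => n a + 1) :=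
  (PTF.pair (PTF.const ()) hn).recode (fun _ => rfl)

theorem PTF.pred {n : α → ℕ} (hn : PTF n) : PTF (fun a => n a - 1) := by
  refine PTF.comp (f := fun n : ℕ => n - 1) (PTF.of_tl (fun n => ?_)) hn
  cases n <;> rfl

/-! ### Folds -/

/-- One step of a fold as a state transition. -/
def foldStep (step : α × (σ × β) → σ) (p : α × (List β × σ)) : List β × σ :=
  match p.2.1 with
  | [] => ([], p.2.2)
  | b :: r => (r, step (p.1, (p.2.2, b)))

theorem foldStep_ptf {step : α × (σ × β) → σ} (hs : PTF step) : PTF (foldStep step) := by
  refine (PTF.list_case (l := fun p : α × (List β × σ) => p.2.1)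
    (f := fun p => ([], p.2.2))
    (g := fun q : (α × (List β × σ)) × (β × List β) =>
      (q.2.2, step (q.1.1, (q.1.2.2, q.2.1))))
    (PTF.fst.comp PTF.snd) ((PTF.const []).pair (PTF.snd.comp PTF.snd)) ?_).congr (fun p => ?_)
  · refine (PTF.snd.comp PTF.snd).pair (hs.comp ?_)
    exact (PTF.fst.comp PTF.fst).pair
      ((PTF.snd.comp (PTF.snd.comp PTF.fst)).pair (PTF.fst.comp PTF.snd))
  · obtain ⟨a, l, s⟩ := p
    unfold foldStep
    cases l <;> rfl

omit [Enc α] [Enc β] [Enc σ] in
theorem foldStep_iterate (step : α × (σ × β) → σ) (a : α) (l : List β) (s : σ) (i : ℕ) :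
    (fun st => foldStep step (a, st))^[i] (l, s) =
      (l.drop i, (l.take i).foldl (fun s b => step (a, (s, b))) s) := by
  induction i generalizing l s with
  | zero => simp
  | succ i ih =>
    rw [iterate_succ_apply]
    cases l with
    | nil =>
      have h := ih [] s
      simp only [List.drop_nil, List.take_nil] at h ⊢
      exact h
    | cons b r => exact ih r (step (a, (s, b)))

theorem sz_drop_le (l : List β) (i : ℕ) : sz (l.drop i) ≤ sz l := by
  induction i generalizing l with
  | zero => simp
  | succ i ih =>
    cases l with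
    | nil => simp
    | cons b l => rw [List.drop_succ_cons, sz_cons]; have := ih l; omega

/-- Left fold over a list; all partial results have to be polynomially bounded. -/
theorem PTF.foldl {l : α → List β} {init : α → σ} {step : α × (σ × β) → σ}
    (hl : PTF l) (hi : PTF init) (hs : PTF step) (S : α → ℕ) (hSp : PB S)
    (hS : ∀ a (l1 l2 : List β), l a = l1 ++ l2 →
      sz (l1.foldl (fun s b => step (a, (s, b))) (init a)) ≤ S a) :
    PTF (fun a => (l a).foldl (fun s b => step (a, (s, b))) (init a)) := by
  have h := PTF.iterate (c := l) (init := fun a => (l a, init a)) (step := foldStep step)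
    hl (hl.pair hi) (foldStep_ptf hs) (fun a => sz (l a) + S a + 1)
    ((hl.size.add hSp).add (PB.const 1)) (fun a i _ => by
      rw [foldStep_iterate, sz_pair]
      have h1 := sz_drop_le (l a) i
      have h2 := hS a ((l a).take i) ((l a).drop i) (List.take_append_drop i (l a)).symm
      omega)
  refine (PTF.snd.comp h).congr (fun a => ?_)
  rw [foldStep_iterate, List.take_of_length_le (length_le_nodes _)]

/-- Left fold where each step adds a polynomially bounded amount to the size. -/
theorem PTF.foldl_add {l : α → List β} {init : α → σ} {step : α × (σ × β) → σ}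
    (hl : PTF l) (hi : PTF init) (hs : PTF step) (Q : α → ℕ) (hQp : PB Q)
    (hQ : ∀ a s b, b ∈ l a → sz (step (a, (s, b))) ≤ sz s + Q a) :
    PTF (fun a => (l a).foldl (fun s b => step (a, (s, b))) (init a)) := by
  refine PTF.foldl hl hi hs (fun a => sz (init a) + sz (l a) * Q a)
    (hi.size.add (hl.size.mul hQp)) (fun a l1 l2 h => ?_)
  have key : ∀ (l1 l2 : List β), l a = l2 ++ l1 → ∀ s,
      sz (l1.foldl (fun s b => step (a, (s, b))) s) ≤ sz s + l1.length * Q a := by
    intro l1
    induction l1 with
    | nil => intro l2 _ s; simp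
    | cons b l1 ih =>
      intro l2 h s
      have h1 := ih (l2 ++ [b]) (by rw [h]; simp) (step (a, (s, b)))
      have h2 := hQ a s b (by rw [h]; simp)
      rw [List.foldl_cons, List.length_cons, Nat.succ_mul]
      omega
  have h3 : ∀ (l1 l2 : List β), l a = l1 ++ l2 → ∀ s,
      sz (l1.foldl (fun s b => step (a, (s, b))) s) ≤ sz s + l1.length * Q a := by
    intro l1
    induction l1 using List.reverseRecOn with
    | nil => intro l2 _ s; simp
    | append_singleton l1 b ih =>
      intro l2 h s
      have h1 := ih ([b] ++ l2) (by rw [h]; simp) s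
      have h2 := hQ a (l1.foldl (fun s b => step (a, (s, b))) s) b (by rw [h]; simp)
      rw [List.foldl_append, List.foldl_cons, List.foldl_nil, List.length_append,
        List.length_singleton, Nat.succ_mul]
      omega
  refine (h3 l1 l2 h (init a)).trans ?_
  have h4 : l1.length ≤ sz (l a) := by
    refine le_trans ?_ (length_le_sz (l a))
    rw [h, List.length_append]; omega
  have := Nat.mul_le_mul_right (Q a) h4
  omega

theorem sz_append (l1 l2 : List β) : sz (l1 ++ l2) + 1 = sz l1 + sz l2 := by
  induction l1 with
  | nil => rw [List.nil_append, sz_nil]; omega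
  | cons b l ih => rw [List.cons_append, sz_cons, sz_cons]; omega

theorem PTF.reverse {l : α → List β} (hl : PTF l) : PTF (fun a => (l a).reverse) := by
  have h := PTF.foldl_add (l := l) (init := fun _ => ([] : List β))
    (step := fun p : α × (List β × β) => p.2.2 :: p.2.1) hl (PTF.const [])
    ((PTF.snd.comp PTF.snd).cons (PTF.fst.comp PTF.snd)) (fun a => sz (l a) + 1)
    (hl.size.add (PB.const 1)) (fun a s b hb => by
      show sz (b :: s) ≤ _
      rw [sz_cons]; have := sz_le_of_mem hb; omega)
  refine h.congr (fun a => ?_)
  simp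

theorem PTF.append {l m : α → List β} (hl : PTF l) (hm : PTF m) :
    PTF (fun a => l a ++ m a) := by
  have h := PTF.foldl_add (l := fun a => (l a).reverse) (init := m)
    (step := fun p : α × (List β × β) => p.2.2 :: p.2.1) hl.reverse hm
    ((PTF.snd.comp PTF.snd).cons (PTF.fst.comp PTF.snd)) (fun a => sz (l a) + 1)
    (hl.size.add (PB.const 1)) (fun a s b hb => by
      show sz (b :: s) ≤ _
      rw [sz_cons]; have := sz_le_of_mem (List.mem_reverse.1 hb); omega)
  refine h.congr (fun a => ?_)
  simp

/-- `flatMap` with context. -/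
theorem PTF.flatMap {l : α → List β} {g : α × β → List γ} (hl : PTF l) (hg : PTF g) :
    PTF (fun a => (l a).flatMap (fun b => g (a, b))) := by
  have hgs := hg.size
  obtain ⟨k, hk⟩ := hgs
  have h := PTF.foldl_add (l := l) (init := fun _ => ([] : List γ))
    (step := fun p : α × (List γ × β) => p.2.1 ++ g (p.1, p.2.2)) hl (PTF.const [])
    ((PTF.fst.comp PTF.snd).append (hg.comp (PTF.fst.pair (PTF.snd.comp PTF.snd))))
    (fun a => (sz a + sz (l a) + 3) ^ k)
    (((PB.sz.add hl.size).add (PB.const 3)).pow k) (fun a s b hb => by
      have h1 := sz_append s (g (a, b))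
      have h2 : sz (g (a, b)) ≤ (sz a + sz (l a) + 3) ^ k :=
        (hk (a, b)).trans (Nat.pow_le_pow_left (by
          rw [sz_pair]; have := sz_le_of_mem hb; omega) _)
      show sz (s ++ g (a, b)) ≤ _
      omega)
  refine h.congr (fun a => ?_)
  have : ∀ (l : List β) (s : List γ), l.foldl (fun s b => s ++ g (a, b)) s =
      s ++ l.flatMap (fun b => g (a, b)) := by
    intro l
    induction l with
    | nil => intro s; simp
    | cons b l ih => intro s; simp [ih]
  exact (this (l a) []).trans (by simp)

/-- `map` with context. -/
theorem PTF.map {l : α → List β} {g : α × β → γ} (hl : PTF l) (hg : PTF g) :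
    PTF (fun a => (l a).map (fun b => g (a, b))) := by
  refine (PTF.flatMap (g := fun p : α × β => [g p]) hl (hg.cons (PTF.const []))).congr
    (fun a => ?_)
  induction l a with
  | nil => rfl
  | cons b l ih => simp [ih]

/-- `filter` with context. -/
theorem PTF.filter {l : α → List β} {p : α × β → Bool} (hl : PTF l) (hp : PTF p) :
    PTF (fun a => (l a).filter (fun b => p (a, b))) := by
  refine (PTF.flatMap (g := fun q : α × β => if p q then [q.2] else []) hl
    (hp.cond (PTF.snd.cons (PTF.const [])) (PTF.const []))).congr (fun a => ?_)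
  induction l a with
  | nil => rfl
  | cons b l ih =>
    by_cases h : p (a, b) = true
    · simp [h, ih]
    · simp [h, ih]

theorem PTF.filterMap {l : α → List β} {g : α × β → Option γ} (hl : PTF l) (hg : PTF g) :
    PTF (fun a => (l a).filterMap (fun b => g (a, b))) := by
  refine (PTF.flatMap (g := fun q : α × β => (g q).toList) hl hg.optToList).congr (fun a => ?_)
  induction l a with
  | nil => rfl
  | cons b l ih =>
    rw [List.flatMap_cons, List.filterMap_cons, ih]
    cases g (a, b) <;> rfl

theorem PTF.flatten {l : α → List (List β)} (hl : PTF l) : PTF (fun a => (l a).flatten) := by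
  refine (PTF.flatMap (g := fun q : α × List β => q.2) hl PTF.snd).congr (fun a => ?_)
  simp [List.flatMap_id']

theorem PTF.length {l : α → List β} (hl : PTF l) : PTF (fun a => (l a).length) := by
  have h := PTF.map (g := fun _ : α × β => ()) hl (PTF.const ())
  refine h.recode (fun a => ?_)
  have : (l a).map (fun _ => ()) = List.replicate (l a).length () := by
    apply List.ext_getElem <;> simp
  rw [this, enc_replicate_unit]

theorem PTF.any {l : α → List β} {p : α × β → Bool} (hl : PTF l) (hp : PTF p) :
    PTF (fun a => (l a).any (fun b => p (a, b))) := by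
  refine ((PTF.filter hl hp).isEmpty.not).congr (fun a => ?_)
  rw [Bool.eq_iff_iff]
  simp

theorem PTF.all {l : α → List β} {p : α × β → Bool} (hl : PTF l) (hp : PTF p) :
    PTF (fun a => (l a).all (fun b => p (a, b))) := by
  refine ((PTF.any (p := fun q : α × β => !p q) hl hp.not).not).congr (fun a => ?_)
  rw [Bool.eq_iff_iff]
  simp

theorem PTF.mem [DecidableEq β] {f : α → β} {l : α → List β} (hf : PTF f) (hl : PTF l) :
    PTF (fun a => decide (f a ∈ l a)) := by
  refine (PTF.any (p := fun q : α × β => decide (f q.1 = q.2)) hl
    ((hf.comp PTF.fst).eq PTF.snd)).congr (fun a => ?_)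
  rw [Bool.eq_iff_iff]
  simp

/-! ### Natural numbers -/

/-- Iteration a (unary) number of times. -/
theorem PTF.nat_iterate {n : α → ℕ} {init : α → σ} {step : α × σ → σ}
    (hn : PTF n) (hi : PTF init) (hs : PTF step) (S : α → ℕ) (hSp : PB S)
    (hS : ∀ a i, i ≤ n a → sz ((fun s => step (a, s))^[i] (init a)) ≤ S a) :
    PTF (fun a => (fun s => step (a, s))^[n a] (init a)) := by
  have e : ∀ a, (enc (n a)).nodes = n a := fun a => encNat_nodes _
  refine (PTF.iterate hn hi hs S hSp (fun a i h => hS a i (by rw [e] at h; exact h))).congr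
    (fun a => ?_)
  rw [e]

theorem PTF.nat_iterate_add {n : α → ℕ} {init : α → σ} {step : α × σ → σ}
    (hn : PTF n) (hi : PTF init) (hs : PTF step) (Q : α → ℕ) (hQp : PB Q)
    (hQ : ∀ a s, sz (step (a, s)) ≤ sz s + Q a) :
    PTF (fun a => (fun s => step (a, s))^[n a] (init a)) := by
  refine PTF.nat_iterate hn hi hs (fun a => sz (init a) + sz (n a) * Q a)
    (hi.size.add (hn.size.mul hQp)) (fun a i hi => ?_)
  have : ∀ i, sz ((fun s => step (a, s))^[i] (init a)) ≤ sz (init a) + i * Q a := by
    intro i
    induction i with
    | zero => simp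
    | succ i ih =>
      rw [iterate_succ_apply', Nat.succ_mul]
      have := hQ a ((fun s => step (a, s))^[i] (init a))
      omega
  refine (this i).trans ?_
  have h4 : i ≤ sz (n a) := by rw [sz_nat]; omega
  have := Nat.mul_le_mul_right (Q a) h4
  omega

theorem PTF.add {m n : α → ℕ} (hm : PTF m) (hn : PTF n) : PTF (fun a => m a + n a) := by
  refine (PTF.nat_iterate_add (n := n) (init := m) (step := fun p : α × ℕ => p.2 + 1) hn hm
    PTF.snd.succ (fun _ => 2) (PB.const 2) (fun a s => by
      show sz (s + 1) ≤ _
      rw [sz_nat, sz_nat]; omega)).congr (fun a => ?_)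
  have : ∀ i, (fun s : ℕ => s + 1)^[i] (m a) = m a + i := by
    intro i
    induction i with
    | zero => rfl
    | succ i ih => rw [iterate_succ_apply', ih]; rfl
  exact this _

theorem PTF.sub {m n : α → ℕ} (hm : PTF m) (hn : PTF n) : PTF (fun a => m a - n a) := by
  refine (PTF.nat_iterate_add (n := n) (init := m) (step := fun p : α × ℕ => p.2 - 1) hn hm
    PTF.snd.pred (fun _ => 0) (PB.const 0) (fun a s => by
      show sz (s - 1) ≤ _
      rw [sz_nat, sz_nat]; omega)).congr (fun a => ?_)
  have : ∀ i, (fun s : ℕ => s - 1)^[i] (m a) = m a - i := by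
    intro i
    induction i with
    | zero => rfl
    | succ i ih => rw [iterate_succ_apply', ih]; rfl
  exact this _

theorem PTF.mul {m n : α → ℕ} (hm : PTF m) (hn : PTF n) : PTF (fun a => m a * n a) := by
  refine (PTF.nat_iterate_add (n := n) (init := fun _ => 0)
    (step := fun p : α × ℕ => p.2 + m p.1) hn (PTF.const 0)
    (PTF.snd.add (hm.comp PTF.fst)) (fun a => sz (m a)) hm.size (fun a s => by
      show sz (s + m a) ≤ _
      rw [sz_nat, sz_nat, sz_nat]; omega)).congr (fun a => ?_)
  have : ∀ i, (fun s : ℕ => s + m a)^[i] 0 = m a * i := by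
    intro i
    induction i with
    | zero => rfl
    | succ i ih => rw [iterate_succ_apply', ih]; rfl
  exact this _

theorem PTF.le {m n : α → ℕ} (hm : PTF m) (hn : PTF n) :
    PTF (fun a => decide (m a ≤ n a)) :=
  ((hm.sub hn).eq (PTF.const 0)).congr (fun a => by
    rw [decide_eq_decide]; omega)

theorem PTF.lt {m n : α → ℕ} (hm : PTF m) (hn : PTF n) :
    PTF (fun a => decide (m a < n a)) :=
  (hm.succ.le hn).congr (fun a => rfl)

theorem PTF.mod {m n : α → ℕ} (hm : PTF m) (hn : PTF n) : PTF (fun a => m a % n a) := by
  refine (PTF.nat_iterate_add (n := m) (init := m)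
    (step := fun p : α × ℕ => if n p.1 ≤ p.2 then p.2 - n p.1 else p.2) hm hm
    (PTF.ite ((hn.comp PTF.fst).le PTF.snd) (PTF.snd.sub (hn.comp PTF.fst)) PTF.snd)
    (fun _ => 0) (PB.const 0) (fun a s => by
      show sz (if n a ≤ s then s - n a else s) ≤ _
      split_ifs <;> simp only [sz_nat] <;> omega)).congr (fun a => ?_)
  have key : ∀ (k i s : ℕ), s ≤ i → (fun s : ℕ => if k ≤ s then s - k else s)^[i] s = s % k := by
    intro k i
    induction i with
    | zero => intro s hs; obtain rfl : s = 0 := by omega
              simp
    | succ i ih =>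
      intro s hs
      rw [iterate_succ_apply]
      by_cases h : k ≤ s
      · rw [if_pos h]
        rcases Nat.eq_zero_or_pos k with rfl | hk
        · have : ∀ i, (fun s : ℕ => if 0 ≤ s then s - 0 else s)^[i] s = s := by
            intro i
            induction i with
            | zero => rfl
            | succ i ih => rw [iterate_succ_apply', ih]; simp
          simp only [Nat.sub_zero, Nat.mod_zero]
          simpa using this i
        · rw [ih _ (by omega), ← Nat.mod_eq_sub_mod h]
      · rw [if_neg h]
        have hlt : s < k := by omega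
        have : ∀ i, (fun s : ℕ => if k ≤ s then s - k else s)^[i] s = s := by
          intro i
          induction i with
          | zero => rfl
          | succ i ih => rw [iterate_succ_apply', ih, if_neg h]
        rw [this, Nat.mod_eq_of_lt hlt]
  exact key (n a) (m a) (m a) (le_refl _)

theorem PTF.div {m n : α → ℕ} (hm : PTF m) (hn : PTF n) : PTF (fun a => m a / n a) := by
  have h := PTF.nat_iterate_add (n := m) (init := fun a => (m a, 0))
    (step := fun p : α × (ℕ × ℕ) => if 0 < n p.1 ∧ n p.1 ≤ p.2.1 then
      (p.2.1 - n p.1, p.2.2 + 1) else p.2) hm (hm.pair (PTF.const 0))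
    (PTF.ite (((PTF.const 0).lt (hn.comp PTF.fst)).and
      ((hn.comp PTF.fst).le (PTF.fst.comp PTF.snd)) |>.congr (fun a => by
        rw [Bool.decide_and]))
      (((PTF.fst.comp PTF.snd).sub (hn.comp PTF.fst)).pair (PTF.snd.comp PTF.snd).succ)
      PTF.snd)
    (fun a => 2) (PB.const 2) (fun a s => by
      obtain ⟨s, t⟩ := s
      show sz (if 0 < n a ∧ n a ≤ s then (s - n a, t + 1) else (s, t)) ≤ _
      split_ifs <;> simp only [sz_pair, sz_nat] <;> omega)
  refine (PTF.snd.comp h).congr (fun a => ?_)
  have key : ∀ (k i s t : ℕ), s ≤ i →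
      ((fun s : ℕ × ℕ => if 0 < k ∧ k ≤ s.1 then (s.1 - k, s.2 + 1) else s)^[i] (s, t)).2 =
        t + s / k := by
    intro k i
    induction i with
    | zero => intro s t hs; obtain rfl : s = 0 := by omega
              simp
    | succ i ih =>
      intro s t hs
      rw [iterate_succ_apply]
      by_cases h : 0 < k ∧ k ≤ s
      · rw [if_pos h, ih _ _ (by dsimp only; omega), Nat.div_eq_sub_div h.1 h.2]
        dsimp only; omega
      · rw [if_neg h]
        have : ∀ i, (fun s : ℕ × ℕ => if 0 < k ∧ k ≤ s.1 then (s.1 - k, s.2 + 1) else s)^[i]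
            (s, t) = (s, t) := by
          intro i
          induction i with
          | zero => rfl
          | succ i ih => rw [iterate_succ_apply', ih, if_neg h]
        rw [this]
        show t = t + s / k
        rcases Nat.eq_zero_or_pos k with rfl | hk
        · simp
        · have : s < k := by
            by_contra hc
            exact h ⟨hk, by omega⟩
          rw [Nat.div_eq_of_lt this]; rfl
  exact (key (n a) (m a) (m a) 0 (le_refl _)).trans (Nat.zero_add _)

theorem PTF.min {m n : α → ℕ} (hm : PTF m) (hn : PTF n) : PTF (fun a => Nat.min (m a) (n a)) :=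
  (PTF.ite (hm.le hn) hm hn).congr (fun a => by
    split_ifs with h
    · exact (Nat.min_eq_left h).symm
    · exact (Nat.min_eq_right (by omega)).symm)

theorem PTF.max {m n : α → ℕ} (hm : PTF m) (hn : PTF n) : PTF (fun a => Nat.max (m a) (n a)) :=
  (PTF.ite (hm.le hn) hn hm).congr (fun a => by
    split_ifs with h
    · exact (Nat.max_eq_right h).symm
    · exact (Nat.max_eq_left (by omega)).symm)

theorem PTF.range {n : α → ℕ} (hn : PTF n) : PTF (fun a => List.range (n a)) := by
  have h := PTF.nat_iterate (n := n) (init := fun _ : α => (0, ([] : List ℕ)))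
    (step := fun p : α × (ℕ × List ℕ) => (p.2.1 + 1, p.2.1 :: p.2.2)) hn (PTF.const _)
    ((PTF.fst.comp PTF.snd).succ.pair ((PTF.fst.comp PTF.snd).cons (PTF.snd.comp PTF.snd)))
    (fun a => 4 * (sz (n a) + 1) * (sz (n a) + 1))
    (((PB.const 4).mul (hn.size.add (PB.const 1))).mul (hn.size.add (PB.const 1)))
    (fun a i hi => by
      have key : ∀ i, (fun s : ℕ × List ℕ => (s.1 + 1, s.1 :: s.2))^[i] (0, []) =
          (i, (List.range i).reverse) := by
        intro i
        induction i with
        | zero => rfl
        | succ i ih => rw [iterate_succ_apply', ih, List.range_succ]; simp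
      show sz ((fun s : ℕ × List ℕ => (s.1 + 1, s.1 :: s.2))^[i] (0, [])) ≤ _
      rw [key, sz_pair, sz_nat]
      have h1 : ∀ i, sz (List.range i).reverse ≤ i * (2 * i + 2) + 1 := by
        intro i
        induction i with
        | zero => decide
        | succ i ih =>
          rw [List.range_succ, List.reverse_append]
          show sz (i :: (List.range i).reverse) ≤ _
          rw [sz_cons, sz_nat]
          nlinarith
      have h2 := h1 i
      have h3 : i ≤ n a := hi
      have h4 : sz (n a) = 2 * n a + 1 := sz_nat _
      rw [h4]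
      nlinarith)
  refine (PTF.snd.comp h).reverse.congr (fun a => ?_)
  have key : ∀ i, (fun s : ℕ × List ℕ => (s.1 + 1, s.1 :: s.2))^[i] (0, []) =
      (i, (List.range i).reverse) := by
    intro i
    induction i with
    | zero => rfl
    | succ i ih => rw [iterate_succ_apply', ih, List.range_succ]; simp
  show (((fun s : ℕ × List ℕ => (s.1 + 1, s.1 :: s.2))^[n a] (0, [])).2).reverse = _
  rw [key]; simp

theorem PTF.drop {l : α → List β} {n : α → ℕ} (hl : PTF l) (hn : PTF n) :
    PTF (fun a => (l a).drop (n a)) := by
  refine (PTF.nat_iterate_add (n := n) (init := l) (step := fun p : α × List β => p.2.tail)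
    hn hl PTF.snd.tail (fun _ => 0) (PB.const 0) (fun a s => by
      show sz s.tail ≤ _
      cases s with
      | nil => simp
      | cons b s => rw [sz_cons]; simp; omega)).congr (fun a => ?_)
  have key : ∀ i (l : List β), (fun s : List β => s.tail)^[i] l = l.drop i := by
    intro i
    induction i with
    | zero => intro l; simp
    | succ i ih => intro l; rw [iterate_succ_apply, ih]; simp
  exact key _ _

/-- `l[n]` with default value. -/
theorem PTF.getD {l : α → List β} {n : α → ℕ} {d : α → β} (hl : PTF l) (hn : PTF n)
    (hd : PTF d) : PTF (fun a => (l a).getD (n a) (d a)) :=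
  ((hl.drop hn).headD hd).congr (fun a => by
    simp [List.headD_eq_head?_getD, List.head?_drop, List.getD_eq_getElem?_getD])

theorem PTF.get? {l : α → List β} {n : α → ℕ} (hl : PTF l) (hn : PTF n) :
    PTF (fun a => (l a)[n a]?) :=
  ((hl.drop hn).head?).congr (fun a => by simp [List.head?_drop])

theorem PTF.take {l : α → List β} {n : α → ℕ} (hl : PTF l) (hn : PTF n) :
    PTF (fun a => (l a).take (n a)) := by
  refine (PTF.filterMap (l := fun a => List.range (n a)) (g := fun p : α × ℕ => (l p.1)[p.2]?)
    hn.range ((hl.comp PTF.fst).get? PTF.snd)).congr (fun a => ?_)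
  have : ∀ (n : ℕ) (l : List β), (List.range n).filterMap (fun i => l[i]?) = l.take n := by
    intro n
    induction n with
    | zero => intro l; simp
    | succ n ih =>
      intro l
      rw [List.range_succ, List.filterMap_append, ih, List.take_add_one]
      cases h : l[n]? <;> simp [h]
  exact this (n a) (l a)

theorem PTF.sum {l : α → List ℕ} (hl : PTF l) : PTF (fun a => (l a).sum) := by
  refine (PTF.foldl_add (l := l) (init := fun _ => 0) (step := fun p : α × (ℕ × ℕ) =>
    p.2.1 + p.2.2) hl (PTF.const 0) ((PTF.fst.comp PTF.snd).add (PTF.snd.comp PTF.snd))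
    (fun a => sz (l a)) hl.size (fun a s b hb => by
      have := sz_le_of_mem hb
      show sz (s + b) ≤ _
      rw [sz_nat] at this ⊢
      rw [sz_nat]
      omega)).congr (fun a => ?_)
  rw [List.sum_eq_foldl]

theorem PTF.count [DecidableEq β] {f : α → β} {l : α → List β} (hf : PTF f) (hl : PTF l) :
    PTF (fun a => (l a).count (f a)) := by
  refine ((PTF.filter (p := fun q : α × β => decide (f q.1 = q.2)) hl
    ((hf.comp PTF.fst).eq PTF.snd)).length).congr (fun a => ?_)
  rw [List.count_eq_length_filter]
  congr 2
  funext b
  show decide (f a = b) = (b == f a)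
  by_cases h : f a = b
  · subst h; simp
  · have h' : ¬ b = f a := fun e => h e.symm
    simp [h, h']

theorem PTF.replicate {n : α → ℕ} {f : α → β} (hn : PTF n) (hf : PTF f) :
    PTF (fun a => List.replicate (n a) (f a)) := by
  refine (PTF.map (l := fun a => List.range (n a)) (g := fun p : α × ℕ => f p.1) hn.range
    (hf.comp PTF.fst)).congr (fun a => ?_)
  show (List.range (n a)).map (fun _ => f a) = _
  rw [List.map_const', List.length_range]

theorem PTF.idxOf [DecidableEq β] {f : α → β} {l : α → List β} (hf : PTF f) (hl : PTF l) :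
    PTF (fun a => (l a).idxOf (f a)) := by
  have h1 : PTF (fun a => (List.range (l a).length).filter
      (fun n => decide ((l a)[n]? = Option.some (f a)))) :=
    PTF.filter (p := fun q : α × ℕ => decide ((l q.1)[q.2]? = Option.some (f q.1)))
      hl.length.range (((hl.comp PTF.fst).get? PTF.snd).eq ((hf.comp PTF.fst).some))
  refine (h1.headD hl.length).congr (fun a => ?_)
  have key : ∀ (x : β) (l : List β), ((List.range l.length).filter
      (fun n => decide (l[n]? = Option.some x))).headD l.length = l.idxOf x := by
    intro x l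
    induction l with
    | nil => rfl
    | cons b l ih =>
      rw [List.length_cons, List.range_succ_eq_map, List.filter_cons]
      by_cases h : b = x
      · have h0 : decide ((b :: l)[0]? = Option.some x) = true := by simp [h]
        rw [if_pos h0, h, List.idxOf_cons_self]
        rfl
      · have h0 : ¬ decide ((b :: l)[0]? = Option.some x) = true := by simp [h]
        rw [if_neg h0, List.filter_map, List.idxOf_cons_ne _ h]
        have e : ((fun n => decide ((b :: l)[n]? = Option.some x)) ∘ Nat.succ) =
            fun n => decide (l[n]? = Option.some x) := by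
          funext n
          show decide ((b :: l)[n + 1]? = Option.some x) = _
          rw [List.getElem?_cons_succ]
        rw [e, ← ih]
        cases (List.range l.length).filter (fun n => decide (l[n]? = Option.some x)) with
        | nil => rfl
        | cons c m => rfl
  exact key (f a) (l a)

end

end Pool.Agent.PT
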