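import Pool.Agent.Work.PT.List

/-!
# Automation: `fun_prop` for polynomial-time functions

After importing this file `fun_prop` proves `PTF (fun a => ...)` for expressions built from the
operations of the library (compositional forms of the closure theorems).
-/

set_option autoImplicit false

namespace Pool.Agent.PT

open Function

variable {α β γ δ σ : Type} [Enc α] [Enc β] [Enc γ] [Enc δ] [Enc σ]

attribute [fun_prop] PTF
attribute [fun_prop] PTF.id PTF.const PTF.comp PTF.pair PTF.fst PTF.snd PTF.cons PTF.tail
  PTF.some PTF.isEmpty PTF.succ PTF.pred PTF.reverse PTF.append PTF.length PTF.add PTF.sub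
  PTF.mul PTF.mod PTF.div PTF.range PTF.flatten PTF.drop PTF.take PTF.head? PTF.get? PTF.sum
  PTF.replicate PTF.not PTF.and PTF.or PTF.eq PTF.le PTF.lt PTF.mem PTF.ite PTF.getD
  PTF.count PTF.idxOf PTF.headD PTF.optToList

@[fun_prop]
theorem PTF.fst' {f : α → β × γ} (hf : PTF f) : PTF (fun a => (f a).1) := PTF.fst.comp hf

@[fun_prop]
theorem PTF.snd' {f : α → β × γ} (hf : PTF f) : PTF (fun a => (f a).2) := PTF.snd.comp hf

@[fun_prop]
theorem PTF.map' {f : α → β → γ} {l : α → List β} (hf : PTF (fun p : α × β => f p.1 p.2))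
    (hl : PTF l) : PTF (fun a => (l a).map (f a)) := PTF.map hl hf

@[fun_prop]
theorem PTF.flatMap' {f : α → β → List γ} {l : α → List β}
    (hf : PTF (fun p : α × β => f p.1 p.2)) (hl : PTF l) :
    PTF (fun a => (l a).flatMap (f a)) := PTF.flatMap hl hf

@[fun_prop]
theorem PTF.filter' {f : α → β → Bool} {l : α → List β}
    (hf : PTF (fun p : α × β => f p.1 p.2)) (hl : PTF l) :
    PTF (fun a => (l a).filter (f a)) := PTF.filter hl hf

@[fun_prop]
theorem PTF.filterMap' {f : α → β → Option γ} {l : α → List β}
    (hf : PTF (fun p : α × β => f p.1 p.2)) (hl : PTF l) :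
    PTF (fun a => (l a).filterMap (f a)) := PTF.filterMap hl hf

@[fun_prop]
theorem PTF.any' {f : α → β → Bool} {l : α → List β}
    (hf : PTF (fun p : α × β => f p.1 p.2)) (hl : PTF l) :
    PTF (fun a => (l a).any (f a)) := PTF.any hl hf

@[fun_prop]
theorem PTF.all' {f : α → β → Bool} {l : α → List β}
    (hf : PTF (fun p : α × β => f p.1 p.2)) (hl : PTF l) :
    PTF (fun a => (l a).all (f a)) := PTF.all hl hf

@[fun_prop]
theorem PTF.decide_and {p q : α → Prop} [DecidablePred p] [DecidablePred q]
    (hp : PTF (fun a => decide (p a))) (hq : PTF (fun a => decide (q a))) :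
    PTF (fun a => decide (p a ∧ q a)) :=
  (hp.and hq).congr (fun a => by by_cases h1 : p a <;> by_cases h2 : q a <;> simp [h1, h2])

@[fun_prop]
theorem PTF.decide_or {p q : α → Prop} [DecidablePred p] [DecidablePred q]
    (hp : PTF (fun a => decide (p a))) (hq : PTF (fun a => decide (q a))) :
    PTF (fun a => decide (p a ∨ q a)) :=
  (hp.or hq).congr (fun a => by by_cases h1 : p a <;> by_cases h2 : q a <;> simp [h1, h2])

@[fun_prop]
theorem PTF.decide_not {p : α → Prop} [DecidablePred p]
    (hp : PTF (fun a => decide (p a))) : PTF (fun a => decide (¬ p a)) :=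
  hp.not.congr (fun a => by by_cases h1 : p a <;> simp [h1])

@[fun_prop]
theorem PTF.decide_iff {p q : α → Prop} [DecidablePred p] [DecidablePred q]
    (hp : PTF (fun a => decide (p a))) (hq : PTF (fun a => decide (q a))) :
    PTF (fun a => decide (p a ↔ q a)) :=
  (hp.eq hq).congr (fun a => by by_cases h1 : p a <;> by_cases h2 : q a <;> simp [h1, h2])

@[fun_prop]
theorem PTF.ne [DecidableEq β] {f g : α → β} (hf : PTF f) (hg : PTF g) :
    PTF (fun a => decide (f a ≠ g a)) := (hf.eq hg).decide_not

@[fun_prop]
theorem PTF.decide_imp {p q : α → Prop} [DecidablePred p] [DecidablePred q]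
    (hp : PTF (fun a => decide (p a))) (hq : PTF (fun a => decide (q a))) :
    PTF (fun a => decide (p a → q a)) :=
  (hp.not.or hq).congr (fun a => by by_cases h1 : p a <;> by_cases h2 : q a <;> simp [h1, h2])

@[fun_prop]
theorem PTF.cond' {c : α → Bool} {f g : α → β} (hc : PTF c) (hf : PTF f) (hg : PTF g) :
    PTF (fun a => bif c a then f a else g a) :=
  (hc.cond hf hg).congr (fun a => by cases c a <;> rfl)

@[fun_prop]
theorem PTF.beq [DecidableEq β] {f g : α → β} (hf : PTF f) (hg : PTF g) :
    PTF (fun a => f a == g a) := (hf.eq hg).congr (fun a => by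
      rw [Bool.eq_iff_iff]; simp)

@[fun_prop]
theorem PTF.min' {m n : α → ℕ} (hm : PTF m) (hn : PTF n) : PTF (fun a => Min.min (m a) (n a)) :=
  PTF.min hm hn

@[fun_prop]
theorem PTF.max' {m n : α → ℕ} (hm : PTF m) (hn : PTF n) : PTF (fun a => Max.max (m a) (n a)) :=
  PTF.max hm hn

@[fun_prop]
theorem PTF.pow_const {m : α → ℕ} (hm : PTF m) (k : ℕ) : PTF (fun a => m a ^ k) := by
  induction k with
  | zero => exact (PTF.const 1).congr (fun a => by simp)
  | succ k ih => exact (ih.mul hm).congr (fun a => (pow_succ _ _).symm)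

@[fun_prop]
theorem PTF.product {l : α → List β} {m : α → List γ} (hl : PTF l) (hm : PTF m) :
    PTF (fun a => List.product (l a) (m a)) := by
  unfold List.product
  fun_prop

@[fun_prop]
theorem PTF.optionMap' {f : α → β → γ} {o : α → Option β}
    (hf : PTF (fun p : α × β => f p.1 p.2)) (ho : PTF o) :
    PTF (fun a => (o a).map (f a)) :=
  (PTF.option_case ho (PTF.const none) hf.some).congr (fun a => by cases o a <;> rfl)

@[fun_prop]
theorem PTF.optionGetD {o : α → Option β} {d : α → β} (ho : PTF o) (hd : PTF d) :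
    PTF (fun a => (o a).getD (d a)) :=
  (PTF.option_case ho hd (g := fun p : α × β => p.2) PTF.snd).congr
    (fun a => by cases o a <;> rfl)

@[fun_prop]
theorem PTF.optionBind' {f : α → β → Option γ} {o : α → Option β}
    (hf : PTF (fun p : α × β => f p.1 p.2)) (ho : PTF o) :
    PTF (fun a => (o a).bind (f a)) :=
  (PTF.option_case ho (PTF.const none) hf).congr (fun a => by cases o a <;> rfl)

@[fun_prop]
theorem PTF.optionIsSome {o : α → Option β} (ho : PTF o) : PTF (fun a => (o a).isSome) :=
  (PTF.option_case ho (PTF.const false) (g := fun _ : α × β => true) (PTF.const true)).congr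
    (fun a => by cases o a <;> rfl)

@[fun_prop]
theorem PTF.find' {f : α → β → Bool} {l : α → List β}
    (hf : PTF (fun p : α × β => f p.1 p.2)) (hl : PTF l) :
    PTF (fun a => (l a).find? (f a)) :=
  ((PTF.filter hl hf).head?).congr (fun a => by simp [List.head?_filter])

end Pool.Agent.PT
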