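import Pool.Agent.Work.PT.Typed

/-!
# From `TimeF`/`PTF` to Mathlib machines

* `TimeF.tm2`, `PTF.tm2`: machines working on tree codes;
* `PTF.tm2_raw`: a polynomial-time function on bit strings (coded as lists of Booleans) is
  polynomial-time computable on raw bit strings, `TM2ComputableInPolyTime id id f`.
-/

set_option autoImplicit false

namespace Pool.Agent.PT

open Function Turing

section
variable {α β : Type} [Enc α] [Enc β]

/-- A program gives a machine with Boolean input and output alphabets. -/
def auxOf {K : Type} [DecidableEq K] [Fintype K] (p : Prog K) (i o : K) :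
    TM2ComputableAux Bool Bool where
  tm := machine p i o
  inputAlphabet := Equiv.refl Bool
  outputAlphabet := Equiv.refl Bool

theorem auxOf_outputs {K : Type} [DecidableEq K] [Fintype K] (p : Prog K) (i o : K)
    {x y : List Bool} {T : ℕ} (h : Runs p (single i x) (single o y) T) :
    Nonempty (TM2OutputsInTime (auxOf p i o).tm (x.map (auxOf p i o).inputAlphabet.invFun)
      (some (y.map (auxOf p i o).outputAlphabet.invFun)) (T + 1)) := by
  obtain ⟨t, ht, e⟩ := h
  obtain ⟨⟨h1, h2⟩⟩ := machine_outputs p i o x y t e
  have e1 : x.map (auxOf p i o).inputAlphabet.invFun = x := List.map_id x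
  have e2 : y.map (auxOf p i o).outputAlphabet.invFun = y := List.map_id y
  rw [e1, e2]
  exact ⟨⟨h1, by omega⟩⟩

/-- A function computed in bounded time is computed by a machine on tree codes. -/
theorem TimeF.tm2 {f : α → β} {B : α → ℕ} (h : TimeF f B) :
    ∃ M : TM2ComputableAux Bool Bool, ∀ a, Nonempty (TM2OutputsInTime M.tm
      ((Enc.enc a).enc.map M.inputAlphabet.invFun)
      (some ((Enc.enc (f a)).enc.map M.outputAlphabet.invFun)) (B a + 1)) := by
  obtain ⟨g, T, ⟨K, i1, i2, p, i, o, hp⟩, h2, h3⟩ := h
  refine ⟨auxOf p i o, fun a => ?_⟩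
  have hp' := hp (Enc.enc a)
  rw [h2] at hp'
  obtain ⟨⟨h4, h5⟩⟩ := auxOf_outputs p i o hp'
  exact ⟨⟨h4, h5.trans (Nat.succ_le_succ (h3 a))⟩⟩

/-- A polynomial time function is computed by a polynomial time machine on tree codes. -/
theorem PTF.tm2 {f : α → β} (h : PTF f) :
    Nonempty (TM2ComputableInPolyTime (fun a : α => (Enc.enc a).enc)
      (fun b : β => (Enc.enc b).enc) f) := by
  obtain ⟨B, h1, k, hk⟩ := h
  obtain ⟨M, hM⟩ := h1.tm2
  refine ⟨{ M with
    time := (Polynomial.X + 2) ^ k + 1
    outputsFun := fun a => Classical.choice ?_ }⟩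
  obtain ⟨⟨h4, h5⟩⟩ := hM a
  refine ⟨⟨h4, h5.trans ?_⟩⟩
  have h6 := hk a
  simp only [Polynomial.eval_add, Polynomial.eval_pow, Polynomial.eval_X, Polynomial.eval_one,
    Polynomial.eval_ofNat]
  rw [D.length_enc]
  exact Nat.succ_le_succ h6

end

/-! ### Raw bit strings -/

/-- Turn a raw bit string into the code of the list of its bits. -/
def preP : Prog R :=
  .seq (mv .a .d) (.seq (.push .a false) (.loop .d (.seq (.push .a false) (.push .a true))
    (.seq (.push .a false) (.seq (.push .a false) (.seq (.push .a true) (.push .a true))))))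

theorem preP_loop (u v : List Bool) :
    Runs (.loop .d (.seq (.push .a false) (.push .a true))
    (.seq (.push .a false) (.seq (.push .a false) (.seq (.push .a true) (.push .a true)))))
    (st (Enc.enc v).enc [] [] u) (st (Enc.enc (u.reverse ++ v)).enc [] [] [])
    (5 * u.length + 1) := by
  induction u generalizing v with
  | nil => exact Runs.loop_nil rfl
  | cons b u ih =>
    have h := ih (b :: v)
    have e : (b :: u).reverse ++ v = u.reverse ++ b :: v := by simp
    rw [e]
    cases b with
    | false =>
      refine Runs.mono (Runs.loop_false u rfl (T := 2) ?_ h) (by simp; omega)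
      have h1 := (Runs.push .a false (st (Enc.enc v).enc [] [] u)).seq (Runs.push .a true _)
      simp only [st_a, up_a] at h1
      simpa [Enc.enc, encList, D.enc, D.ofBool] using h1
    | true =>
      refine Runs.mono (Runs.loop_true u rfl (T := 4) ?_ h) (by simp; omega)
      have h1 := (Runs.push .a false (st (Enc.enc v).enc [] [] u)).seq
        ((Runs.push .a false _).seq ((Runs.push .a true _).seq (Runs.push .a true _)))
      simp only [st_a, up_a] at h1
      refine Runs.mono ?_ (show 1 + (1 + (1 + 1)) ≤ 4 by norm_num)
      simpa [Enc.enc, encList, D.enc, D.ofBool, D.tt] using h1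

theorem preP_runs (x : List Bool) :
    Runs preP (st x [] [] []) (st (Enc.enc x).enc [] [] []) (7 * x.length + 3) := by
  have h1 := mv_runs (a := R.a) (b := R.d) (by decide) (st x [] [] [])
  simp only [st_a, up_a, st_d, up_d, List.append_nil] at h1
  have h2 := Runs.push .a false (st [] [] [] x.reverse)
  have h3 := preP_loop x.reverse []
  simp only [List.reverse_reverse, List.append_nil, List.length_reverse] at h3
  refine Runs.mono (h1.seq (h2.seq (by simpa [Enc.enc, encList, D.enc] using h3))) (by omega)

/-- Body of `postP`. -/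
def postBody : Prog R :=
  .case .a .skip (.push .d false)
    (.case .a .skip (.case .a .skip (.push .d true) .skip) .skip)

/-- Turn the code of a list of bits into the raw bit string. -/
def postP : Prog R := .seq (.loop .a .skip postBody) (mv .d .b)

theorem postP_loop (x d : List Bool) :
    Runs (.loop .a .skip postBody) (st (Enc.enc x).enc [] [] d) (st [] [] [] (x.reverse ++ d))
      (5 * x.length + 2) := by
  induction x generalizing d with
  | nil =>
    have h1 : (Enc.enc ([] : List Bool)).enc = [false] := rfl
    rw [h1]
    refine Runs.mono (Runs.loop_false (T := 0) (T' := 1) [] rfl (Runs.skip _) ?_) (by simp)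
    simp only [up_a]
    exact Runs.loop_nil rfl
  | cons b x ih =>
    have e : (b :: x).reverse ++ d = x.reverse ++ (b :: d) := by simp
    rw [e]
    have h := ih (b :: d)
    cases b with
    | false =>
      have h1 : (Enc.enc (false :: x)).enc = true :: false :: (Enc.enc x).enc := rfl
      rw [h1]
      refine Runs.mono (Runs.loop_true (false :: (Enc.enc x).enc) rfl (T := 2) ?_ h)
        (by simp; omega)
      refine Runs.case_false (Enc.enc x).enc rfl ?_
      simp only [up_a]
      have := Runs.push .d false (st (Enc.enc x).enc [] [] d)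
      simpa using this
    | true =>
      have h1 : (Enc.enc (true :: x)).enc = true :: true :: false :: false :: (Enc.enc x).enc :=
        rfl
      rw [h1]
      refine Runs.mono (Runs.loop_true (true :: false :: false :: (Enc.enc x).enc) rfl (T := 4)
        ?_ h) (by simp; omega)
      refine Runs.case_true (false :: false :: (Enc.enc x).enc) rfl ?_
      refine Runs.case_false (false :: (Enc.enc x).enc) rfl ?_
      refine Runs.case_false ((Enc.enc x).enc) rfl ?_
      simp only [up_a]
      have := Runs.push .d true (st (Enc.enc x).enc [] [] d)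
      simpa using this

theorem postP_runs (x : List Bool) :
    Runs postP (st (Enc.enc x).enc [] [] []) (st [] x [] []) (7 * x.length + 3) := by
  have h1 := postP_loop x []
  rw [List.append_nil] at h1
  have h2 := mv_runs (a := R.d) (b := R.b) (by decide) (st [] [] [] x.reverse)
  simp only [st_d, up_d, st_b, up_b, List.append_nil, List.reverse_reverse,
    List.length_reverse] at h2
  exact Runs.mono (h1.seq h2) (by omega)

/-- A function on bit strings computed in bounded time (with lists coded as trees) is
computed in similar time by a machine working on raw bit strings. -/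
theorem TimeF.tm2_raw {f : List Bool → List Bool} {B : List Bool → ℕ} (h : TimeF f B) :
    ∃ M : TM2ComputableAux Bool Bool, ∀ x, Nonempty (TM2OutputsInTime M.tm
      (x.map M.inputAlphabet.invFun) (some ((f x).map M.outputAlphabet.invFun))
      (20 * B x + 100 * sz x + 100)) := by
  obtain ⟨g, T, hg, h2, h3⟩ := h
  obtain ⟨K, i1, i2, p, i, o, hp⟩ := hg
  refine ⟨auxOf (K := R ⊕ K) (.seq (preP.map Sum.inl) (.seq (callA (fun k => k) p i o)
    (postP.map Sum.inl))) (Sum.inl .a) (Sum.inl .b), fun x => ?_⟩
  have h1 : Runs (.seq (preP.map Sum.inl) (.seq (callA (fun k => k) p i o)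
    (postP.map Sum.inl))) (single (Sum.inl .a) x) (single (Sum.inl .b : R ⊕ K) (f x))
      (7 * x.length + 3 + (T (enc x) + 4 * (enc x).size + 4 * (enc (f x)).size + 4 +
        (7 * (f x).length + 3))) := by
    rw [single_ma, single_mb]
    have k1 := (preP_runs x).reg (K := K)
    have k2 := callA_runs (K := K) (j := fun k => k) (fun _ _ h => h) (u := enc x)
      (v := enc (f x)) (p := p) (i := i) (o := o) (T := T (enc x))
      (by rw [← h2]; exact hp _) [] []
    have k3 := (postP_runs (f x)).reg (K := K)
    exact k1.seq (k2.seq k3)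
  obtain ⟨⟨h4, h5⟩⟩ := auxOf_outputs _ _ _ h1
  refine ⟨⟨h4, h5.trans ?_⟩⟩
  have h6 : sz (f x) ≤ sz x + B x :=
    TimeF.size_le ⟨g, T, ⟨K, i1, i2, p, i, o, hp⟩, h2, h3⟩ x
  have h7 := h3 x
  have h8 := length_le_sz x
  have h9 := length_le_sz (f x)
  unfold sz at *
  have h10 : ∀ z : D, 1 ≤ z.size := D.size_pos
  have h11 : (f x).length ≤ (enc (f x)).nodes := length_le_nodes _
  have h12 : (enc (f x)).size = 2 * (enc (f x)).nodes + 1 := rfl
  omega

theorem PTF.tm2_raw {f : List Bool → List Bool} (h : PTF f) :
    Nonempty (TM2ComputableInPolyTime (fun x : List Bool => x) (fun x : List Bool => x) f) := by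
  obtain ⟨B, h1, k, hk⟩ := h
  obtain ⟨M, hM⟩ := h1.tm2_raw
  refine ⟨{ M with
    time := 20 * (4 * Polynomial.X + 3) ^ k + 100 * (4 * Polynomial.X + 1) + 100
    outputsFun := fun x => Classical.choice ?_ }⟩
  obtain ⟨⟨h4, h5⟩⟩ := hM x
  refine ⟨⟨h4, h5.trans ?_⟩⟩
  have h6 := hk x
  have h7 : sz x ≤ 4 * x.length + 1 := by
    clear h6 h4 h5 hM
    induction x with
    | nil => simp [sz_nil]
    | cons b x ih =>
      rw [sz_cons]
      have := sz_bool b
      simp only [List.length_cons]
      omega
  have h8 : (sz x + 2) ^ k ≤ (4 * x.length + 3) ^ k := Nat.pow_le_pow_left (by omega) _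
  simp only [Polynomial.eval_add, Polynomial.eval_mul, Polynomial.eval_pow, Polynomial.eval_X,
    Polynomial.eval_one, Polynomial.eval_ofNat]
  omega

end Pool.Agent.PT
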