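import Pool.Agent.Work.PT.List
import Mathlib.Computability.TuringMachine.Computable

/-!
# Clocked simulation of an arbitrary Mathlib machine

For every `FinTM2` machine with input alphabet `A₀` and output alphabet `A₁` there is a
polynomial-time function `R : ℕ × List A₀ → Option (List A₁)` such that `R (T, x) = some y` iff the
machine outputs `y` on input `x` in at most `T` steps (`clock`).
-/

set_option autoImplicit false

namespace Pool.Agent.PT

open Function Turing

/-- An encoding of a finite type. -/
@[reducible] noncomputable def Enc.ofFinite (α : Type) [Finite α] : Enc α :=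
  ⟨fun a => enc ((Finite.equivFin α a : Fin (Nat.card α)) : ℕ), fun a b h => by
    exact (Finite.equivFin α).injective (Fin.ext (Enc.inj h))⟩

theorem PTF.finite_case {ι α β : Type} [Finite ι] [Enc ι] [Enc α] [Enc β] {F : ι → α → β}
    (h : ∀ i, PTF (F i)) : PTF (fun p : ι × α => F p.1 p.2) := by
  classical
  cases isEmpty_or_nonempty ι with
  | inl hι => exact PTF.of_id (fun p => isEmptyElim p.1)
  | inr hι =>
    obtain ⟨i0⟩ := hι
    have key : ∀ L : List ι, ∃ g : ι × α → β, PTF g ∧ ∀ p, p.1 ∈ L → g p = F p.1 p.2 := by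
      intro L
      induction L with
      | nil => exact ⟨fun p => F i0 p.2, (h i0).comp PTF.snd, by simp⟩
      | cons i L ih =>
        obtain ⟨g, hg, hL⟩ := ih
        refine ⟨fun p => if p.1 = i then F i p.2 else g p,
          PTF.ite (PTF.eq PTF.fst (PTF.const i)) ((h i).comp PTF.snd) hg, fun p hp => ?_⟩
        by_cases e : p.1 = i
        · simp [e]
        · have : p.1 ∈ L := by
            rcases List.mem_cons.1 hp with h | h
            · exact absurd h e
            · exact h
          simp [e, hL p this]
    obtain ⟨g, hg, hL⟩ := key (@Finset.univ ι (Fintype.ofFinite ι)).toList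
    exact hg.congr (fun p => hL p (by simp))

/-- Every function on a finite type is polynomial-time. -/
theorem PTF.of_finite {α β : Type} [Finite α] [Enc α] [Enc β] (f : α → β) : PTF f :=
  (PTF.finite_case (F := fun i (_ : Unit) => f i) (fun i => PTF.const (f i))).comp
    (PTF.id.pair (PTF.const ()))

theorem PTF.set {α β : Type} [Enc α] [Enc β] {l : α → List β} {n : α → ℕ} {f : α → β}
    (hl : PTF l) (hn : PTF n) (hf : PTF f) : PTF (fun a => (l a).set (n a) (f a)) := by
  refine (PTF.ite (p := fun a => n a < (l a).length) (hn.lt hl.length)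
    ((hl.take hn).append (PTF.cons hf (hl.drop hn.succ))) hl).congr (fun a => ?_)
  rw [List.set_eq_take_append_cons_drop]

/-- Bounded size of finitely many objects. -/
theorem exists_sz_bound (α : Type) [Finite α] [Enc α] : ∃ C : ℕ, ∀ a : α, sz a ≤ C := by
  obtain ⟨C, hC⟩ := Set.finite_range (fun a : α => sz a) |>.bddAbove
  exact ⟨C, fun a => hC ⟨a, rfl⟩⟩

theorem sz_set_le {β : Type} [Enc β] (C : ℕ) (b d : β) : ∀ (l : List β) (i : ℕ),
    sz b ≤ sz (l.getD i d) + C → sz (l.set i b) ≤ sz l + C := by
  intro l
  induction l with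
  | nil => intro i h; simp
  | cons c l ih =>
    intro i h
    cases i with
    | zero =>
      simp only [List.getD_cons_zero] at h
      rw [List.set_cons_zero, sz_cons, sz_cons]; omega
    | succ i =>
      rw [List.getD_cons_succ] at h
      rw [List.set_cons_succ, sz_cons, sz_cons]
      have := ih i h
      omega

namespace Clk

section sim

variable {K Λ σ : Type} {Γ : K → Type}

/-- The symbols pushed by a statement. -/
def pushed : TM2.Stmt Γ Λ σ → Set (Σ k, Γ k)
  | .push k f q => Set.range (fun v => (⟨k, f v⟩ : Σ k, Γ k)) ∪ pushed q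
  | .peek _ _ q => pushed q
  | .pop _ _ q => pushed q
  | .load _ q => pushed q
  | .branch _ q₁ q₂ => pushed q₁ ∪ pushed q₂
  | .goto _ => ∅
  | .halt => ∅

theorem pushed_finite [Finite σ] (q : TM2.Stmt Γ Λ σ) : (pushed q).Finite := by
  induction q with
  | push k f q ih => exact (Set.finite_range _).union ih
  | peek k f q ih => exact ih
  | pop k f q ih => exact ih
  | load f q ih => exact ih
  | branch f q₁ q₂ ih₁ ih₂ => exact ih₁.union ih₂
  | goto f => exact Set.finite_empty
  | halt => exact Set.finite_empty

variable (F : Set (Σ k, Γ k))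

/-- All symbols on the stacks are in `F`. -/
def Good (S : ∀ k, List (Γ k)) : Prop := ∀ k, ∀ x ∈ S k, (⟨k, x⟩ : Σ k, Γ k) ∈ F

open Classical in
/-- Code of a symbol. -/
noncomputable def code (k : K) (x : Γ k) : Option F :=
  if h : (⟨k, x⟩ : Σ k, Γ k) ∈ F then some ⟨⟨k, x⟩, h⟩ else none

open Classical in
/-- The symbol with a given code. -/
noncomputable def dec (k : K) (a : Option F) : Option (Γ k) :=
  match a with
  | none => none
  | some p => if h : p.1.1 = k then some (h ▸ p.1.2) else none

theorem dec_code (k : K) (x : Γ k) (h : (⟨k, x⟩ : Σ k, Γ k) ∈ F) :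
    dec F k (code F k x) = some x := by
  simp [dec, code, h]

variable [Fintype K]

/-- Index of a stack. -/
noncomputable def ix (k : K) : ℕ := (Fintype.equivFin K k : Fin _)

/-- Coded stacks. -/
noncomputable def codeStk (S : ∀ k, List (Γ k)) : List (List (Option F)) :=
  List.ofFn (fun j : Fin (Fintype.card K) =>
    (S ((Fintype.equivFin K).symm j)).map (code F _))

theorem codeStk_getD (S : ∀ k, List (Γ k)) (k : K) :
    (codeStk F S).getD (ix k) [] = (S k).map (code F k) := by
  have h : ix k < Fintype.card K := (Fintype.equivFin K k).2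
  have e : (Fintype.equivFin K).symm ⟨ix k, h⟩ = k := (Fintype.equivFin K).symm_apply_apply k
  rw [List.getD_eq_getElem?_getD, codeStk, List.getElem?_ofFn, dif_pos h, Option.getD_some]
  rw [e]

theorem codeStk_update [DecidableEq K] (S : ∀ k, List (Γ k)) (k : K) (l : List (Γ k)) :
    codeStk F (update S k l) = (codeStk F S).set (ix k) (l.map (code F k)) := by
  apply List.ext_getElem
  · simp [codeStk]
  · intro i h1 h2
    rw [List.getElem_set]
    simp only [codeStk, List.getElem_ofFn]
    have hi : i < Fintype.card K := by simpa [codeStk] using h1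
    by_cases h : ix k = i
    · rw [if_pos h]
      subst h
      have e : (Fintype.equivFin K).symm ⟨ix k, hi⟩ = k :=
        (Fintype.equivFin K).symm_apply_apply k
      rw [e, update_self]
    · rw [if_neg h]
      have e : (Fintype.equivFin K).symm ⟨i, hi⟩ ≠ k := by
        intro e
        apply h
        rw [← e, ix, Equiv.apply_symm_apply]
      rw [update_of_ne e]

theorem codeStk_inj {S S' : ∀ k, List (Γ k)} (hS : Good F S) (hS' : Good F S')
    (h : codeStk F S = codeStk F S') : S = S' := by
  funext k
  have h1 := codeStk_getD F S k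
  rw [h, codeStk_getD] at h1
  have h2 : ∀ l l' : List (Γ k), (∀ x ∈ l, (⟨k, x⟩ : Σ k, Γ k) ∈ F) →
      (∀ x ∈ l', (⟨k, x⟩ : Σ k, Γ k) ∈ F) → l.map (code F k) = l'.map (code F k) → l = l' := by
    intro l
    induction l with
    | nil => intro l' _ _ h; cases l' with
      | nil => rfl
      | cons a l' => simp at h
    | cons a l ih => intro l' h1 h2 h; cases l' with
      | nil => simp at h
      | cons b l' =>
        simp only [List.map_cons, List.cons.injEq] at h
        have ha := h1 a (by simp)
        have hb := h2 b (by simp)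
        have e : a = b := by
          have := congrArg (dec F k) h.1
          rw [dec_code F k a ha, dec_code F k b hb] at this
          exact Option.some.inj this
        rw [e, ih l' (fun x hx => h1 x (by simp [hx])) (fun x hx => h2 x (by simp [hx])) h.2]
  exact (h2 _ _ (hS' k) (hS k) h1).symm

/-- Running a statement on coded configurations. -/
noncomputable def run : TM2.Stmt Γ Λ σ → σ × List (List (Option F)) →
    Option Λ × (σ × List (List (Option F)))
  | .push k f q, p => run q (p.1, p.2.set (ix k) (code F k (f p.1) :: p.2.getD (ix k) []))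
  | .peek k f q, p => run q (f p.1 ((p.2.getD (ix k) []).head?.bind (dec F k)), p.2)
  | .pop k f q, p => run q (f p.1 ((p.2.getD (ix k) []).head?.bind (dec F k)),
      p.2.set (ix k) (p.2.getD (ix k) []).tail)
  | .load f q, p => run q (f p.1, p.2)
  | .branch f q₁ q₂, p => if f p.1 then run q₁ p else run q₂ p
  | .goto f, p => (some (f p.1), p)
  | .halt, p => (none, p)

/-- Code of a configuration. -/
noncomputable def codeCfg (c : TM2.Cfg Γ Λ σ) : Option Λ × (σ × List (List (Option F))) :=
  (c.l, (c.var, codeStk F c.stk))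

theorem run_codeStk [DecidableEq K] (q : TM2.Stmt Γ Λ σ) : ∀ (v : σ) (S : ∀ k, List (Γ k)),
    pushed q ⊆ F → Good F S → run F q (v, codeStk F S) = codeCfg F (TM2.stepAux q v S) ∧
      Good F (TM2.stepAux q v S).stk := by
  induction q with
  | push k f q ih =>
    intro v S hq hS
    have hk : (⟨k, f v⟩ : Σ k, Γ k) ∈ F := hq (Or.inl ⟨v, rfl⟩)
    have hS' : Good F (update S k (f v :: S k)) := by
      intro k' x hx
      by_cases e : k' = k
      · subst e
        rw [update_self] at hx
        rcases List.mem_cons.1 hx with rfl | hx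
        · exact hk
        · exact hS _ _ hx
      · rw [update_of_ne e] at hx
        exact hS _ _ hx
    have := ih v (update S k (f v :: S k)) (fun x hx => hq (Or.inr hx)) hS'
    rw [codeStk_update, List.map_cons, ← codeStk_getD] at this
    exact this
  | peek k f q ih =>
    intro v S hq hS
    have e : ((codeStk F S).getD (ix k) []).head?.bind (dec F k) = (S k).head? := by
      rw [codeStk_getD]
      cases h : S k with
      | nil => rfl
      | cons x l =>
        have : (⟨k, x⟩ : Σ k, Γ k) ∈ F := hS k x (by rw [h]; simp)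
        simp [dec_code F k x this]
    have := ih (f v (S k).head?) S hq hS
    rw [← e] at this
    rw [TM2.stepAux, run, ← e]
    exact this
  | pop k f q ih =>
    intro v S hq hS
    have e : ((codeStk F S).getD (ix k) []).head?.bind (dec F k) = (S k).head? := by
      rw [codeStk_getD]
      cases h : S k with
      | nil => rfl
      | cons x l =>
        have : (⟨k, x⟩ : Σ k, Γ k) ∈ F := hS k x (by rw [h]; simp)
        simp [dec_code F k x this]
    have hS' : Good F (update S k (S k).tail) := by
      intro k' x hx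
      by_cases e : k' = k
      · subst e
        rw [update_self] at hx
        exact hS _ _ (List.mem_of_mem_tail hx)
      · rw [update_of_ne e] at hx
        exact hS _ _ hx
    have := ih (f v (S k).head?) (update S k (S k).tail) hq hS'
    rw [codeStk_update, List.map_tail, ← codeStk_getD, ← e] at this
    rw [TM2.stepAux, run, ← e]
    exact this
  | load f q ih => intro v S hq hS; exact ih (f v) S hq hS
  | branch f q₁ q₂ ih₁ ih₂ =>
    intro v S hq hS
    rw [run, TM2.stepAux]
    cases f v with
    | true => exact ih₁ v S (fun x hx => hq (Or.inl hx)) hS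
    | false => exact ih₂ v S (fun x hx => hq (Or.inr hx)) hS
  | goto f => intro v S hq hS; exact ⟨rfl, hS⟩
  | halt => intro v S hq hS; exact ⟨rfl, hS⟩

variable [Enc Λ] [Enc σ] [Finite Λ] [Finite σ] [Enc F] [Finite F]

omit [Finite Λ] in
theorem run_ptf (q : TM2.Stmt Γ Λ σ) : PTF (run F q) := by
  have top : ∀ (k : K) (f : σ → Option (Γ k) → σ), PTF (fun p : σ × List (List (Option F)) =>
      f p.1 ((p.2.getD (ix k) []).head?.bind (dec F k))) := fun k f =>
    (PTF.of_finite (fun p : σ × Option (Option F) => f p.1 (p.2.bind (dec F k)))).comp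
      (PTF.fst.pair ((PTF.snd.getD (PTF.const (ix k)) (PTF.const [])).head?))
  induction q with
  | push k f q ih =>
    exact ih.comp (PTF.fst.pair (PTF.snd.set (PTF.const (ix k))
      (((PTF.of_finite (fun v => code F k (f v))).comp PTF.fst).cons
        (PTF.snd.getD (PTF.const (ix k)) (PTF.const [])))))
  | peek k f q ih => exact ih.comp ((top k f).pair PTF.snd)
  | pop k f q ih =>
    exact ih.comp ((top k f).pair (PTF.snd.set (PTF.const (ix k))
      (PTF.snd.getD (PTF.const (ix k)) (PTF.const [])).tail))
  | load f q ih => exact ih.comp (((PTF.of_finite f).comp PTF.fst).pair PTF.snd)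
  | branch f q₁ q₂ ih₁ ih₂ => exact ((PTF.of_finite f).comp PTF.fst).cond ih₁ ih₂
  | goto f => exact ((PTF.of_finite (fun v => some (f v))).comp PTF.fst).pair PTF.id
  | halt => exact (PTF.const none).pair PTF.id

omit [Enc Λ] [Enc σ] [Finite Λ] [Finite σ] in
theorem run_sz (q : TM2.Stmt Γ Λ σ) : ∃ C, ∀ v T, sz (run F q (v, T)).2.2 ≤ sz T + C := by
  obtain ⟨B, hB⟩ := exists_sz_bound (Option F)
  induction q with
  | push k f q ih =>
    obtain ⟨C, hC⟩ := ih
    refine ⟨C + (B + 1), fun v T => (hC v _).trans ?_⟩
    have := sz_set_le (B + 1) (code F k (f v) :: T.getD (ix k) []) [] T (ix k) (by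
      rw [sz_cons]
      have := hB (code F k (f v))
      omega)
    exact (Nat.add_le_add_right this C).trans (by omega)
  | peek k f q ih => obtain ⟨C, hC⟩ := ih; exact ⟨C, fun v T => hC _ T⟩
  | pop k f q ih =>
    obtain ⟨C, hC⟩ := ih
    refine ⟨C, fun v T => (hC _ _).trans ?_⟩
    have := sz_set_le 0 (T.getD (ix k) []).tail [] T (ix k) (by
      cases T.getD (ix k) [] with
      | nil => simp
      | cons a l => rw [sz_cons]; simp; omega)
    simpa using this
  | load f q ih => obtain ⟨C, hC⟩ := ih; exact ⟨C, fun v T => hC _ T⟩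
  | branch f q₁ q₂ ih₁ ih₂ =>
    obtain ⟨C₁, hC₁⟩ := ih₁
    obtain ⟨C₂, hC₂⟩ := ih₂
    refine ⟨C₁ + C₂, fun v T => ?_⟩
    have h1 := hC₁ v T
    have h2 := hC₂ v T
    rw [run]
    show sz (if f v then run F q₁ (v, T) else run F q₂ (v, T)).2.2 ≤ _
    split_ifs <;> omega
  | goto f => exact ⟨0, fun v T => le_refl _⟩
  | halt => exact ⟨0, fun v T => le_refl _⟩

omit [Enc Λ] [Enc σ] [Finite Λ] [Finite σ] [Enc F] [Finite F] in
/-- The total step function on coded configurations. -/
noncomputable def stepT (m : Λ → TM2.Stmt Γ Λ σ) (c : Option Λ × (σ × List (List (Option F)))) :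
    Option Λ × (σ × List (List (Option F))) :=
  match c.1 with
  | none => c
  | some l => run F (m l) c.2

theorem stepT_ptf (m : Λ → TM2.Stmt Γ Λ σ) : PTF (stepT F m) := by
  refine (PTF.option_case (o := fun c : Option Λ × (σ × List (List (Option F))) => c.1)
    (f := fun c => c) (g := fun p => run F (m p.2) p.1.2) PTF.fst PTF.id
    ((PTF.finite_case (F := fun l p => run F (m l) p) (fun l => run_ptf F (m l))).comp
      (PTF.snd.pair (PTF.snd.comp PTF.fst)))).congr (fun c => ?_)
  obtain ⟨o, p⟩ := c
  cases o <;> rfl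

theorem stepT_sz (m : Λ → TM2.Stmt Γ Λ σ) : ∃ C, ∀ c, sz (stepT F m c) ≤ sz c + C := by
  obtain ⟨Bl, hBl⟩ := exists_sz_bound (Option Λ)
  obtain ⟨Bs, hBs⟩ := exists_sz_bound σ
  have h : ∃ C, ∀ l v T, sz (run F (m l) (v, T)).2.2 ≤ sz T + C := by
    choose C hC using fun l => run_sz F (m l)
    obtain ⟨B, hB⟩ := Set.finite_range C |>.bddAbove
    exact ⟨B, fun l v T => (hC l v T).trans (Nat.add_le_add_left (hB ⟨l, rfl⟩) _)⟩
  obtain ⟨C, hC⟩ := h
  refine ⟨Bl + Bs + C, fun c => ?_⟩
  obtain ⟨o, v, T⟩ := c
  cases o with
  | none => exact Nat.le_add_right _ _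
  | some l =>
    show sz (run F (m l) (v, T)) ≤ _
    have h1 := hC l v T
    generalize run F (m l) (v, T) = r at h1 ⊢
    obtain ⟨o', v', T'⟩ := r
    have h2 := hBl o'
    have h3 := hBs v'
    rw [sz_pair, sz_pair, sz_pair, sz_pair]
    simp only at h1
    omega

end sim

/-- The total step function of a machine. -/
def stp (tm : FinTM2) (c : tm.Cfg) : tm.Cfg := (tm.step c).getD c

theorem stp_iterate_of_none (tm : FinTM2) {c : tm.Cfg} (h : tm.step c = none) (n : ℕ) :
    (stp tm)^[n] c = c := by
  have h1 : stp tm c = c := by rw [stp, h]; rfl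
  exact iterate_fixed h1 n

theorem bind_none_iterate {C : Type} (f : C → Option C) (n : ℕ) :
    (flip bind f)^[n] none = none := by
  induction n with
  | zero => rfl
  | succ n ih => rw [iterate_succ_apply]; exact ih

theorem stp_of_bind (tm : FinTM2) (m : ℕ) : ∀ (c c' : tm.Cfg),
    (flip bind tm.step)^[m] (some c) = some c' → (stp tm)^[m] c = c' := by
  induction m with
  | zero => intro c c' h; exact Option.some.inj h
  | succ m ih =>
    intro c c' h
    rw [iterate_succ_apply] at h
    change (flip bind tm.step)^[m] (tm.step c) = some c' at h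
    rw [iterate_succ_apply]
    cases e : tm.step c with
    | none => rw [e, bind_none_iterate] at h; cases h
    | some c1 =>
      rw [e] at h
      have e1 : stp tm c = c1 := by rw [stp, e]; rfl
      rw [e1]
      exact ih c1 c' h

theorem bind_of_stp (tm : FinTM2) (T : ℕ) : ∀ (c : tm.Cfg),
    ∃ m, m ≤ T ∧ (flip bind tm.step)^[m] (some c) = some ((stp tm)^[T] c) := by
  induction T with
  | zero => intro c; exact ⟨0, le_refl _, rfl⟩
  | succ T ih =>
    intro c
    rw [iterate_succ_apply]
    cases e : tm.step c with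
    | none =>
      have e1 : stp tm c = c := by rw [stp, e]; rfl
      rw [e1]
      obtain ⟨m, h1, h2⟩ := ih c
      exact ⟨m, by omega, h2⟩
    | some c1 =>
      have e1 : stp tm c = c1 := by rw [stp, e]; rfl
      rw [e1]
      obtain ⟨m, h1, h2⟩ := ih c1
      refine ⟨m + 1, by omega, ?_⟩
      rw [iterate_succ_apply]
      change (flip bind tm.step)^[m] (tm.step c) = _
      rw [e]
      exact h2

theorem initList_stk (tm : FinTM2) (s : List (tm.Γ tm.k₀)) :
    (initList tm s).stk = update (fun _ => []) tm.k₀ s := by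
  funext k
  by_cases h : k = tm.k₀
  · subst h
    rw [update_self]
    simp [initList]
  · rw [update_of_ne h]
    simp [initList, h]

theorem haltList_stk (tm : FinTM2) (s : List (tm.Γ tm.k₁)) :
    (haltList tm s).stk = update (fun _ => []) tm.k₁ s := by
  funext k
  by_cases h : k = tm.k₁
  · subst h
    rw [update_self]
    simp [haltList]
  · rw [update_of_ne h]
    simp [haltList, h]

/-- The machine outputs `y` on input `x` in time `T` iff the `T`-th configuration is the final
one. -/
theorem outputs_iff (tm : FinTM2) (x : List (tm.Γ tm.k₀)) (y : List (tm.Γ tm.k₁)) (T : ℕ) :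
    Nonempty (TM2OutputsInTime tm x (some y) T) ↔
      (stp tm)^[T] (initList tm x) = haltList tm y := by
  constructor
  · rintro ⟨⟨⟨n, h1⟩, h2⟩⟩
    have h3 := stp_of_bind tm n _ _ h1
    obtain ⟨j, rfl⟩ := Nat.exists_eq_add_of_le h2
    rw [Nat.add_comm, iterate_add_apply, h3]
    exact stp_iterate_of_none tm rfl j
  · intro h
    obtain ⟨m, h1, h2⟩ := bind_of_stp tm T (initList tm x)
    rw [h] at h2
    exact ⟨⟨⟨m, h2⟩, h1⟩⟩

section
variable (tm : FinTM2)

/-- The symbols which can occur on the stacks. -/
def sym : Set (Σ k, tm.Γ k) :=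
  (⋃ l, pushed (tm.m l)) ∪ Set.range (fun x => (⟨tm.k₀, x⟩ : Σ k, tm.Γ k))

theorem sym_finite : (sym tm).Finite := by
  have := tm.ΛFin
  have := tm.σFin
  have := tm.Γk₀Fin
  exact (Set.finite_iUnion (fun l => pushed_finite (tm.m l))).union (Set.finite_range _)

theorem good_init (x : List (tm.Γ tm.k₀)) : Good (sym tm) (initList tm x).stk := by
  rw [initList_stk]
  intro k y hy
  by_cases h : k = tm.k₀
  · subst h
    exact Or.inr ⟨y, rfl⟩
  · rw [update_of_ne h] at hy
    cases hy

variable [Fintype tm.K]

theorem stepT_codeCfg (c : tm.Cfg) (hc : Good (sym tm) c.stk) :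
    stepT (sym tm) tm.m (codeCfg (sym tm) c) = codeCfg (sym tm) (stp tm c) ∧
      Good (sym tm) (stp tm c).stk := by
  obtain ⟨o, v, S⟩ := c
  cases o with
  | none => exact ⟨rfl, hc⟩
  | some l =>
    have := run_codeStk (sym tm) (tm.m l) v S
      (fun x hx => Or.inl (Set.mem_iUnion.2 ⟨l, hx⟩)) hc
    exact this

theorem stepT_iterate (n : ℕ) : ∀ (c : tm.Cfg), Good (sym tm) c.stk →
    (stepT (sym tm) tm.m)^[n] (codeCfg (sym tm) c) = codeCfg (sym tm) ((stp tm)^[n] c) ∧
      Good (sym tm) ((stp tm)^[n] c).stk := by
  induction n with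
  | zero => intro c hc; exact ⟨rfl, hc⟩
  | succ n ih =>
    intro c hc
    obtain ⟨h1, h2⟩ := stepT_codeCfg tm c hc
    rw [iterate_succ_apply, iterate_succ_apply, h1]
    exact ih _ h2

theorem codeStk_empty {K : Type} [Fintype K] {Γ : K → Type} (F : Set (Σ k, Γ k)) :
    codeStk F (fun _ => []) = List.replicate (Fintype.card K) [] := by
  apply List.ext_getElem
  · simp [codeStk]
  · intro i h1 h2
    simp [codeStk]

theorem codeStk_haltList (y : List (tm.Γ tm.k₁)) :
    codeStk (sym tm) (haltList tm y).stk =
      (List.replicate (Fintype.card tm.K) []).set (ix tm.k₁)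
        (y.map (code (sym tm) tm.k₁)) := by
  rw [haltList_stk, codeStk_update, codeStk_empty]

theorem codeStk_initList (x : List (tm.Γ tm.k₀)) :
    codeStk (sym tm) (initList tm x).stk =
      (List.replicate (Fintype.card tm.K) []).set (ix tm.k₀)
        (x.map (code (sym tm) tm.k₀)) := by
  rw [initList_stk, codeStk_update, codeStk_empty]

end

end Clk

open Clk in
/-- **Clocked simulation.** For every Mathlib machine there is a polynomial-time function
computing, from `T` in unary and an input, the output of the machine if it is produced in at most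
`T` steps. -/
theorem clock (tm : FinTM2) {A₀ A₁ : Type} [Enc A₀] [Enc A₁]
    (ei : tm.Γ tm.k₀ ≃ A₀) (eo : tm.Γ tm.k₁ ≃ A₁) :
    ∃ R : ℕ × List A₀ → Option (List A₁), PTF R ∧ ∀ T x y, R (T, x) = some y ↔
      Nonempty (TM2OutputsInTime tm (x.map ei.invFun) (some (y.map eo.invFun)) T) := by
  classical
  let _ := tm.kFin
  let _ := tm.ΛFin
  let _ := tm.σFin
  let _ := tm.Γk₀Fin
  have : Finite (sym tm) := sym_finite tm
  let _ : Enc tm.Λ := Enc.ofFinite _
  let _ : Enc tm.σ := Enc.ofFinite _
  let _ : Enc (sym tm) := Enc.ofFinite _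
  have : Finite A₀ := Finite.of_equiv _ ei
  have hinit : PTF (fun p : ℕ × List A₀ => ((some tm.main : Option tm.Λ), (tm.initialState,
      (List.replicate (Fintype.card tm.K) ([] : List (Option (sym tm)))).set (ix tm.k₀)
        (p.2.map (fun a => Clk.code (sym tm) tm.k₀ (ei.invFun a)))))) :=
    (PTF.const _).pair ((PTF.const _).pair ((PTF.const _).set (PTF.const _)
      (PTF.snd.map (g := fun q : (ℕ × List A₀) × A₀ =>
          Clk.code (sym tm) tm.k₀ (ei.invFun q.2))
        ((PTF.of_finite (fun a : A₀ => Clk.code (sym tm) tm.k₀ (ei.invFun a))).comp PTF.snd))))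
  obtain ⟨C, hC⟩ := stepT_sz (sym tm) tm.m
  have hit := PTF.nat_iterate_add (n := fun p : ℕ × List A₀ => p.1) PTF.fst hinit
    ((stepT_ptf (sym tm) tm.m).comp PTF.snd) (fun _ => C) (PB.const C)
    (fun a s => hC s)
  have hstk := (PTF.snd.comp (PTF.snd.comp hit)).getD (PTF.const (ix tm.k₁)) (PTF.const [])
  have hout := hstk.filterMap (g := fun p : (ℕ × List A₀) × Option (sym tm) =>
    (dec (sym tm) tm.k₁ p.2).map eo)
    ((PTF.of_finite (fun a : Option (sym tm) => (dec (sym tm) tm.k₁ a).map eo)).comp PTF.snd)
  have htest := hit.eq ((PTF.const (none : Option tm.Λ)).pair ((PTF.const tm.initialState).pair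
    ((PTF.const (List.replicate (Fintype.card tm.K) ([] : List (Option (sym tm))))).set
      (PTF.const (ix tm.k₁)) hstk)))
  refine ⟨_, htest.cond hout.some (PTF.const none), fun T x y => ?_⟩
  rw [outputs_iff]
  have hini : ((some tm.main : Option tm.Λ), (tm.initialState,
      (List.replicate (Fintype.card tm.K) ([] : List (Option (sym tm)))).set (ix tm.k₀)
        (x.map (fun a => Clk.code (sym tm) tm.k₀ (ei.invFun a))))) =
      codeCfg (sym tm) (initList tm (x.map ei.invFun)) := by
    rw [codeCfg, codeStk_initList, List.map_map]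
    rfl
  obtain ⟨h1, h2⟩ := stepT_iterate tm T (initList tm (x.map ei.invFun)) (good_init tm _)
  simp only [hini, h1]
  generalize (stp tm)^[T] (initList tm (x.map ei.invFun)) = c at h2
  have hstk1 : (codeCfg (sym tm) c).2.2.getD (ix tm.k₁) [] =
      (c.stk tm.k₁).map (Clk.code (sym tm) tm.k₁) := codeStk_getD _ _ _
  rw [hstk1]
  have hfm : ∀ l : List (tm.Γ tm.k₁), (∀ x ∈ l, (⟨tm.k₁, x⟩ : Σ k, tm.Γ k) ∈ sym tm) →
      (l.map (Clk.code (sym tm) tm.k₁)).filterMap
        (fun a => (dec (sym tm) tm.k₁ a).map eo) = l.map eo := by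
    intro l
    induction l with
    | nil => intro _; rfl
    | cons a l ih =>
      intro h
      have h1 := ih (fun x hx => h x (List.mem_cons_of_mem _ hx))
      have h2 := dec_code (sym tm) tm.k₁ a (h a (by simp))
      rw [List.map_cons, List.filterMap_cons_some (b := eo a) (by rw [h2]; rfl), h1,
        List.map_cons]
  rw [hfm _ (h2 tm.k₁)]
  have hH : ((none : Option tm.Λ), (tm.initialState,
      (List.replicate (Fintype.card tm.K) ([] : List (Option (sym tm)))).set (ix tm.k₁)
        ((c.stk tm.k₁).map (Clk.code (sym tm) tm.k₁)))) =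
      codeCfg (sym tm) (haltList tm (c.stk tm.k₁)) := by
    rw [codeCfg, codeStk_haltList]
    rfl
  rw [hH]
  have hgood : Good (sym tm) (haltList tm (c.stk tm.k₁)).stk := by
    rw [haltList_stk]
    intro k z hz
    by_cases h : k = tm.k₁
    · subst h
      rw [update_self] at hz
      exact h2 _ _ hz
    · rw [update_of_ne h] at hz
      cases hz
  have hiff : codeCfg (sym tm) c = codeCfg (sym tm) (haltList tm (c.stk tm.k₁)) ↔
      c = haltList tm (c.stk tm.k₁) := by
    constructor
    · intro h
      have e := congrArg (fun p => p.2.2) h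
      have e1 : c.stk = (haltList tm (c.stk tm.k₁)).stk := codeStk_inj (sym tm) h2 hgood e
      have e2 := congrArg (fun p => p.1) h
      have e3 := congrArg (fun p => p.2.1) h
      obtain ⟨l, v, S⟩ := c
      simp only [codeCfg] at e2 e3
      simp only at e1
      unfold haltList at e1 e2 e3 ⊢
      simp only at e1 e2 e3
      rw [e2, e3]
      congr 1
    · intro h; exact congrArg _ h
  have hz : ∀ z, c = haltList tm z → c.stk tm.k₁ = z := by
    intro z hz
    rw [hz, haltList_stk, update_self]
  by_cases h : c = haltList tm (c.stk tm.k₁)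
  · rw [if_pos (decide_eq_true (hiff.2 h)), Option.some.injEq]
    constructor
    · intro h'
      have e : y.map eo.invFun = c.stk tm.k₁ := by
        rw [← h', List.map_map]
        exact (List.map_congr_left (fun a _ => eo.left_inv a)).trans (List.map_id _)
      rw [e]
      exact h
    · intro h'
      rw [hz _ h', List.map_map]
      exact (List.map_congr_left (fun a _ => eo.right_inv a)).trans (List.map_id _)
  · rw [if_neg (by rw [decide_eq_true_iff]; exact fun h' => h (hiff.1 h'))]
    constructor
    · intro h'; cases h'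
    · intro h'
      exact absurd (by rw [hz _ h']; exact h') h

end Pool.Agent.PT
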