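import Pool.Agent.Work.PT.Auto

/-!
# Time bounds polynomial in the input and in `2 ^ e`

`TimeF.fpt`: if `f : α × ℕ → β` is polynomial-time (numbers in unary) and `e : α → ℕ` is
polynomial-time then `a ↦ f (a, 2 ^ e a)` is computed in time polynomial in the size of `a` and
in `2 ^ e a`.
-/

set_option autoImplicit false

namespace Pool.Agent.PT

open Function

variable {α β : Type} [Enc α] [Enc β]

theorem PB.fst {B : α → ℕ} (h : PB B) : PB (fun p : α × ℕ => B p.1) :=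
  h.comp (PTF.size PTF.fst)

theorem TimeF.pow_two {e : α → ℕ} (he : PTF e) : ∃ B : α × ℕ → ℕ, PB B ∧
    TimeF (fun a => (a, 2 ^ e a)) (fun a => B (a, 2 ^ e a)) := by
  obtain ⟨Bc, c1, c2⟩ := id he
  obtain ⟨Bi, i1, i2⟩ : PTF (fun a : α => (a, 1)) := by fun_prop
  obtain ⟨Bs, s1, ⟨q, s2⟩⟩ : PTF (fun p : α × (α × ℕ) => (p.2.1, p.2.2 + p.2.2)) := by fun_prop
  have key : ∀ (a : α) (i : ℕ), (fun s : α × ℕ => (s.1, s.2 + s.2))^[i] (a, 1) = (a, 2 ^ i) := by
    intro a i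
    induction i with
    | zero => rfl
    | succ i ih => rw [iterate_succ_apply', ih]; simp [pow_succ]; omega
  have hn : ∀ a, (Enc.enc (e a)).nodes = e a := fun a => encNat_nodes _
  have hsz : ∀ (a : α) (i : ℕ), i ≤ e a → sz (a, 2 ^ i) ≤ sz a + 2 * 2 ^ e a + 2 := by
    intro a i hi
    rw [sz_pair, sz_nat]
    have : 2 ^ i ≤ 2 ^ e a := Nat.pow_le_pow_right (by norm_num) hi
    omega
  obtain ⟨C, h⟩ := TimeF.iterate (c := e) (init := fun a : α => (a, 1))
    (step := fun p : α × (α × ℕ) => (p.2.1, p.2.2 + p.2.2)) c1 i1 s1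
    (fun a => (2 * sz a + 2 * 2 ^ e a + 5) ^ q) (fun a => sz a + 2 * 2 ^ e a + 2)
    (fun a i hi => by
      rw [key]; exact hsz a i (by rw [hn] at hi; exact hi))
    (fun a i hi => by
      rw [key]
      refine (s2 _).trans (Nat.pow_le_pow_left ?_ _)
      rw [sz_pair]
      have := hsz a i (by rw [hn] at hi; omega)
      omega)
  refine ⟨fun p => C * (Bc p.1 + Bi p.1 + sz p.1 + sz (e p.1) + (sz p.1 + 2 * p.2 + 2) + 1 +
    sz (e p.1) * ((2 * sz p.1 + 2 * p.2 + 5) ^ q + sz p.1 + (sz p.1 + 2 * p.2 + 2) + 1)), ?_, ?_⟩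
  · have h1 : PB (fun p : α × ℕ => sz p.1) := PB.sz.fst
    have h2 : PB (fun p : α × ℕ => p.2) :=
      (PTF.size (PTF.snd (α := α) (β := ℕ))).mono (fun p => by rw [sz_nat]; omega)
    have h3 : PB (fun p : α × ℕ => sz (e p.1)) := he.size.fst
    have h4 : PB (fun p : α × ℕ => sz p.1 + 2 * p.2 + 2) :=
      (h1.add ((PB.const 2).mul h2)).add (PB.const 2)
    exact (PB.const C).mul ((((((c2.fst.add i2.fst).add h1).add h3).add h4).add
      (PB.const 1)).add (h3.mul (((((((PB.const 2).mul h1).add ((PB.const 2).mul h2)).add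
        (PB.const 5)).pow q).add h1).add h4 |>.add (PB.const 1))))
  · refine TimeF.mono (f := fun a => (a, 2 ^ e a)) ?_ (fun a => le_refl _)
    have e1 : (fun a => (fun s : α × ℕ => (s.1, s.2 + s.2))^[(Enc.enc (e a)).nodes] (a, 1)) =
        fun a => (a, 2 ^ e a) := by
      funext a; rw [key, hn]
    rw [← e1]
    exact h

theorem TimeF.fpt {f : α × ℕ → β} (hf : PTF f) {e : α → ℕ} (he : PTF e) :
    ∃ B : α × ℕ → ℕ, PB B ∧ TimeF (fun a => f (a, 2 ^ e a)) (fun a => B (a, 2 ^ e a)) := by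
  obtain ⟨B, hB, h⟩ := TimeF.pow_two he
  have hfs := hf.size
  obtain ⟨Bf, f1, f2⟩ := hf
  refine ⟨fun p => B p + Bf p + 4 * sz p + 8 * sz p + 4 * sz (f p) + 8, ?_, ?_⟩
  · exact ((((hB.add f2).add ((PB.const 4).mul PB.sz)).add ((PB.const 8).mul PB.sz)).add
      ((PB.const 4).mul hfs)).add (PB.const 8)
  · refine (f1.comp h).mono (fun a => ?_)
    have : sz a ≤ sz (a, 2 ^ e a) := by rw [sz_pair]; omega
    beta_reduce
    omega

end Pool.Agent.PT
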