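import Pool.Agent.Work.PT.Auto
import Pool.Agent.Work.PT.Basic

/-!
# The tableau of a program

Small-step semantics for `Prog`, and a formula in conjunctive normal form which is satisfiable if
and only if the program accepts some input matching a given template.
-/

set_option autoImplicit false
set_option linter.unusedSectionVars false

namespace Pool.Agent.PT

open Function

/-! ### Small-step semantics -/

section small

variable {K : Type}

/-- What a step does to the stacks: push a bit on a stack, or pop a stack. -/
def act : List (Prog K) → Option (K × Option Bool)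
  | .push k b :: _ => some (k, some b)
  | .case k _ _ _ :: _ => some (k, none)
  | .loop k _ _ :: _ => some (k, none)
  | _ => none

/-- The next continuation, given the popped bit. -/
def nxt (o : Option Bool) : List (Prog K) → List (Prog K)
  | [] => []
  | .skip :: κ => κ
  | .push _ _ :: κ => κ
  | .seq p q :: κ => p :: q :: κ
  | .case _ pn pf pt :: κ => (match o with
      | none => pn
      | some b => bif b then pt else pf) :: κ
  | .loop k pf pt :: κ => match o with
      | none => κ
      | some b => (bif b then pt else pf) :: .loop k pf pt :: κ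

variable [DecidableEq K]

/-- Effect of an action on the stacks. -/
def app (a : Option (K × Option Bool)) (S : Mem K) : Mem K :=
  match a with
  | none => S
  | some (k, some b) => update S k (b :: S k)
  | some (k, none) => update S k (S k).tail

/-- The bit read by an action. -/
def rd (a : Option (K × Option Bool)) (S : Mem K) : Option Bool :=
  match a with
  | some (k, none) => (S k).head?
  | _ => none

/-- One small step. -/
def sstep (c : List (Prog K) × Mem K) : List (Prog K) × Mem K :=
  (nxt (rd (act c.1) c.2) c.1, app (act c.1) c.2)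

/-- Size of a program. -/
def Prog.psize : Prog K → ℕ
  | .skip => 1
  | .push _ _ => 1
  | .seq p q => 1 + p.psize + q.psize
  | .case _ pn pf pt => 1 + pn.psize + pf.psize + pt.psize
  | .loop _ pf pt => 1 + pf.psize + pt.psize

theorem Prog.psize_pos (p : Prog K) : 1 ≤ p.psize := by
  cases p <;> simp [Prog.psize] <;> omega

theorem Exec.small {p : Prog K} {S S' : Mem K} {t : ℕ} (h : Exec p S S' t) :
    ∃ n, n ≤ (t + 1) * p.psize ∧ ∀ κ, sstep^[n] (p :: κ, S) = (κ, S') := by
  induction h with
  | skip S => exact ⟨1, by simp [Prog.psize], fun κ => rfl⟩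
  | push k b S => exact ⟨1, by simp [Prog.psize], fun κ => rfl⟩
  | @seq p q S S' S'' t t' _ _ ih1 ih2 =>
    obtain ⟨n1, h1, e1⟩ := ih1
    obtain ⟨n2, h2, e2⟩ := ih2
    refine ⟨n2 + (n1 + 1), ?_, fun κ => ?_⟩
    · simp only [Prog.psize]
      have h3 : (t + 1) * p.psize ≤ (t + t' + 1) * p.psize := Nat.mul_le_mul_right _ (by omega)
      have h4 : (t' + 1) * q.psize ≤ (t + t' + 1) * q.psize := Nat.mul_le_mul_right _ (by omega)
      have h5 : (t + t' + 1) * (1 + p.psize + q.psize) =
        (t + t' + 1) + (t + t' + 1) * p.psize + (t + t' + 1) * q.psize := by ring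
      omega
    · rw [iterate_add_apply, iterate_succ_apply]
      show sstep^[n2] (sstep^[n1] (p :: q :: κ, S)) = _
      rw [e1, e2]
  | @case_nil k pn pf pt S S' t hk _ ih =>
    obtain ⟨n1, h1, e1⟩ := ih
    refine ⟨n1 + 1, ?_, fun κ => ?_⟩
    · simp only [Prog.psize]
      have h3 : (t + 1) * pn.psize ≤ (t + 1 + 1) * pn.psize := Nat.mul_le_mul_right _ (by omega)
      have h5 : (t + 1 + 1) * (1 + pn.psize + pf.psize + pt.psize) =
        (t + 1 + 1) + (t + 1 + 1) * pn.psize + (t + 1 + 1) * (pf.psize + pt.psize) := by ring
      omega
    · rw [iterate_succ_apply]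
      have : sstep (.case k pn pf pt :: κ, S) = (pn :: κ, S) := by
        have e : update S k [] = S := by rw [← hk]; exact update_eq_self k S
        simp [sstep, act, nxt, rd, app, hk, e]
      rw [this, e1]
  | @case_cons k pn pf pt S S' t b l hk _ ih =>
    obtain ⟨n1, h1, e1⟩ := ih
    refine ⟨n1 + 1, ?_, fun κ => ?_⟩
    · simp only [Prog.psize]
      have h2 : (bif b then pt else pf).psize ≤ pf.psize + pt.psize := by cases b <;> simp
      have h3 : (t + 1) * (bif b then pt else pf).psize ≤ (t + 1 + 1) * (pf.psize + pt.psize) :=
        Nat.mul_le_mul (by omega) h2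
      have h5 : (t + 1 + 1) * (1 + pn.psize + pf.psize + pt.psize) =
        (t + 1 + 1) + (t + 1 + 1) * pn.psize + (t + 1 + 1) * (pf.psize + pt.psize) := by ring
      omega
    · rw [iterate_succ_apply]
      have : sstep (.case k pn pf pt :: κ, S) = ((bif b then pt else pf) :: κ, update S k l) := by
        simp [sstep, act, nxt, rd, app, hk]
      rw [this, e1]
  | @loop_nil k pf pt S hk =>
    refine ⟨1, by simp only [Prog.psize]; omega, fun κ => ?_⟩
    have e : update S k [] = S := by rw [← hk]; exact update_eq_self k S
    simp [sstep, act, nxt, rd, app, hk, e]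
  | @loop_cons k pf pt S S' S'' t t' b l hk _ _ ih1 ih2 =>
    obtain ⟨n1, h1, e1⟩ := ih1
    obtain ⟨n2, h2, e2⟩ := ih2
    refine ⟨n2 + (n1 + 1), ?_, fun κ => ?_⟩
    · simp only [Prog.psize] at h2 ⊢
      have h0 : (bif b then pt else pf).psize ≤ pf.psize + pt.psize := by cases b <;> simp
      have h3 : (t + 1) * (bif b then pt else pf).psize ≤ (t + 1) * (pf.psize + pt.psize) :=
        Nat.mul_le_mul (by omega) h0
      have h5 : (t + t' + 1 + 1) * (1 + pf.psize + pt.psize) =
        (t' + 1) * (1 + pf.psize + pt.psize) + (t + 1) + (t + 1) * (pf.psize + pt.psize) := by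
          ring
      omega
    · rw [iterate_add_apply, iterate_succ_apply]
      have : sstep (.loop k pf pt :: κ, S) =
          ((bif b then pt else pf) :: .loop k pf pt :: κ, update S k l) := by
        simp [sstep, act, nxt, rd, app, hk]
      rw [this, e1, e2]

/-- Continuations occurring in an execution of `p` with continuation `κ`. -/
def conts : Prog K → List (Prog K) → List (List (Prog K))
  | .skip, κ => [.skip :: κ]
  | .push k b, κ => [.push k b :: κ]
  | .seq p q, κ => (.seq p q :: κ) :: (conts p (q :: κ) ++ conts q κ)
  | .case k pn pf pt, κ => (.case k pn pf pt :: κ) :: (conts pn κ ++ (conts pf κ ++ conts pt κ))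
  | .loop k pf pt, κ => (.loop k pf pt :: κ) ::
      (conts pf (.loop k pf pt :: κ) ++ conts pt (.loop k pf pt :: κ))

theorem mem_conts_self (p : Prog K) (κ : List (Prog K)) : p :: κ ∈ conts p κ := by
  cases p <;> simp [conts]

theorem nxt_mem_conts (p : Prog K) : ∀ (κ : List (Prog K)) (c : List (Prog K)) (o : Option Bool),
    c ∈ conts p κ → nxt o c ∈ conts p κ ∨ nxt o c = κ := by
  induction p with
  | skip => intro κ c o h; simp only [conts, List.mem_singleton] at h; subst h; simp [nxt]
  | push k b => intro κ c o h; simp only [conts, List.mem_singleton] at h; subst h; simp [nxt]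
  | seq p q ihp ihq =>
    intro κ c o h
    simp only [conts, List.mem_cons, List.mem_append] at h ⊢
    rcases h with rfl | h | h
    · left; right; left
      exact mem_conts_self p _
    · rcases ihp _ _ o h with h1 | h1
      · exact Or.inl (Or.inr (Or.inl h1))
      · rw [h1]; exact Or.inl (Or.inr (Or.inr (mem_conts_self q κ)))
    · rcases ihq _ _ o h with h1 | h1
      · exact Or.inl (Or.inr (Or.inr h1))
      · exact Or.inr h1
  | case k pn pf pt ihn ihf iht =>
    intro κ c o h
    simp only [conts, List.mem_cons, List.mem_append] at h ⊢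
    rcases h with rfl | h | h | h
    · left; right
      cases o with
      | none => exact Or.inl (mem_conts_self _ _)
      | some b =>
        cases b
        · exact Or.inr (Or.inl (mem_conts_self _ _))
        · exact Or.inr (Or.inr (mem_conts_self _ _))
    · rcases ihn _ _ o h with h1 | h1
      · exact Or.inl (Or.inr (Or.inl h1))
      · exact Or.inr h1
    · rcases ihf _ _ o h with h1 | h1
      · exact Or.inl (Or.inr (Or.inr (Or.inl h1)))
      · exact Or.inr h1
    · rcases iht _ _ o h with h1 | h1
      · exact Or.inl (Or.inr (Or.inr (Or.inr h1)))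
      · exact Or.inr h1
  | loop k pf pt ihf iht =>
    intro κ c o h
    simp only [conts, List.mem_cons, List.mem_append] at h ⊢
    rcases h with rfl | h | h
    · cases o with
      | none => exact Or.inr rfl
      | some b =>
        left; right
        cases b
        · exact Or.inl (mem_conts_self _ _)
        · exact Or.inr (mem_conts_self _ _)
    · rcases ihf _ _ o h with h1 | h1
      · exact Or.inl (Or.inr (Or.inl h1))
      · rw [h1]; exact Or.inl (Or.inl rfl)
    · rcases iht _ _ o h with h1 | h1
      · exact Or.inl (Or.inr (Or.inr h1))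
      · rw [h1]; exact Or.inl (Or.inl rfl)

/-- All continuations occurring in an execution of `p`. -/
def allc (p : Prog K) : List (List (Prog K)) := conts p [] ++ [[]]

theorem nxt_mem_allc {p : Prog K} {c : List (Prog K)} (o : Option Bool) (h : c ∈ allc p) :
    nxt o c ∈ allc p := by
  unfold allc at h ⊢
  rw [List.mem_append, List.mem_singleton] at h ⊢
  rcases h with h | rfl
  · exact nxt_mem_conts p [] c o h
  · exact Or.inr rfl

theorem run_mem_allc {p : Prog K} {S : Mem K} (n : ℕ) :
    (sstep^[n] ([p], S)).1 ∈ allc p := by
  induction n with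
  | zero => exact List.mem_append_left _ (mem_conts_self p [])
  | succ n ih =>
    rw [iterate_succ_apply']
    exact nxt_mem_allc _ ih

theorem sstep_nil (S : Mem K) : sstep (([] : List (Prog K)), S) = ([], S) := rfl

theorem iterate_nil (S : Mem K) (n : ℕ) :
    sstep^[n] (([] : List (Prog K)), S) = ([], S) := by
  induction n with
  | zero => rfl
  | succ n ih => rw [iterate_succ_apply, sstep_nil, ih]

theorem length_app (a : Option (K × Option Bool)) (S : Mem K) (k : K) :
    (app a S k).length ≤ (S k).length + 1 := by
  rcases a with _ | ⟨k', _ | b⟩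
  · simp [app]
  · by_cases h : k = k'
    · subst h; simp [app]; omega
    · simp [app, h]
  · by_cases h : k = k'
    · subst h; simp [app]
    · simp [app, h]

theorem length_run {c : List (Prog K) × Mem K} (n : ℕ) (k : K) :
    ((sstep^[n] c).2 k).length ≤ (c.2 k).length + n := by
  induction n with
  | zero => simp
  | succ n ih =>
    rw [iterate_succ_apply']
    have := length_app (act (sstep^[n] c).1) (sstep^[n] c).2 k
    show (app _ _ k).length ≤ _
    omega

end small

/-! ### Formulas -/

/-- Names of variables. -/
abbrev Nm := ℕ × ℕ × ℕ × ℕ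

/-- The valuation `v` satisfies the formula. -/
def SatBy {ν : Type} (v : ν → Bool) (φ : List (List (Bool × ν))) : Prop :=
  ∀ c ∈ φ, ∃ l ∈ c, v l.2 = l.1

/-- Satisfiability. -/
def Satisf {ν : Type} (φ : List (List (Bool × ν))) : Prop := ∃ v : ν → Bool, SatBy v φ

section sat
variable {ν : Type} {v : ν → Bool}

theorem satBy_append {φ ψ : List (List (Bool × ν))} :
    SatBy v (φ ++ ψ) ↔ SatBy v φ ∧ SatBy v ψ := by
  simp [SatBy, or_imp, forall_and]

theorem satBy_flatMap {β : Type} {l : List β} {f : β → List (List (Bool × ν))} :
    SatBy v (l.flatMap f) ↔ ∀ b ∈ l, SatBy v (f b) := by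
  simp only [SatBy, List.mem_flatMap]
  constructor
  · intro h b hb c hc; exact h c ⟨b, hb, hc⟩
  · rintro h c ⟨b, hb, hc⟩; exact h b hb c hc

/-- If `x` then `a` and `b` have the same value. -/
def eqc (x a b : ν) : List (List (Bool × ν)) :=
  [[(false, x), (false, a), (true, b)], [(false, x), (true, a), (false, b)]]

/-- If `x` then `a` has value `c`. -/
def setc (x a : ν) (c : Bool) : List (List (Bool × ν)) := [[(false, x), (c, a)]]

/-- `a` has value `c`. -/
def unitc (a : ν) (c : Bool) : List (List (Bool × ν)) := [[(c, a)]]

theorem satBy_eqc {x a b : ν} : SatBy v (eqc x a b) ↔ (v x = true → v a = v b) := by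
  simp only [SatBy, eqc, List.mem_cons, List.not_mem_nil, or_false, forall_eq_or_imp,
    exists_eq_or_imp, exists_eq_left, forall_eq]
  cases v x <;> cases v a <;> cases v b <;> simp

theorem satBy_setc {x a : ν} {c : Bool} : SatBy v (setc x a c) ↔ (v x = true → v a = c) := by
  simp only [SatBy, setc, List.mem_cons, List.not_mem_nil, or_false,
    exists_eq_or_imp, exists_eq_left, forall_eq]
  cases v x <;> simp

theorem satBy_unitc {a : ν} {c : Bool} : SatBy v (unitc a c) ↔ v a = c := by
  cases c <;> simp [SatBy, unitc]

end sat

/-! ### The tableau -/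

section tableau

variable {K : Type} [DecidableEq K]

open Classical in
/-- The program is at the continuation `κ` at time `t`. -/
noncomputable def vX (p : Prog K) (t : ℕ) (κ : List (Prog K)) : Nm := (0, t, (allc p).idxOf κ, 0)

/-- Cell `j` of the stack `k` is used at time `t`. -/
def vV (Kl : List K) (t : ℕ) (k : K) (j : ℕ) : Nm := (1, t, Kl.idxOf k, j)

/-- Contents of cell `j` of the stack `k` at time `t`. -/
def vB (Kl : List K) (t : ℕ) (k : K) (j : ℕ) : Nm := (2, t, Kl.idxOf k, j)

/-- A cell keeps its contents. -/
def keepc (Kl : List K) (x : Nm) (t : ℕ) (k : K) (j : ℕ) : List (List (Bool × Nm)) :=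
  eqc x (vV Kl t k j) (vV Kl (t + 1) k j) ++ eqc x (vB Kl t k j) (vB Kl (t + 1) k j)

/-- A bit is pushed. -/
def pushc (Kl : List K) (x : Nm) (b : Bool) (t : ℕ) (k : K) (j : ℕ) :
    List (List (Bool × Nm)) :=
  if j = 0 then setc x (vV Kl (t + 1) k j) true ++ setc x (vB Kl (t + 1) k j) b
  else eqc x (vV Kl t k (j - 1)) (vV Kl (t + 1) k j) ++
    eqc x (vB Kl t k (j - 1)) (vB Kl (t + 1) k j)

/-- A stack is popped. -/
def popc (Kl : List K) (x : Nm) (H : ℕ) (t : ℕ) (k : K) (j : ℕ) : List (List (Bool × Nm)) :=
  if j + 1 < H then eqc x (vV Kl t k (j + 1)) (vV Kl (t + 1) k j) ++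
    eqc x (vB Kl t k (j + 1)) (vB Kl (t + 1) k j)
  else setc x (vV Kl (t + 1) k j) false ++ setc x (vB Kl (t + 1) k j) false

/-- Change of a cell. -/
def cellc (Kl : List K) (x : Nm) (H : ℕ) (a : Option (K × Option Bool)) (t : ℕ) (k : K)
    (j : ℕ) : List (List (Bool × Nm)) :=
  match a with
  | none => keepc Kl x t k j
  | some (k', some b) => if k' = k then pushc Kl x b t k j else keepc Kl x t k j
  | some (k', none) => if k' = k then popc Kl x H t k j else keepc Kl x t k j

/-- Change of the continuation. -/
noncomputable def movec (Kl : List K) (p : Prog K) (κ : List (Prog K)) (t : ℕ) :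
    List (List (Bool × Nm)) :=
  match act κ with
  | some (k, none) =>
    [[(false, vX p t κ), (true, vV Kl t k 0), (true, vX p (t + 1) (nxt none κ))],
      [(false, vX p t κ), (false, vV Kl t k 0), (true, vB Kl t k 0),
        (true, vX p (t + 1) (nxt (some false) κ))],
      [(false, vX p t κ), (false, vV Kl t k 0), (false, vB Kl t k 0),
        (true, vX p (t + 1) (nxt (some true) κ))]]
  | _ => [[(false, vX p t κ), (true, vX p (t + 1) (nxt none κ))]]

/-- Initial contents of a cell of the input stack, with a given template. -/
def inic (Kl : List K) (tpl : List (Option Bool)) (i : K) (j : ℕ) : List (List (Bool × Nm)) :=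
  match tpl[j]? with
  | none => unitc (vV Kl 0 i j) false ++ unitc (vB Kl 0 i j) false
  | some none => unitc (vV Kl 0 i j) true
  | some (some b) => unitc (vV Kl 0 i j) true ++ unitc (vB Kl 0 i j) b

/-- The tableau. -/
noncomputable def tab (Kl : List K) (p : Prog K) (i o : K) (T H : ℕ)
    (tpl : List (Option Bool)) : List (List (Bool × Nm)) :=
  unitc (vX p 0 [p]) true ++
  ((List.range T).flatMap (fun t => (allc p).flatMap (fun κ => movec Kl p κ t ++
    Kl.flatMap (fun k => (List.range H).flatMap (fun j =>
      cellc Kl (vX p t κ) H (act κ) t k j)))) ++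
  ((List.range H).flatMap (fun j => Kl.flatMap (fun k =>
    if k = i then inic Kl tpl i j
    else unitc (vV Kl 0 k j) false ++ unitc (vB Kl 0 k j) false)) ++
  (unitc (vV Kl T o 0) true ++ unitc (vB Kl T o 0) true)))

/-- The valuation `v` describes the configuration `c` at time `t`. -/
def Rep (Kl : List K) (p : Prog K) (H : ℕ) (v : Nm → Bool) (t : ℕ)
    (c : List (Prog K) × Mem K) : Prop :=
  v (vX p t c.1) = true ∧ ∀ k, ∀ j < H, v (vV Kl t k j) = decide (j < (c.2 k).length) ∧
    v (vB Kl t k j) = (c.2 k).getD j false

theorem getD_tail (l : List Bool) (j : ℕ) : l.tail.getD j false = l.getD (j + 1) false := by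
  cases l <;> simp

/-- The change of the cells is described by the formula. -/
theorem cellc_ok {Kl : List K} {x : Nm} {H : ℕ} {a : Option (K × Option Bool)} {t : ℕ}
    {v : Nm → Bool} {S : Mem K} (hx : v x = true) (hS : ∀ k, (S k).length ≤ H)
    (h : ∀ k, ∀ j < H, v (vV Kl t k j) = decide (j < (S k).length) ∧
      v (vB Kl t k j) = (S k).getD j false) {k : K} {j : ℕ} (hj : j < H) :
    SatBy v (cellc Kl x H a t k j) ↔
      v (vV Kl (t + 1) k j) = decide (j < (app a S k).length) ∧
      v (vB Kl (t + 1) k j) = (app a S k).getD j false := by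
  have hkeep : SatBy v (keepc Kl x t k j) ↔
      v (vV Kl (t + 1) k j) = decide (j < (S k).length) ∧
      v (vB Kl (t + 1) k j) = (S k).getD j false := by
    unfold keepc
    rw [satBy_append, satBy_eqc, satBy_eqc, (h k j hj).1, (h k j hj).2]
    simp [hx, eq_comm]
  rcases a with _ | ⟨k', _ | b⟩
  · exact hkeep
  · simp only [cellc]
    by_cases e : k' = k
    · subst e
      have happ : app (some (k', none)) S k' = (S k').tail := update_self _ _ _
      rw [if_pos rfl, happ]
      unfold popc
      by_cases hj' : j + 1 < H
      · rw [if_pos hj', satBy_append, satBy_eqc, satBy_eqc, (h k' _ hj').1, (h k' _ hj').2,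
          getD_tail, List.length_tail]
        simp only [hx, forall_const, eq_comm]
        have : j < (S k').length - 1 ↔ j + 1 < (S k').length := by omega
        simp only [this]
      · rw [if_neg hj', satBy_append, satBy_setc, satBy_setc]
        have h1 : ¬ j < (S k').tail.length := by
          have := hS k'
          rw [List.length_tail]; omega
        have h2 : (S k').tail.getD j false = false := by
          rw [List.getD_eq_default]
          omega
        simp only [hx, forall_const, h1, decide_false, h2]
    · have happ : app (some (k', none)) S k = S k := update_of_ne (Ne.symm e) _ _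
      rw [if_neg e, happ]
      exact hkeep
  · simp only [cellc]
    by_cases e : k' = k
    · subst e
      have happ : app (some (k', some b)) S k' = b :: S k' := update_self _ _ _
      rw [if_pos rfl, happ]
      unfold pushc
      by_cases hj' : j = 0
      · subst hj'
        rw [if_pos rfl, satBy_append, satBy_setc, satBy_setc]
        simp [hx]
      · obtain ⟨j, rfl⟩ : ∃ i, j = i + 1 := ⟨j - 1, by omega⟩
        rw [if_neg hj', satBy_append, satBy_eqc, satBy_eqc, Nat.add_sub_cancel,
          (h k' _ (by omega)).1, (h k' _ (by omega)).2]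
        simp [hx, eq_comm]
    · have happ : app (some (k', some b)) S k = S k := update_of_ne (Ne.symm e) _ _
      rw [if_neg e, happ]
      exact hkeep

theorem satBy_nil {ν : Type} {v : ν → Bool} : SatBy v ([] : List (List (Bool × ν))) := by
  simp [SatBy]

theorem satBy_cons {ν : Type} {v : ν → Bool} {c : List (Bool × ν)}
    {φ : List (List (Bool × ν))} :
    SatBy v (c :: φ) ↔ (∃ l ∈ c, v l.2 = l.1) ∧ SatBy v φ := by
  simp only [SatBy, List.forall_mem_cons]

theorem sat_cl_cons {ν : Type} {v : ν → Bool} {a : ν} {b : Bool} {c : List (Bool × ν)} :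
    (∃ l ∈ (b, a) :: c, v l.2 = l.1) ↔ v a = b ∨ ∃ l ∈ c, v l.2 = l.1 := by
  rw [List.exists_mem_cons_iff]

theorem sat_cl_nil {ν : Type} {v : ν → Bool} :
    (∃ l ∈ ([] : List (Bool × ν)), v l.2 = l.1) ↔ False := by
  simp

theorem movec_ok {Kl : List K} {p : Prog K} {H : ℕ} {t : ℕ} {v : Nm → Bool}
    {c : List (Prog K) × Mem K} (hH : 0 < H) (h : Rep Kl p H v t c) :
    SatBy v (movec Kl p c.1 t) ↔ v (vX p (t + 1) (nxt (rd (act c.1) c.2) c.1)) = true := by
  unfold movec
  have hX := h.1
  rcases ha : act c.1 with _ | ⟨k, _ | b⟩
  · simp only [satBy_cons, sat_cl_cons, satBy_nil, sat_cl_nil, hX, rd]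
    simp
  · obtain ⟨h1, h2⟩ := h.2 k 0 hH
    simp only [rd]
    rcases hs : c.2 k with _ | ⟨b, l⟩
    · rw [hs] at h1 h2
      simp at h1 h2
      simp only [satBy_cons, sat_cl_cons, satBy_nil, sat_cl_nil, hX, h1, h2]
      simp
    · rw [hs] at h1 h2
      simp at h1 h2
      cases b <;> simp only [satBy_cons, sat_cl_cons, satBy_nil, sat_cl_nil, hX, h1, h2] <;> simp
  · simp only [satBy_cons, sat_cl_cons, satBy_nil, sat_cl_nil, hX, rd]
    simp

/-- The template matches a string. -/
def Match (tpl : List (Option Bool)) (z : List Bool) : Prop :=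
  z.length = tpl.length ∧ ∀ j b, tpl[j]? = some (some b) → z.getD j false = b

/-- From a satisfying valuation to an accepting run. -/
theorem tab_sound {Kl : List K} (hKl : ∀ k, k ∈ Kl) {p : Prog K} {i o : K} {T H : ℕ}
    {tpl : List (Option Bool)} (hH : tpl.length + T < H) {v : Nm → Bool}
    (h : SatBy v (tab Kl p i o T H tpl)) :
    ∃ z, Match tpl z ∧ ((sstep^[T] ([p], single i z)).2 o).head? = some true := by
  unfold tab at h
  rw [satBy_append, satBy_append, satBy_append, satBy_append, satBy_unitc, satBy_flatMap,
    satBy_flatMap, satBy_unitc, satBy_unitc] at h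
  obtain ⟨h0, h1, h2, h3, h4⟩ := h
  have h2' : ∀ j < H, ∀ k, SatBy v (if k = i then inic Kl tpl i j
    else unitc (vV Kl 0 k j) false ++ unitc (vB Kl 0 k j) false) := fun j hj k =>
    satBy_flatMap.1 (h2 j (List.mem_range.2 hj)) k (hKl k)
  let z : List Bool := (List.range tpl.length).map (fun j => v (vB Kl 0 i j))
  have hz : z.length = tpl.length := by simp [z]
  have hzj : ∀ j < tpl.length, z.getD j false = v (vB Kl 0 i j) := by
    intro j hj
    rw [List.getD_eq_getElem _ _ (by rw [hz]; exact hj)]
    simp [z]
  have hm : Match tpl z := by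
    refine ⟨hz, fun j b hb => ?_⟩
    have hj : j < tpl.length := by
      by_contra hcon
      rw [List.getElem?_eq_none (by omega)] at hb
      cases hb
    have h5 := h2' j (by omega) i
    rw [if_pos rfl] at h5
    unfold inic at h5
    rw [hb] at h5
    simp only [satBy_append, satBy_unitc] at h5
    rw [hzj j hj, h5.2]
  have hrep0 : Rep Kl p H v 0 ([p], single i z) := by
    refine ⟨h0, fun k j hj => ?_⟩
    have h5 := h2' j hj k
    by_cases hk : k = i
    · subst hk
      rw [if_pos rfl] at h5
      unfold inic at h5
      simp only [single, update_self]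
      cases hb : tpl[j]? with
      | none =>
        rw [hb] at h5
        simp only [satBy_append, satBy_unitc] at h5
        have hj' : tpl.length ≤ j := List.getElem?_eq_none_iff.1 hb
        rw [h5.1, h5.2, List.getD_eq_default _ _ (by omega)]
        simp; omega
      | some ob =>
        have hj' : j < tpl.length := by
          by_contra hcon
          rw [List.getElem?_eq_none (by omega)] at hb
          cases hb
        rw [hzj j hj', hz]
        rw [hb] at h5
        cases ob with
        | none =>
          simp only [satBy_unitc] at h5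
          simp [h5, hj']
        | some b =>
          simp only [satBy_append, satBy_unitc] at h5
          simp [h5, hj']
    · rw [if_neg hk, satBy_append, satBy_unitc, satBy_unitc] at h5
      simp [single, hk, h5]
  have hrep : ∀ t ≤ T, Rep Kl p H v t (sstep^[t] ([p], single i z)) := by
    intro t
    induction t with
    | zero => intro _; exact hrep0
    | succ t ih =>
      intro ht
      have ih := ih (by omega)
      rw [iterate_succ_apply']
      have hc := run_mem_allc (p := p) (S := single i z) t
      have hlen : ∀ k, ((sstep^[t] ([p], single i z)).2 k).length ≤ H := by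
        intro k
        have h5 := length_run (c := ([p], single i z)) t k
        have h6 : (single i z k).length ≤ tpl.length := by
          unfold single
          by_cases hk : k = i
          · subst hk; rw [update_self]; omega
          · rw [update_of_ne hk]; simp
        simp only at h5
        omega
      have h5 := satBy_flatMap.1 (h1 t (List.mem_range.2 (by omega))) _ hc
      rw [satBy_append] at h5
      refine ⟨(movec_ok (by omega) ih).1 h5.1, fun k j hj => ?_⟩
      have h6 := satBy_flatMap.1 (satBy_flatMap.1 h5.2 k (hKl k)) j (List.mem_range.2 hj)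
      exact (cellc_ok ih.1 hlen ih.2 hj).1 h6
  refine ⟨z, hm, ?_⟩
  obtain ⟨h5, h6⟩ := (hrep T (le_refl _)).2 o 0 (by omega)
  rw [h3] at h5
  rw [h4] at h6
  generalize (sstep^[T] ([p], single i z)).2 o = l at h5 h6
  cases l with
  | nil => simp at h5
  | cons b l => simp at h6; simp [← h6]

open Classical in
/-- The valuation of a run. -/
noncomputable def runv (Kl : List K) (p : Prog K) (cfg : ℕ → List (Prog K) × Mem K) (n : Nm) :
    Bool :=
  if n.1 = 0 then decide ((allc p).idxOf (cfg n.2.1).1 = n.2.2.1)
  else match Kl[n.2.2.1]? with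
    | none => false
    | some k => if n.1 = 1 then decide (n.2.2.2 < ((cfg n.2.1).2 k).length)
      else ((cfg n.2.1).2 k).getD n.2.2.2 false

theorem getElem?_idxOf' {Kl : List K} {k : K} (h : k ∈ Kl) : Kl[Kl.idxOf k]? = some k := by
  rw [List.getElem?_eq_getElem (List.idxOf_lt_length_iff.2 h), List.getElem_idxOf]

theorem runv_X {Kl : List K} {p : Prog K} {cfg : ℕ → List (Prog K) × Mem K} {t : ℕ}
    {κ : List (Prog K)} (h : (cfg t).1 ∈ allc p) :
    runv Kl p cfg (vX p t κ) = true ↔ (cfg t).1 = κ := by
  classical
  unfold runv vX
  simp only [if_true, decide_eq_true_eq]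
  exact List.idxOf_inj h

theorem runv_V {Kl : List K} (hKl : ∀ k, k ∈ Kl) {p : Prog K}
    {cfg : ℕ → List (Prog K) × Mem K} {t : ℕ} {k : K} {j : ℕ} :
    runv Kl p cfg (vV Kl t k j) = decide (j < ((cfg t).2 k).length) := by
  unfold runv vV
  simp [getElem?_idxOf' (hKl k)]

theorem runv_B {Kl : List K} (hKl : ∀ k, k ∈ Kl) {p : Prog K}
    {cfg : ℕ → List (Prog K) × Mem K} {t : ℕ} {k : K} {j : ℕ} :
    runv Kl p cfg (vB Kl t k j) = ((cfg t).2 k).getD j false := by
  unfold runv vB
  simp [getElem?_idxOf' (hKl k)]

/-- From an accepting run to a satisfying valuation. -/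
theorem tab_complete {Kl : List K} (hKl : ∀ k, k ∈ Kl) {p : Prog K} {i o : K} {T H : ℕ}
    {tpl : List (Option Bool)} (hH : tpl.length + T < H) {z : List Bool} (hz : Match tpl z)
    (hacc : ((sstep^[T] ([p], single i z)).2 o).head? = some true) :
    Satisf (tab Kl p i o T H tpl) := by
  let cfg : ℕ → List (Prog K) × Mem K := fun t => sstep^[t] ([p], single i z)
  have hmem : ∀ t, (cfg t).1 ∈ allc p := fun t => run_mem_allc t
  refine ⟨runv Kl p cfg, ?_⟩
  have hrep : ∀ t, Rep Kl p H (runv Kl p cfg) t (cfg t) := fun t =>
    ⟨(runv_X (hmem t)).2 rfl, fun k j _ => ⟨runv_V hKl, runv_B hKl⟩⟩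
  unfold tab
  rw [satBy_append, satBy_append, satBy_append, satBy_append, satBy_unitc, satBy_flatMap,
    satBy_flatMap, satBy_unitc, satBy_unitc]
  refine ⟨(runv_X (hmem 0)).2 rfl, ?_, ?_, ?_, ?_⟩
  · intro t ht
    rw [satBy_flatMap]
    intro κ hκ
    by_cases hc : (cfg t).1 = κ
    · subst hc
      have hlen : ∀ k, ((cfg t).2 k).length ≤ H := by
        intro k
        have h5 := length_run (c := ([p], single i z)) t k
        have h6 : (single i z k).length ≤ tpl.length := by
          have := hz.1
          unfold single
          by_cases hk : k = i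
          · subst hk; rw [update_self]; omega
          · rw [update_of_ne hk]; simp
        have h7 := List.mem_range.1 ht
        simp only at h5
        show ((sstep^[t] ([p], single i z)).2 k).length ≤ H
        omega
      have hnext : cfg (t + 1) = sstep (cfg t) := iterate_succ_apply' _ _ _
      rw [satBy_append]
      refine ⟨(movec_ok (by omega) (hrep t)).2 ?_, ?_⟩
      · rw [runv_X (hmem (t + 1)), hnext]
        rfl
      · rw [satBy_flatMap]
        intro k _
        rw [satBy_flatMap]
        intro j hj
        refine (cellc_ok (hrep t).1 hlen (hrep t).2 (List.mem_range.1 hj)).2 ?_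
        rw [runv_V hKl, runv_B hKl, hnext]
        exact ⟨rfl, rfl⟩
    · have hX : runv Kl p cfg (vX p t κ) = false := by
        rw [← Bool.not_eq_true, runv_X (hmem t)]
        exact hc
      rw [satBy_append]
      constructor
      · unfold movec
        intro c hc
        refine ⟨(false, vX p t κ), ?_, hX⟩
        rcases ha : act κ with _ | ⟨k, _ | b⟩ <;> rw [ha] at hc <;> simp at hc
        · subst hc; simp
        · rcases hc with rfl | rfl | rfl <;> simp
        · subst hc; simp
      · rw [satBy_flatMap]
        intro k _
        rw [satBy_flatMap]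
        intro j _
        have hk : SatBy (runv Kl p cfg) (keepc Kl (vX p t κ) t k j) := by
          unfold keepc
          rw [satBy_append, satBy_eqc, satBy_eqc, hX]
          simp
        rcases act κ with _ | ⟨k', _ | b⟩
        · exact hk
        · simp only [cellc]
          split_ifs
          · unfold popc
            split_ifs
            · rw [satBy_append, satBy_eqc, satBy_eqc, hX]; simp
            · rw [satBy_append, satBy_setc, satBy_setc, hX]; simp
          · exact hk
        · simp only [cellc]
          split_ifs
          · unfold pushc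
            split_ifs
            · rw [satBy_append, satBy_setc, satBy_setc, hX]; simp
            · rw [satBy_append, satBy_eqc, satBy_eqc, hX]; simp
          · exact hk
  · intro j hj
    rw [satBy_flatMap]
    intro k _
    have hcfg0 : (cfg 0).2 = single i z := rfl
    by_cases hk : k = i
    · subst hk
      rw [if_pos rfl]
      unfold inic
      cases hb : tpl[j]? with
      | none =>
        have hj' : tpl.length ≤ j := List.getElem?_eq_none_iff.1 hb
        have := hz.1
        simp only [satBy_append, satBy_unitc]
        rw [runv_V hKl, runv_B hKl, hcfg0]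
        simp only [single, update_self]
        rw [List.getD_eq_default _ _ (by omega)]
        simp; omega
      | some ob =>
        have hj' : j < tpl.length := by
          by_contra hcon
          rw [List.getElem?_eq_none (by omega)] at hb
          cases hb
        have := hz.1
        cases ob with
        | none =>
          simp only [satBy_unitc]
          rw [runv_V hKl, hcfg0]
          simp only [single, update_self, decide_eq_true_eq]
          omega
        | some b =>
          simp only [satBy_append, satBy_unitc]
          rw [runv_V hKl, runv_B hKl, hcfg0]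
          simp only [single, update_self, decide_eq_true_eq]
          exact ⟨by omega, hz.2 j b hb⟩
    · rw [if_neg hk, satBy_append, satBy_unitc, satBy_unitc, runv_V hKl, runv_B hKl, hcfg0]
      simp [single, hk]
  · rw [runv_V hKl]
    change ((cfg T).2 o).head? = some true at hacc
    generalize (cfg T).2 o = l at hacc
    cases l with
    | nil => simp at hacc
    | cons b l => simp
  · rw [runv_B hKl]
    change ((cfg T).2 o).head? = some true at hacc
    generalize (cfg T).2 o = l at hacc
    cases l with
    | nil => simp at hacc
    | cons b l => simp at hacc; simp [hacc]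

end tableau

end Pool.Agent.PT
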