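import Pool.Agent.Work.PT.Auto
import Pool.Agent.Work.PT.Bridge
import Pool.Prelude.Def_H_3587d628

/-!
# Polynomial-time functions and the bit encodings of the frozen definitions

* `EncP α`: the bit encoding of `α` is a polynomial-time function of the object;
* `tm2_of`: Mathlib machines for functions between types with arbitrary bit encodings;
* `PTF.isPolyTime`: a polynomial-time function on bit strings is `IsPolyTime`.
-/

set_option autoImplicit false

namespace Pool.Agent.PT

open Function Turing N487b59b3

/-- The bit encoding is a polynomial-time function. -/
def EncP (α : Type) [Enc α] [N487b59b3 α] : Prop := PTF (fun a : α => bitEncode a)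

theorem delimit_eq (l : List Bool) :
    delimit l = l.flatMap (fun b => [true, b]) ++ [false] := by
  induction l with
  | nil => rfl
  | cons b l ih => simp [delimit, ih]

@[fun_prop]
theorem PTF.delimit {α : Type} [Enc α] {f : α → List Bool} (hf : PTF f) :
    PTF (fun a => N487b59b3.delimit (f a)) := by
  simp only [delimit_eq]
  fun_prop

/-- Adding one to a binary number, least significant bit first. -/
def binSucc (l : List Bool) : List Bool :=
  List.replicate (l.idxOf false) false ++ (true :: l.drop (l.idxOf false + 1))

theorem encodePosNum_succ (p : PosNum) :
    Computability.encodePosNum (PosNum.succ p) = binSucc (Computability.encodePosNum p) := by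
  induction p with
  | one => rfl
  | bit0 p ih =>
    show true :: Computability.encodePosNum p = binSucc (false :: Computability.encodePosNum p)
    simp [binSucc]
  | bit1 p ih =>
    show false :: Computability.encodePosNum (PosNum.succ p) =
      binSucc (true :: Computability.encodePosNum p)
    rw [ih]
    have h : (true :: Computability.encodePosNum p).idxOf false =
        (Computability.encodePosNum p).idxOf false + 1 :=
      List.idxOf_cons_ne _ (by decide)
    simp [binSucc, h, List.replicate_succ]

theorem encodeNat_succ (n : ℕ) :
    Computability.encodeNat (n + 1) = binSucc (Computability.encodeNat n) := by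
  unfold Computability.encodeNat
  rw [Nat.cast_succ, Num.add_one]
  cases (n : Num) with
  | zero => rfl
  | pos p => exact encodePosNum_succ p

theorem encodeNat_iterate (n : ℕ) : Computability.encodeNat n = binSucc^[n] [] := by
  induction n with
  | zero => rfl
  | succ n ih => rw [iterate_succ_apply', ← ih, encodeNat_succ]

theorem length_binSucc (l : List Bool) : (binSucc l).length ≤ l.length + 1 := by
  unfold binSucc
  have := List.idxOf_le_length (a := false) (l := l)
  simp only [List.length_append, List.length_replicate, List.length_cons, List.length_drop]
  omega

theorem sz_bits_le (l : List Bool) : sz l ≤ 4 * l.length + 1 := by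
  induction l with
  | nil => simp [sz_nil]
  | cons b x ih =>
    rw [sz_cons]
    have := sz_bool b
    simp only [List.length_cons]
    omega

theorem EncP.nat : EncP ℕ := by
  have hs : PTF (fun p : ℕ × List Bool => binSucc p.2) := by
    unfold binSucc
    fun_prop
  have h := PTF.nat_iterate (n := fun n : ℕ => n) (init := fun _ => ([] : List Bool))
    (step := fun p : ℕ × List Bool => binSucc p.2) PTF.id (PTF.const _) hs
    (fun n => 4 * sz n + 1) (((PB.const 4).mul PB.sz).add (PB.const 1)) (fun n i hi => by
      have key : ∀ i, ((fun s => binSucc s)^[i] ([] : List Bool)).length ≤ i := by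
        intro i
        induction i with
        | zero => simp
        | succ i ih =>
          rw [iterate_succ_apply']
          exact (length_binSucc _).trans (by omega)
      have h1 := key i
      have h2 := sz_bits_le ((fun s => binSucc s)^[i] ([] : List Bool))
      have h3 := sz_nat n
      dsimp only at h2 ⊢
      omega)
  exact h.congr (fun n => (encodeNat_iterate n).symm)

theorem EncP.bool : EncP Bool := by
  show PTF (fun b : Bool => [b])
  fun_prop

theorem EncP.prod {α β : Type} [Enc α] [Enc β] [N487b59b3 α] [N487b59b3 β] (ha : EncP α)
    (hb : EncP β) : EncP (α × β) := by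
  have h1 : PTF (fun p : α × β => bitEncode p.1) := ha.comp PTF.fst
  have h2 : PTF (fun p : α × β => bitEncode p.2) := hb.comp PTF.snd
  exact (PTF.delimit h1).append h2

theorem EncP.list {α : Type} [Enc α] [N487b59b3 α] (ha : EncP α) : EncP (List α) := by
  have h1 : PTF (fun l : List α => ((l.map bitEncode).map N487b59b3.delimit).flatten) := by
    have h2 : PTF (fun p : List α × α => bitEncode p.2) := ha.comp PTF.snd
    have h3 : PTF (fun l : List α => l.map bitEncode) := PTF.map PTF.id h2
    have h4 : PTF (fun l : List α => (l.map bitEncode).map N487b59b3.delimit) :=
      PTF.map (g := fun p : List α × List Bool => N487b59b3.delimit p.2) h3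
        (PTF.delimit PTF.snd)
    exact h4.flatten
  exact h1

theorem EncP.apply {α β : Type} [Enc α] [Enc β] [N487b59b3 α] (ha : EncP α) {f : β → α}
    (hf : PTF f) : PTF (fun b => bitEncode (f b)) := ha.comp hf

/-- Decoding of the bit encoding of a bit string. -/
def decBits (x : List Bool) : List Bool :=
  (List.range (x.length / 3)).map (fun i => x.getD (3 * i + 1) false)

theorem PTF.decBits {α : Type} [Enc α] {f : α → List Bool} (hf : PTF f) :
    PTF (fun a => decBits (f a)) := by
  have : PTF (fun x : List Bool => PT.decBits x) := by
    unfold PT.decBits
    fun_prop
  exact this.comp hf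

theorem bitEncode_bits (l : List Bool) :
    bitEncode l = l.flatMap (fun b => [true, b, false]) := by
  show ((l.map (fun b : Bool => [b])).map N487b59b3.delimit).flatten = _
  induction l with
  | nil => rfl
  | cons b l ih =>
    rw [List.map_cons, List.map_cons, List.flatten_cons, ih, List.flatMap_cons]
    rfl

theorem length_bitEncode_bits (l : List Bool) : (bitEncode l).length = 3 * l.length := by
  rw [bitEncode_bits]
  induction l with
  | nil => rfl
  | cons b l ih =>
    rw [List.flatMap_cons, List.length_append, ih]
    simp only [List.length_cons, List.length_nil]
    omega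

theorem getD_bits (l : List Bool) (i : ℕ) :
    (l.flatMap (fun b => [true, b, false])).getD (3 * i + 1) false = l.getD i false := by
  induction l generalizing i with
  | nil => rfl
  | cons b l ih =>
    cases i with
    | zero => rfl
    | succ i =>
      rw [List.flatMap_cons, List.getD_cons_succ, ← ih i]
      have e : 3 * (i + 1) + 1 = 3 * i + 1 + 1 + 1 + 1 := by ring
      rw [e]
      rfl

theorem decBits_bitEncode (l : List Bool) : decBits (bitEncode l) = l := by
  have e1 : (bitEncode l).length / 3 = l.length := by
    rw [length_bitEncode_bits]; omega
  unfold decBits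
  rw [e1, bitEncode_bits]
  refine List.ext_getElem (by simp) fun i h1 h2 => ?_
  rw [List.getElem_map, List.getElem_range, getD_bits, List.getD_eq_getElem _ _ h2]

/-- Machines for functions with arbitrary bit encodings. -/
theorem tm2_of {α β : Type} {ea : α → List Bool} {eb : β → List Bool} {f : α → β}
    {g : List Bool → List Bool} (hg : PTF g) (h : ∀ a, g (ea a) = eb (f a)) :
    Nonempty (TM2ComputableInPolyTime ea eb f) := by
  obtain ⟨M⟩ := hg.tm2_raw
  refine ⟨{ M.toTM2ComputableAux with
    time := M.time
    outputsFun := fun a => ?_ }⟩
  have h1 := M.outputsFun (ea a)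
  rw [← h a]
  exact h1

/-- A polynomial-time function on bit strings is computed in polynomial time by a Mathlib
machine for the frozen bit encodings. -/
theorem PTF.isPolyTimeWith {β : Type} {f : List Bool → β} {eb : β → List Bool}
    (h : PTF (fun x => eb (f x))) :
    Nonempty (TM2ComputableInPolyTime (fun x : List Bool => bitEncode x) eb f) := by
  refine tm2_of (g := fun x => eb (f (PT.decBits x))) (h.comp (PTF.decBits PTF.id)) fun a => ?_
  rw [decBits_bitEncode]

theorem PTF.isPolyTime {β : Type} [Enc β] [N487b59b3 β] {f : List Bool → β} (hf : PTF f)
    (he : EncP β) : N68a2faeb.IsPolyTime f :=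
  PTF.isPolyTimeWith (eb := fun b => bitEncode b) (he.apply hf)

end Pool.Agent.PT
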