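import Pool.Agent.Work.PT.Auto

/-!
# Serialisation of trees into bit strings and back, in polynomial time
-/

set_option autoImplicit false

namespace Pool.Agent.PT

open Function

theorem PTF.Dhd : PTF (fun t : D => t.hd) := PTF.of_hd (fun _ => rfl)
theorem PTF.Dtl : PTF (fun t : D => t.tl) := PTF.of_tl (fun _ => rfl)

section
variable {α : Type} [Enc α]

@[fun_prop]
theorem PTF.Dhd' {f : α → D} (hf : PTF f) : PTF (fun a => (f a).hd) := PTF.Dhd.comp hf

@[fun_prop]
theorem PTF.Dtl' {f : α → D} (hf : PTF f) : PTF (fun a => (f a).tl) := PTF.Dtl.comp hf

@[fun_prop]
theorem PTF.Dcons {f g : α → D} (hf : PTF f) (hg : PTF g) : PTF (fun a => D.cons (f a) (g a)) :=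
  (hf.pair hg).recode (fun _ => rfl)

/-- The code of an object, as an object itself. -/
@[fun_prop]
theorem PTF.code {β : Type} [Enc β] {f : α → β} (hf : PTF f) : PTF (fun a => (Enc.enc (f a) : D)) :=
  hf.recode (fun _ => rfl)

end

theorem sz_D (t : D) : sz t = t.size := rfl

/-! ### Serialisation -/

/-- One step of the serialisation: a stack of trees and the output. -/
def serStep (s : List D × List Bool) : List D × List Bool :=
  if s.1.isEmpty then s else
    if s.1.headD .nil = .nil then (s.1.tail, false :: s.2)
    else ((s.1.headD .nil).hd :: (s.1.headD .nil).tl :: s.1.tail, true :: s.2)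

theorem serStep_iterate (t : D) : ∀ (s : List D) (out : List Bool),
    serStep^[t.size] (t :: s, out) = (s, t.enc.reverse ++ out) := by
  induction t with
  | nil => intro s out; simp [D.size, D.nodes, serStep, D.enc]
  | cons a b iha ihb =>
    intro s out
    have e : (D.cons a b).size = b.size + (a.size + 1) := by rw [D.size_cons]; omega
    have e1 : serStep (D.cons a b :: s, out) = (a :: b :: s, true :: out) := by
      simp [serStep]
    rw [e, iterate_add_apply, iterate_succ_apply, e1, iha, ihb]
    simp [D.enc]

theorem ptf_enc : PTF (fun t : D => t.enc) := by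
  have hs : PTF serStep := by
    unfold serStep
    fun_prop
  have hstep : ∀ s, sz (serStep s) ≤ sz s + 4 := by
    rintro ⟨l, out⟩
    unfold serStep
    cases l with
    | nil => simp
    | cons t l =>
      cases t with
      | nil =>
        simp only [List.isEmpty_cons, Bool.false_eq_true, if_false, List.headD_cons, if_true,
          List.tail_cons]
        rw [sz_pair, sz_pair, sz_cons, sz_cons]
        have := sz_bool false
        omega
      | cons a b =>
        simp only [List.isEmpty_cons, Bool.false_eq_true, if_false, List.headD_cons,
          reduceCtorEq, List.tail_cons, D.hd_cons, D.tl_cons]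
        rw [sz_pair, sz_pair, sz_cons, sz_cons, sz_cons, sz_cons]
        have h1 := sz_bool true
        have h2 : sz (D.cons a b) = sz a + sz b + 1 := D.size_cons a b
        omega
  have h := PTF.iterate (c := fun t : D => (t, t)) (init := fun t : D => ([t], ([] : List Bool)))
    (step := fun p : D × (List D × List Bool) => serStep p.2) (by fun_prop) (by fun_prop)
    (by fun_prop) (fun t => sz t + 4 + 4 * (2 * sz t))
    ((PB.sz.add (PB.const 4)).add ((PB.const 4).mul ((PB.const 2).mul PB.sz)))
    (fun t i hi => by
      have key : ∀ j, sz ((fun s => serStep s)^[j] ([t], ([] : List Bool))) ≤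
          sz t + 4 + 4 * j := by
        intro j
        induction j with
        | zero =>
          simp only [iterate_zero, id_eq]
          rw [sz_pair, sz_cons, sz_nil, sz_nil]
        | succ j ih =>
          rw [iterate_succ_apply']
          have := hstep ((fun s => serStep s)^[j] ([t], ([] : List Bool)))
          omega
      refine (key i).trans ?_
      have h1 : i ≤ 2 * t.nodes + 1 := by
        refine hi.trans (le_of_eq ?_)
        show (D.cons t t).nodes = _
        simp [D.nodes]; omega
      have h2 : sz t = 2 * t.nodes + 1 := rfl
      omega)
  refine ((PTF.snd.comp h).reverse).congr (fun t => ?_)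
  have h1 : (Enc.enc (t, t)).nodes = t.size := by
    show (D.cons t t).nodes = _
    simp [D.nodes, D.size]; omega
  show ((fun s => serStep s)^[(Enc.enc (t, t)).nodes] ([t], ([] : List Bool))).2.reverse = _
  rw [h1]
  have := serStep_iterate t [] []
  change (fun s => serStep s)^[t.size] ([t], ([] : List Bool)) = _ at this
  rw [this]
  simp

/-- Serialisation of any object. -/
theorem ptf_ser {α β : Type} [Enc α] [Enc β] {f : α → β} (hf : PTF f) :
    PTF (fun a => (Enc.enc (f a)).enc) := ptf_enc.comp hf.code

/-! ### Parsing -/

/-- One step of parsing from the right: a stack of trees. -/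
def parseStep (b : Bool) (s : List D) : List D :=
  if b then (D.cons (s.headD .nil) (s.tail.headD .nil)) :: s.tail.tail else D.nil :: s

/-- Parsing a bit string. -/
def parse (l : List Bool) : D := (l.foldr parseStep []).headD .nil

theorem foldr_parseStep (t : D) : ∀ (l : List Bool) (s : List D),
    (t.enc ++ l).foldr parseStep s = t :: l.foldr parseStep s := by
  induction t with
  | nil => intro l s; simp [D.enc, parseStep]
  | cons a b iha ihb =>
    intro l s
    rw [D.enc, List.cons_append, List.foldr_cons, List.append_assoc, iha, ihb]
    simp [parseStep]

theorem parse_enc (t : D) : parse t.enc = t := by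
  have := foldr_parseStep t [] []
  rw [List.append_nil] at this
  rw [parse, this]
  rfl

theorem ptf_parse : PTF parse := by
  have h := PTF.foldl_add (l := fun l : List Bool => l.reverse)
    (init := fun _ => ([] : List D)) (step := fun p : List Bool × (List D × Bool) =>
      parseStep p.2.2 p.2.1) (by fun_prop) (by fun_prop) (by unfold parseStep; fun_prop)
    (fun _ => 4) (PB.const 4) (fun a s b _ => by
      show sz (parseStep b s) ≤ sz s + 4
      unfold parseStep
      split_ifs with hb
      · cases s with
        | nil => decide
        | cons x s =>
          cases s with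
          | nil =>
            simp only [List.headD_cons, List.tail_cons, List.headD_nil, List.tail_nil]
            rw [sz_cons, sz_cons, sz_nil]
            have h2 : sz (D.cons x D.nil) = sz x + sz D.nil + 1 := D.size_cons x D.nil
            have h3 : sz D.nil = 1 := rfl
            omega
          | cons y s =>
            simp only [List.headD_cons, List.tail_cons]
            rw [sz_cons, sz_cons, sz_cons]
            have h2 : sz (D.cons x y) = sz x + sz y + 1 := D.size_cons x y
            omega
      · rw [sz_cons]
        have h3 : sz D.nil = 1 := rfl
        omega)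
  refine (h.headD (PTF.const D.nil)).congr (fun l => ?_)
  rw [parse, ← List.foldl_reverse]

/-- The items of a tree considered as a list. -/
def D.toL : D → List D
  | .nil => []
  | .cons a b => a :: b.toL

theorem D.enc_toL (t : D) : Enc.enc t.toL = t := by
  induction t with
  | nil => rfl
  | cons a b _ ihb => rw [D.toL, enc_cons, ihb]; rfl

theorem D.toL_enc {α : Type} [Enc α] (l : List α) :
    (Enc.enc l : D).toL = l.map (fun a => Enc.enc a) := by
  induction l with
  | nil => rfl
  | cons a l ih => rw [enc_cons, D.toL, ih]; rfl

@[fun_prop]
theorem PTF.toL {α : Type} [Enc α] {f : α → D} (hf : PTF f) : PTF (fun a => (f a).toL) :=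
  (PTF.of_id (f := fun t : D => t.toL) (fun t => (D.enc_toL t).symm)).comp hf

end Pool.Agent.PT
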