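import Pool.Agent.Work.PT.Tableau
import Pool.Agent.Work.PT.Serial
import Pool.Agent.Work.MP_46935e_lc.Frozen

/-!
# The Cook-Levin theorem

`NPd.sat`: a predicate with polynomially bounded certificates checkable in polynomial time reduces
in polynomial time to the satisfiability of formulas in conjunctive normal form, with variables
named by (unary) natural numbers. `cookLevin`: the same for the frozen class `NP`.
-/

set_option autoImplicit false
set_option linter.unusedSectionVars false
set_option linter.unusedSimpArgs false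

namespace Pool.Agent.PT

open Function Pool.Agent.Work.MP_46935e_lc

/-! ### The tableau is computed in polynomial time -/

theorem PTF.flatMap_const {α β γ : Type} [Enc α] [Enc γ] (l : List β) {f : α → β → List γ}
    (h : ∀ b ∈ l, PTF (fun a => f a b)) : PTF (fun a => l.flatMap (f a)) := by
  induction l with
  | nil => exact (PTF.const []).congr fun a => by simp
  | cons b l ih =>
    refine ((h b (by simp)).append (ih fun c hc => h c (by simp [hc]))).congr fun a => ?_
    rw [List.flatMap_cons]

section ptf

variable {α : Type} [Enc α] {K : Type} [DecidableEq K]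

@[fun_prop]
theorem ptf_eqc {x a b : α → Nm} (hx : PTF x) (ha : PTF a) (hb : PTF b) :
    PTF (fun s => eqc (x s) (a s) (b s)) := by
  unfold eqc
  fun_prop

@[fun_prop]
theorem ptf_setc {x a : α → Nm} {c : α → Bool} (hx : PTF x) (ha : PTF a) (hc : PTF c) :
    PTF (fun s => setc (x s) (a s) (c s)) := by
  unfold setc
  fun_prop

@[fun_prop]
theorem ptf_unitc {a : α → Nm} {c : α → Bool} (ha : PTF a) (hc : PTF c) :
    PTF (fun s => unitc (a s) (c s)) := by
  unfold unitc
  fun_prop

@[fun_prop]
theorem ptf_vX {p : Prog K} {κ : List (Prog K)} {t : α → ℕ} (ht : PTF t) :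
    PTF (fun s => vX p (t s) κ) := by
  unfold vX
  exact (PTF.const 0).pair (ht.pair (PTF.const _))

@[fun_prop]
theorem ptf_vV {Kl : List K} {k : K} {t j : α → ℕ} (ht : PTF t) (hj : PTF j) :
    PTF (fun s => vV Kl (t s) k (j s)) := by
  unfold vV
  exact (PTF.const 1).pair (ht.pair ((PTF.const _).pair hj))

@[fun_prop]
theorem ptf_vB {Kl : List K} {k : K} {t j : α → ℕ} (ht : PTF t) (hj : PTF j) :
    PTF (fun s => vB Kl (t s) k (j s)) := by
  unfold vB
  exact (PTF.const 2).pair (ht.pair ((PTF.const _).pair hj))

theorem ptf_cellc {Kl : List K} {x : α → Nm} {H t j : α → ℕ} {k : K}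
    {a : Option (K × Option Bool)} (hx : PTF x) (hH : PTF H) (ht : PTF t) (hj : PTF j) :
    PTF (fun s => cellc Kl (x s) (H s) a (t s) k (j s)) := by
  have h1 : PTF (fun s => keepc Kl (x s) (t s) k (j s)) := by
    unfold keepc
    fun_prop
  rcases a with _ | ⟨k', _ | b⟩
  · exact h1
  · simp only [cellc]
    split_ifs
    · unfold popc
      fun_prop
    · exact h1
  · simp only [cellc]
    split_ifs
    · unfold pushc
      fun_prop
    · exact h1

theorem ptf_movec {Kl : List K} {p : Prog K} {κ : List (Prog K)} {t : α → ℕ} (ht : PTF t) :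
    PTF (fun s => movec Kl p κ (t s)) := by
  unfold movec
  rcases act κ with _ | ⟨k', _ | b⟩ <;> dsimp only <;> fun_prop

theorem ptf_inic {Kl : List K} {tpl : α → List (Option Bool)} {i : K} {j : α → ℕ}
    (htpl : PTF tpl) (hj : PTF j) : PTF (fun s => inic Kl (tpl s) i (j s)) := by
  unfold inic
  have h1 : PTF (fun s => (tpl s)[j s]?) := by fun_prop
  refine (PTF.option_case (o := fun s => (tpl s)[j s]?)
    (f := fun s => unitc (vV Kl 0 i (j s)) false ++ unitc (vB Kl 0 i (j s)) false)
    (g := fun q : α × Option Bool => unitc (vV Kl 0 i (j q.1)) true ++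
      (if q.2 = none then [] else unitc (vB Kl 0 i (j q.1)) (q.2.getD false))) h1
      (by fun_prop) (by fun_prop)).congr fun s => ?_
  rcases (tpl s)[j s]? with _ | _ | b <;> simp

theorem ptf_tab {Kl : List K} {p : Prog K} {i o : K} {T H : α → ℕ}
    {tpl : α → List (Option Bool)} (hT : PTF T) (hH : PTF H) (htpl : PTF tpl) :
    PTF (fun s => tab Kl p i o (T s) (H s) (tpl s)) := by
  unfold tab
  refine PTF.append (PTF.const _) (PTF.append ?_ (PTF.append ?_ ?_))
  · refine PTF.flatMap' ?_ (PTF.range hT)
    refine PTF.flatMap_const _ fun κ _ => ?_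
    refine PTF.append (ptf_movec PTF.snd) (PTF.flatMap_const _ fun k _ => ?_)
    refine PTF.flatMap' ?_ (by fun_prop)
    exact ptf_cellc (by fun_prop) (by fun_prop) (by fun_prop) (by fun_prop)
  · refine PTF.flatMap' ?_ (PTF.range hH)
    refine PTF.flatMap_const _ fun k _ => ?_
    split_ifs
    · exact ptf_inic (by fun_prop) (by fun_prop)
    · fun_prop
  · fun_prop

end ptf

/-! ### Renaming of variables -/

/-- Rename the variables. -/
def rename {ν ν' : Type} (f : ν → ν') (φ : List (List (Bool × ν))) : List (List (Bool × ν')) :=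
  φ.map (fun c => c.map (fun l => (l.1, f l.2)))

theorem satisf_rename {ν ν' : Type} {f : ν → ν'} (hf : Injective f)
    (φ : List (List (Bool × ν))) : Satisf (rename f φ) ↔ Satisf φ := by
  have h : ∀ v : ν' → Bool, SatBy v (rename f φ) ↔ SatBy (fun x => v (f x)) φ := by
    intro v
    unfold SatBy rename
    simp only [List.mem_map, forall_exists_index, and_imp, forall_apply_eq_imp_iff₂]
    refine forall₂_congr fun c _ => ?_
    constructor
    · rintro ⟨_, ⟨l, hl, rfl⟩, h⟩; exact ⟨l, hl, h⟩
    · rintro ⟨l, hl, h⟩; exact ⟨_, ⟨l, hl, rfl⟩, h⟩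
  constructor
  · rintro ⟨v, hv⟩; exact ⟨_, (h v).1 hv⟩
  · rintro ⟨v, hv⟩
    refine ⟨fun y => Function.extend f v (fun _ => false) y, (h _).2 ?_⟩
    have : (fun x => Function.extend f v (fun _ => false) (f x)) = v := by
      funext x; exact hf.extend_apply _ _ _
    rw [this]
    exact hv

/-- Number of a name. -/
def nmc (n : Nm) : ℕ := Nat.pair n.1 (Nat.pair n.2.1 (Nat.pair n.2.2.1 n.2.2.2))

theorem nmc_inj : Injective nmc := by
  rintro ⟨a, b, c, d⟩ ⟨a', b', c', d'⟩ h
  simp only [nmc, Nat.pair_eq_pair] at h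
  simp [h]

@[fun_prop]
theorem PTF.natPair {α : Type} [Enc α] {m n : α → ℕ} (hm : PTF m) (hn : PTF n) :
    PTF (fun a => Nat.pair (m a) (n a)) := by
  unfold Nat.pair
  fun_prop

@[fun_prop]
theorem ptf_rename {α : Type} [Enc α] {φ : α → List (List (Bool × Nm))} (h : PTF φ) :
    PTF (fun a => rename nmc (φ a)) := by
  unfold rename nmc
  fun_prop

/-! ### Programs on raw bit strings -/

theorem TimeF.raw_prog {f : List Bool → List Bool} {B : List Bool → ℕ} (h : TimeF f B) :
    ∃ (K : Type) (_ : Fintype K) (_ : DecidableEq K) (p : Prog K) (i o : K),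
      ∀ x, Runs p (single i x) (single o (f x)) (20 * B x + 100 * sz x + 100) := by
  obtain ⟨g, T, hg, h2, h3⟩ := h
  obtain ⟨K, i1, i2, p, i, o, hp⟩ := hg
  refine ⟨R ⊕ K, inferInstance, inferInstance, .seq (preP.map Sum.inl)
    (.seq (callA (fun k => k) p i o) (postP.map Sum.inl)), Sum.inl .a, Sum.inl .b, fun x => ?_⟩
  have h1 : Runs (.seq (preP.map Sum.inl) (.seq (callA (fun k => k) p i o)
    (postP.map Sum.inl))) (single (Sum.inl .a) x) (single (Sum.inl .b : R ⊕ K) (f x))
      (7 * x.length + 3 + (T (enc x) + 4 * (enc x).size + 4 * (enc (f x)).size + 4 +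
        (7 * (f x).length + 3))) := by
    rw [single_ma, single_mb]
    have k1 := (preP_runs x).reg (K := K)
    have k2 := callA_runs (K := K) (j := fun k => k) (fun _ _ h => h) (u := enc x)
      (v := enc (f x)) (p := p) (i := i) (o := o) (T := T (enc x))
      (by rw [← h2]; exact hp _) [] []
    have k3 := (postP_runs (f x)).reg (K := K)
    exact k1.seq (k2.seq k3)
  refine h1.mono ?_
  have h6 : sz (f x) ≤ sz x + B x :=
    TimeF.size_le ⟨g, T, ⟨K, i1, i2, p, i, o, hp⟩, h2, h3⟩ x
  have h7 := h3 x
  have h8 := length_le_sz x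
  have h9 := length_le_sz (f x)
  unfold sz at *
  have h10 : ∀ z : D, 1 ≤ z.size := D.size_pos
  have h11 : (f x).length ≤ (enc (f x)).nodes := length_le_nodes _
  have h12 : (enc (f x)).size = 2 * (enc (f x)).nodes + 1 := rfl
  omega

/-! ### Certificates of fixed length -/

/-- Remove the last `true` and what follows. -/
def strip (u : List Bool) : List Bool :=
  (u.reverse.drop (u.reverse.idxOf true + 1)).reverse

theorem length_strip (u : List Bool) : (strip u).length ≤ u.length - 1 := by
  unfold strip
  simp only [List.length_reverse, List.length_drop]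
  omega

theorem strip_pad (w : List Bool) (n : ℕ) : strip (w ++ true :: List.replicate n false) = w := by
  unfold strip
  have h : (w ++ true :: List.replicate n false).reverse =
      List.replicate n false ++ true :: w.reverse := by simp
  rw [h, List.idxOf_append_of_notMem (by simp), List.length_replicate, List.idxOf_cons_self]
  rw [List.drop_append]
  simp

@[fun_prop]
theorem ptf_strip {α : Type} [Enc α] {f : α → List Bool} (hf : PTF f) :
    PTF (fun a => strip (f a)) := by
  unfold strip
  fun_prop

/-- The raw input given by the code of `a` and a padded certificate. -/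
def rawz {α : Type} [Enc α] (a : α) (u : List Bool) : List Bool := dl (Enc.enc a).enc ++ u

/-- The tree read from a raw input. -/
def inner (z : List Bool) : D := D.cons (parse (dec2 z).1) (Enc.enc (strip (dec2 z).2))

theorem inner_rawz {α : Type} [Enc α] (a : α) (u : List Bool) :
    inner (rawz a u) = Enc.enc (a, strip u) := by
  unfold inner rawz
  rw [dec2_dl]
  simp only [parse_enc]
  rfl

theorem ptf_inner : PTF inner := by
  have h1 : PTF (fun z : List Bool => dec2 z) := ptf_dec2 PTF.id
  have h2 : PTF (fun z : List Bool => parse (dec2 z).1) := ptf_parse.comp h1.fst'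
  have h3 : PTF (fun z : List Bool => strip (dec2 z).2) := ptf_strip h1.snd'
  exact PTF.Dcons h2 h3.code

/-- The template of the raw inputs. -/
def rtpl {α : Type} [Enc α] (a : α) (m : ℕ) : List (Option Bool) :=
  (dl (Enc.enc a).enc).map some ++ List.replicate m none

theorem match_rtpl {α : Type} [Enc α] (a : α) (m : ℕ) (z : List Bool) :
    Match (rtpl a m) z ↔ ∃ u, u.length = m ∧ z = rawz a u := by
  unfold Match rtpl rawz
  constructor
  · rintro ⟨h1, h2⟩
    simp only [List.length_append, List.length_map, List.length_replicate] at h1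
    refine ⟨z.drop (dl (Enc.enc a).enc).length, by rw [List.length_drop]; omega, ?_⟩
    rw [← List.take_append_drop (dl (Enc.enc a).enc).length z]
    congr 1
    · refine List.ext_getElem (by rw [List.length_take]; omega) fun j h3 h4 => ?_
      rw [List.getElem_take]
      have h5 := h2 j ((dl (Enc.enc a).enc)[j]) (by
        rw [List.getElem?_append_left (by simpa using h4)]
        simp)
      rw [List.getD_eq_getElem _ _ (by omega)] at h5
      exact h5
    · rw [List.take_append_drop]
  · rintro ⟨u, h1, rfl⟩
    refine ⟨by simp [h1], fun j b hb => ?_⟩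
    by_cases hj : j < (dl (Enc.enc a).enc).length
    · rw [List.getElem?_append_left (by simpa using hj)] at hb
      rw [List.getD_append _ _ _ _ hj, List.getD_eq_getElem _ _ hj]
      rw [List.getElem?_map, List.getElem?_eq_getElem hj] at hb
      simpa using hb
    · rw [List.getElem?_append_right (by simpa using hj)] at hb
      rw [List.getElem?_replicate] at hb
      split_ifs at hb
      simp at hb

/-! ### The theorem -/

/-- Output of the final program. -/
def outp (t : D) : List Bool := if t = D.tt then [true] else [false]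

theorem ptf_outp : PTF outp := by
  unfold outp
  fun_prop

theorem PB.exists_ptf {α : Type} [Enc α] {B : α → ℕ} (h : PB B) :
    ∃ T : α → ℕ, PTF T ∧ ∀ a, B a ≤ T a := by
  obtain ⟨k, hk⟩ := h
  refine ⟨fun a => ((Enc.enc a).enc.length + 2) ^ k, ?_, fun a => ?_⟩
  · exact ptf_pow ((ptf_ser PTF.id).length.add (PTF.const 2)) k
  · dsimp only
    rw [D.length_enc]
    exact hk a

/-- **Cook-Levin**, with named variables. -/
theorem NPd.sat_aux {α : Type} [Enc α] {P : α → Prop} (h : NPd P) :
    ∃ f : α → List (List (Bool × Nm)), PTF f ∧ ∀ a, P a ↔ Satisf (f a) := by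
  obtain ⟨R, B, hR, hB, h3, h4⟩ := h
  obtain ⟨m, hm, hBm⟩ := hB.exists_ptf
  obtain ⟨BR, ⟨g, Tg, g1, g2, g3⟩, hBR⟩ := hR
  have hg : TimeF g Tg := ⟨g, Tg, g1, fun _ => rfl, fun _ => le_refl _⟩
  obtain ⟨Bi, i1, i2⟩ := ptf_inner
  obtain ⟨Bo, o1, o2⟩ := ptf_outp
  have hf := o1.comp (hg.comp i1)
  obtain ⟨K, inst1, inst2, p, i, o, hp⟩ := hf.raw_prog
  -- sizes
  have hmP : PB m := hm.size.mono (fun a => by rw [sz_nat]; omega)
  obtain ⟨ki, hki⟩ := i2
  obtain ⟨kR, hkR⟩ := hBR
  obtain ⟨ko, hko⟩ := o2
  let Z : α → ℕ := fun a => 4 * (2 * sz a + 1 + (m a + 1)) + 1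
  have hZ : PB Z := (((PB.const 4).mul ((((PB.const 2).mul PB.sz).add (PB.const 1)).add
    (hmP.add (PB.const 1)))).add (PB.const 1))
  let W : α → ℕ := fun a => sz a + (4 * m a + 1) + 1
  have hW : PB W := (PB.sz.add (((PB.const 4).mul hmP).add (PB.const 1))).add (PB.const 1)
  let BT : α → ℕ := fun a => 20 * ((((Z a + 2) ^ ki + (W a + 2) ^ kR + 4 * Z a + 8 * W a + 20 + 8) +
    5 ^ ko + 4 * Z a + 40 + 40 + 8)) + 100 * Z a + 100
  have hBT : PB BT := by
    refine PB.add (PB.add (PB.mul (PB.const 20) ?_) (PB.mul (PB.const 100) hZ)) (PB.const 100)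
    exact (((((((((((hZ.add (PB.const 2)).pow ki).add ((hW.add (PB.const 2)).pow kR)).add
      ((PB.const 4).mul hZ)).add ((PB.const 8).mul hW)).add (PB.const 20)).add (PB.const 8)).add
      (PB.const _)).add ((PB.const 4).mul hZ)).add (PB.const 40)).add (PB.const 40)).add
      (PB.const 8)
  have hbound : ∀ a (u : List Bool), u.length = m a + 1 →
      Runs p (single i (rawz a u)) (single o (outp (g (inner (rawz a u))))) (BT a) := by
    intro a u hu
    refine (hp (rawz a u)).mono ?_
    have e1 : inner (rawz a u) = Enc.enc (a, strip u) := inner_rawz a u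
    have hs := length_strip u
    have hz : sz (rawz a u) ≤ Z a := by
      have h5 := sz_bits (rawz a u)
      have h6 : (rawz a u).length = 2 * sz a + 1 + (m a + 1) := by
        unfold rawz
        rw [List.length_append, hu, dl, N487b59b3.length_delimit, D.length_enc]
        rfl
      rw [h6] at h5
      exact h5
    have hw : sz (inner (rawz a u)) ≤ W a := by
      rw [e1]
      show sz (a, strip u) ≤ _
      rw [sz_pair]
      have h5 := sz_bits (strip u)
      show _ ≤ sz a + (4 * m a + 1) + 1
      omega
    have hTg : Tg (inner (rawz a u)) ≤ (W a + 2) ^ kR := by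
      rw [e1]
      refine (g3 _).trans ((hkR _).trans (Nat.pow_le_pow_left ?_ _))
      rw [e1] at hw
      have : sz (a, strip u) ≤ W a := hw
      omega
    have hgi : sz (g (inner (rawz a u))) ≤ 3 := by
      rw [e1, g2]
      exact sz_bool (R (a, strip u))
    have hgi' : sz (g (inner (rawz a u))) ≤ 5 := hgi.trans (by norm_num)
    have hBi : Bi (rawz a u) ≤ (Z a + 2) ^ ki :=
      (hki _).trans (Nat.pow_le_pow_left (by omega) _)
    have hBo : Bo (g (inner (rawz a u))) ≤ 5 ^ ko :=
      (hko _).trans (Nat.pow_le_pow_left (by omega) _)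
    have hout : sz (outp (g (inner (rawz a u)))) ≤ 5 := by
      unfold outp
      split_ifs
      · rw [sz_cons, sz_nil]; have := sz_bool true; omega
      · rw [sz_cons, sz_nil]; have := sz_bool false; omega
    show _ ≤ 20 * ((((Z a + 2) ^ ki + (W a + 2) ^ kR + 4 * Z a + 8 * W a + 20 + 8) +
      5 ^ ko + 4 * Z a + 40 + 40 + 8)) + 100 * Z a + 100
    generalize (Z a + 2) ^ ki = A1 at *
    generalize (W a + 2) ^ kR = A2 at *
    generalize 5 ^ ko = A3 at *
    omega
  obtain ⟨T, hT, hBT'⟩ := ((hBT.add (PB.const 1)).mul (PB.const p.psize)).exists_ptf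
  have hrun : ∀ a (u : List Bool), u.length = m a + 1 →
      (sstep^[T a] ([p], single i (rawz a u))).2 = single o (outp (g (inner (rawz a u)))) := by
    intro a u hu
    obtain ⟨t, ht, e⟩ := hbound a u hu
    obtain ⟨n, hn, e2⟩ := e.small
    have hnT : n ≤ T a := by
      refine hn.trans (le_trans ?_ (hBT' a))
      exact Nat.mul_le_mul_right _ (by omega)
    obtain ⟨d, hd⟩ := Nat.exists_eq_add_of_le hnT
    rw [hd, Nat.add_comm, iterate_add_apply, e2, iterate_nil]
  let H : α → ℕ := fun a => (rtpl a (m a + 1)).length + T a + 1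
  have htpl : PTF (fun a => rtpl a (m a + 1)) := by
    unfold rtpl
    refine PTF.append (PTF.map' (by fun_prop) (ptf_dl (ptf_ser PTF.id))) ?_
    exact PTF.replicate (hm.add (PTF.const 1)) (PTF.const none)
  have hH : PTF H := (htpl.length.add hT).add (PTF.const 1)
  let Kl : List K := (@Finset.univ K inst1).toList
  have hKl : ∀ k, k ∈ Kl := fun k => by simp [Kl]
  refine ⟨fun a => tab Kl p i o (T a) (H a) (rtpl a (m a + 1)), ptf_tab hT hH htpl, fun a => ?_⟩
  have hHa : (rtpl a (m a + 1)).length + T a < H a := Nat.lt_succ_self _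
  have hhead : ∀ u : List Bool, u.length = m a + 1 →
      (((sstep^[T a] ([p], single i (rawz a u))).2 o).head? = some true ↔
        R (a, strip u) = true) := by
    intro u hu
    rw [hrun a u hu, inner_rawz, g2]
    simp only [single, update_self, outp]
    cases R (a, strip u) with
    | true => simp [enc_true]
    | false =>
      have : (Enc.enc false : D) ≠ D.tt := by
        rw [← enc_true]
        intro e
        exact Bool.false_ne_true (Enc.inj e)
      simp [this]
  constructor
  · intro ha
    obtain ⟨w, hw⟩ := (h4 a).1 ha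
    have hwm : w.length ≤ m a := (h3 a w hw).trans (hBm a)
    let u : List Bool := w ++ true :: List.replicate (m a - w.length) false
    have hu : u.length = m a + 1 := by simp [u]; omega
    refine tab_complete hKl hHa ((match_rtpl a (m a + 1) (rawz a u)).2 ⟨u, hu, rfl⟩) ?_
    rw [hhead u hu, strip_pad]
    exact hw
  · rintro ⟨v, hv⟩
    obtain ⟨z, hz, hacc⟩ := tab_sound hKl hHa hv
    obtain ⟨u, hu, rfl⟩ := (match_rtpl a (m a + 1) z).1 hz
    rw [hhead u hu] at hacc
    exact (h4 a).2 ⟨_, hacc⟩

/-- **Cook-Levin**: predicates with short certificates reduce in polynomial time to the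
satisfiability of formulas in conjunctive normal form. -/
theorem NPd.sat {α : Type} [Enc α] {P : α → Prop} (h : NPd P) :
    ∃ f : α → List (List (Bool × ℕ)), PTF f ∧ ∀ a, P a ↔ Satisf (f a) := by
  obtain ⟨f, hf, h1⟩ := NPd.sat_aux h
  exact ⟨fun a => rename nmc (f a), ptf_rename hf, fun a => by rw [satisf_rename nmc_inj, h1]⟩

/-- **Cook-Levin** for the frozen class `NP`. -/
theorem cookLevin {L : List Bool → Bool} (h : L ∈ N68a2faeb.NP) :
    ∃ f : List Bool → List (List (Bool × ℕ)), PTF f ∧ ∀ x, L x = true ↔ Satisf (f x) :=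
  NPd.sat (NPd.of_NP h)

end Pool.Agent.PT
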