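import Pool.Agent.Work.PT.CookLevin

/-!
# The Cook-Levin theorem, with access to the certificate

`sat_link`: for a polynomial-time predicate `R (a, w)` and certificates `w` of length exactly `m a`
there is a polynomial-time computable formula whose satisfying valuations, restricted to certain
variables, are exactly the certificates `w` with `R (a, w)`.
-/

set_option autoImplicit false
set_option linter.unusedSectionVars false
set_option linter.unusedSimpArgs false

namespace Pool.Agent.PT

open Function Pool.Agent.Work.MP_46935e_lc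

section tableau

variable {K : Type} [DecidableEq K]

/-- The clauses which do not depend on the template. -/
theorem satBy_tab_iff {Kl : List K} (hKl : ∀ k, k ∈ Kl) {p : Prog K} {i o : K} {T H : ℕ}
    {tpl tpl' : List (Option Bool)} {v : Nm → Bool} (h : SatBy v (tab Kl p i o T H tpl))
    (h' : ∀ j < H, SatBy v (inic Kl tpl i j) → SatBy v (inic Kl tpl' i j)) :
    SatBy v (tab Kl p i o T H tpl') := by
  unfold tab at h ⊢
  rw [satBy_append, satBy_append, satBy_append] at h ⊢
  refine ⟨h.1, h.2.1, ?_, h.2.2.2⟩
  have h3 := h.2.2.1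
  rw [satBy_flatMap] at h3 ⊢
  intro j hj
  have h4 := h3 j hj
  rw [satBy_flatMap] at h4 ⊢
  intro k hk
  have h5 := h4 k hk
  split_ifs at h5 ⊢ with hki
  · exact h' j (List.mem_range.1 hj) h5
  · exact h5

theorem satBy_tab_inic {Kl : List K} (hKl : ∀ k, k ∈ Kl) {p : Prog K} {i o : K} {T H : ℕ}
    {tpl : List (Option Bool)} {v : Nm → Bool} (h : SatBy v (tab Kl p i o T H tpl)) {j : ℕ}
    (hj : j < H) : SatBy v (inic Kl tpl i j) := by
  unfold tab at h
  rw [satBy_append, satBy_append, satBy_append] at h
  have h3 := h.2.2.1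
  rw [satBy_flatMap] at h3
  have h4 := h3 j (List.mem_range.2 hj)
  rw [satBy_flatMap] at h4
  have h5 := h4 i (hKl i)
  rwa [if_pos rfl] at h5

/-- The valuation determines the input. -/
theorem tab_sound' {Kl : List K} (hKl : ∀ k, k ∈ Kl) {p : Prog K} {i o : K} {T H : ℕ}
    {tpl : List (Option Bool)} (hH : tpl.length + T < H) {v : Nm → Bool}
    (h : SatBy v (tab Kl p i o T H tpl)) {z : List Bool}
    (hz : z = (List.range tpl.length).map (fun j => v (vB Kl 0 i j))) :
    Match tpl z ∧ ((sstep^[T] ([p], single i z)).2 o).head? = some true := by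
  have hzl : z.length = tpl.length := by rw [hz]; simp
  have hzj : ∀ j < tpl.length, z.getD j false = v (vB Kl 0 i j) := by
    intro j hj
    rw [List.getD_eq_getElem _ _ (by rw [hzl]; exact hj)]
    simp [hz]
  have h1 : SatBy v (tab Kl p i o T H (z.map some)) := by
    refine satBy_tab_iff hKl h (fun j _ h2 => ?_)
    unfold inic at h2 ⊢
    rcases Nat.lt_or_ge j tpl.length with hj | hj
    · have e1 : (z.map some)[j]? = some (some (z.getD j false)) := by
        rw [List.getElem?_map, List.getElem?_eq_getElem (by rw [hzl]; exact hj),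
          List.getD_eq_getElem _ _ (by rw [hzl]; exact hj)]
        rfl
      rw [e1]
      simp only [satBy_append, satBy_unitc]
      refine ⟨?_, (hzj j hj).symm⟩
      rw [List.getElem?_eq_getElem hj] at h2
      cases hb : tpl[j] with
      | none => rw [hb] at h2; simpa only [satBy_unitc] using h2
      | some b =>
        rw [hb] at h2
        simp only [satBy_append, satBy_unitc] at h2
        exact h2.1
    · rw [List.getElem?_eq_none (by omega)] at h2
      rw [List.getElem?_eq_none (by simp; omega)]
      exact h2
  have hm : Match tpl z := by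
    refine ⟨hzl, fun j b hb => ?_⟩
    have hj : j < tpl.length := by
      by_contra hcon
      rw [List.getElem?_eq_none (by omega)] at hb
      cases hb
    have h5 := satBy_tab_inic hKl h (j := j) (by omega)
    unfold inic at h5
    rw [hb] at h5
    simp only [satBy_append, satBy_unitc] at h5
    rw [hzj j hj, h5.2]
  refine ⟨hm, ?_⟩
  obtain ⟨z', hz', hacc⟩ := tab_sound hKl (by simpa [hzl] using hH) h1
  have : z' = z := by
    obtain ⟨h3, h4⟩ := hz'
    refine List.ext_getElem (by simpa using h3) fun j h5 h6 => ?_
    have h7 := h4 j (z[j]) (by rw [List.getElem?_map, List.getElem?_eq_getElem h6]; rfl)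
    rw [List.getD_eq_getElem _ _ h5] at h7
    exact h7
  rw [this] at hacc
  exact hacc

/-- The input is visible in the valuation. -/
theorem tab_complete' {Kl : List K} (hKl : ∀ k, k ∈ Kl) {p : Prog K} {i o : K} {T H : ℕ}
    {tpl : List (Option Bool)} (hH : tpl.length + T < H) {z : List Bool} (hz : Match tpl z)
    (hacc : ((sstep^[T] ([p], single i z)).2 o).head? = some true) :
    ∃ v, SatBy v (tab Kl p i o T H tpl) ∧ ∀ j < z.length, v (vB Kl 0 i j) = z.getD j false := by
  have hzl := hz.1
  have hm : Match (z.map some) z := by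
    refine ⟨by simp, fun j b hb => ?_⟩
    rw [List.getElem?_map] at hb
    have hj : j < z.length := by
      by_contra hcon
      rw [List.getElem?_eq_none (by omega)] at hb
      cases hb
    rw [List.getElem?_eq_getElem hj] at hb
    rw [List.getD_eq_getElem _ _ hj]
    simpa using hb
  obtain ⟨v, hv⟩ := tab_complete hKl (by simpa [hzl] using hH) hm hacc
  have e1 : ∀ j < z.length, (z.map some)[j]? = some (some (z.getD j false)) := by
    intro j hj
    rw [List.getElem?_map, List.getElem?_eq_getElem hj, List.getD_eq_getElem _ _ hj]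
    rfl
  refine ⟨v, satBy_tab_iff hKl hv (fun j hj h2 => ?_), fun j hj => ?_⟩
  · unfold inic at h2 ⊢
    rcases Nat.lt_or_ge j tpl.length with hj' | hj'
    · rw [e1 j (by omega)] at h2
      simp only [satBy_append, satBy_unitc] at h2
      rw [List.getElem?_eq_getElem hj']
      cases hb : tpl[j] with
      | none => simp only [satBy_unitc]; exact h2.1
      | some b =>
        simp only [satBy_append, satBy_unitc]
        refine ⟨h2.1, ?_⟩
        rw [h2.2]
        exact hz.2 j b (by rw [List.getElem?_eq_getElem hj', hb])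
    · rw [List.getElem?_eq_none (by omega)]
      rw [List.getElem?_eq_none (by simp; omega)] at h2
      exact h2
  · have h5 := satBy_tab_inic hKl hv (j := j) (by omega)
    unfold inic at h5
    rw [e1 j hj] at h5
    simp only [satBy_append, satBy_unitc] at h5
    exact h5.2

end tableau

theorem strip_eq_take (u : List Bool) : strip u = u.take (strip u).length := by
  unfold strip
  generalize u.reverse.idxOf true + 1 = k
  rw [List.reverse_drop]
  simp

/-- **Cook-Levin**, with access to the certificate. -/
theorem sat_link {α : Type} [Enc α] {R : α × List Bool → Bool} (hR : PTF R) {m : α → ℕ}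
    (hm : PTF m) :
    ∃ (f : α → List (List (Bool × Nm))) (nm : α × ℕ → Nm), PTF f ∧ PTF nm ∧
      (∀ a v, SatBy v (f a) → R (a, (List.range (m a)).map (fun j => v (nm (a, j)))) = true) ∧
      (∀ a w, w.length = m a → R (a, w) = true →
        ∃ v, SatBy v (f a) ∧ ∀ j < m a, v (nm (a, j)) = w.getD j false) := by
  have hR1 : PTF (fun p : α × List Bool => R p && decide (p.2.length = m p.1)) := by fun_prop
  obtain ⟨R1, hR1def⟩ : ∃ R1 : α × List Bool → Bool,
    R1 = fun p : α × List Bool => R p && decide (p.2.length = m p.1) := ⟨_, rfl⟩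
  rw [← hR1def] at hR1
  obtain ⟨BR, ⟨g, Tg, g1, g2, g3⟩, hBR⟩ := hR1
  have hg : TimeF g Tg := ⟨g, Tg, g1, fun _ => rfl, fun _ => le_refl _⟩
  obtain ⟨Bi, i1, i2⟩ := ptf_inner
  obtain ⟨Bo, o1, o2⟩ := ptf_outp
  have hf := o1.comp (hg.comp i1)
  obtain ⟨K, inst1, inst2, p, i, o, hp⟩ := hf.raw_prog
  -- sizes
  have hmP : PB m := hm.size.mono (fun a => by rw [sz_nat]; omega)
  obtain ⟨ki, hki⟩ := i2
  obtain ⟨kR, hkR⟩ := hBR
  obtain ⟨ko, hko⟩ := o2
  let Z : α → ℕ := fun a => 4 * (2 * sz a + 1 + (m a + 1)) + 1
  have hZ : PB Z := (((PB.const 4).mul ((((PB.const 2).mul PB.sz).add (PB.const 1)).add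
    (hmP.add (PB.const 1)))).add (PB.const 1))
  let W : α → ℕ := fun a => sz a + (4 * m a + 1) + 1
  have hW : PB W := (PB.sz.add (((PB.const 4).mul hmP).add (PB.const 1))).add (PB.const 1)
  let BT : α → ℕ := fun a => 20 * ((((Z a + 2) ^ ki + (W a + 2) ^ kR + 4 * Z a + 8 * W a + 20 + 8) +
    5 ^ ko + 4 * Z a + 40 + 40 + 8)) + 100 * Z a + 100
  have hBT : PB BT := by
    refine PB.add (PB.add (PB.mul (PB.const 20) ?_) (PB.mul (PB.const 100) hZ)) (PB.const 100)
    exact (((((((((((hZ.add (PB.const 2)).pow ki).add ((hW.add (PB.const 2)).pow kR)).add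
      ((PB.const 4).mul hZ)).add ((PB.const 8).mul hW)).add (PB.const 20)).add (PB.const 8)).add
      (PB.const _)).add ((PB.const 4).mul hZ)).add (PB.const 40)).add (PB.const 40)).add
      (PB.const 8)
  have hbound : ∀ a (u : List Bool), u.length = m a + 1 →
      Runs p (single i (rawz a u)) (single o (outp (g (inner (rawz a u))))) (BT a) := by
    intro a u hu
    refine (hp (rawz a u)).mono ?_
    have e1 : inner (rawz a u) = Enc.enc (a, strip u) := inner_rawz a u
    have hs := length_strip u
    have hz : sz (rawz a u) ≤ Z a := by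
      have h5 := sz_bits (rawz a u)
      have h6 : (rawz a u).length = 2 * sz a + 1 + (m a + 1) := by
        unfold rawz
        rw [List.length_append, hu, dl, N487b59b3.length_delimit, D.length_enc]
        rfl
      rw [h6] at h5
      exact h5
    have hw : sz (inner (rawz a u)) ≤ W a := by
      rw [e1]
      show sz (a, strip u) ≤ _
      rw [sz_pair]
      have h5 := sz_bits (strip u)
      show _ ≤ sz a + (4 * m a + 1) + 1
      omega
    have hTg : Tg (inner (rawz a u)) ≤ (W a + 2) ^ kR := by
      rw [e1]
      refine (g3 _).trans ((hkR _).trans (Nat.pow_le_pow_left ?_ _))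
      rw [e1] at hw
      have : sz (a, strip u) ≤ W a := hw
      omega
    have hgi : sz (g (inner (rawz a u))) ≤ 3 := by
      rw [e1, g2]
      exact sz_bool (R1 (a, strip u))
    have hgi' : sz (g (inner (rawz a u))) ≤ 5 := hgi.trans (by norm_num)
    have hBi : Bi (rawz a u) ≤ (Z a + 2) ^ ki :=
      (hki _).trans (Nat.pow_le_pow_left (by omega) _)
    have hBo : Bo (g (inner (rawz a u))) ≤ 5 ^ ko :=
      (hko _).trans (Nat.pow_le_pow_left (by omega) _)
    have hout : sz (outp (g (inner (rawz a u)))) ≤ 5 := by
      unfold outp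
      split_ifs
      · rw [sz_cons, sz_nil]; have := sz_bool true; omega
      · rw [sz_cons, sz_nil]; have := sz_bool false; omega
    show _ ≤ 20 * ((((Z a + 2) ^ ki + (W a + 2) ^ kR + 4 * Z a + 8 * W a + 20 + 8) +
      5 ^ ko + 4 * Z a + 40 + 40 + 8)) + 100 * Z a + 100
    generalize (Z a + 2) ^ ki = A1 at *
    generalize (W a + 2) ^ kR = A2 at *
    generalize 5 ^ ko = A3 at *
    omega
  obtain ⟨T, hT, hBT'⟩ := ((hBT.add (PB.const 1)).mul (PB.const p.psize)).exists_ptf
  have hrun : ∀ a (u : List Bool), u.length = m a + 1 →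
      (sstep^[T a] ([p], single i (rawz a u))).2 = single o (outp (g (inner (rawz a u)))) := by
    intro a u hu
    obtain ⟨t, ht, e⟩ := hbound a u hu
    obtain ⟨n, hn, e2⟩ := e.small
    have hnT : n ≤ T a := by
      refine hn.trans (le_trans ?_ (hBT' a))
      exact Nat.mul_le_mul_right _ (by omega)
    obtain ⟨d, hd⟩ := Nat.exists_eq_add_of_le hnT
    rw [hd, Nat.add_comm, iterate_add_apply, e2, iterate_nil]
  let H : α → ℕ := fun a => (rtpl a (m a + 1)).length + T a + 1
  have htpl : PTF (fun a => rtpl a (m a + 1)) := by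
    unfold rtpl
    refine PTF.append (PTF.map' (by fun_prop) (ptf_dl (ptf_ser PTF.id))) ?_
    exact PTF.replicate (hm.add (PTF.const 1)) (PTF.const none)
  have hH : PTF H := (htpl.length.add hT).add (PTF.const 1)
  let Kl : List K := (@Finset.univ K inst1).toList
  have hKl : ∀ k, k ∈ Kl := fun k => by simp [Kl]
  have hdl : PTF (fun a : α => (dl (Enc.enc a).enc).length) :=
    (ptf_dl (ptf_ser PTF.id)).length
  have hnm : PTF (fun q : α × ℕ => vB Kl 0 i ((dl (Enc.enc q.1).enc).length + q.2)) := by
    have h1 : PTF (fun q : α × ℕ => (dl (Enc.enc q.1).enc).length) :=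
      PTF.comp (f := fun a : α => (dl (Enc.enc a).enc).length) (g := fun q : α × ℕ => q.1) hdl
        PTF.fst
    exact ptf_vB (PTF.const 0) (h1.add PTF.snd)
  have hlen : ∀ a, (rtpl a (m a + 1)).length = (dl (Enc.enc a).enc).length + (m a + 1) := by
    intro a; unfold rtpl; simp
  have hhead : ∀ a (u : List Bool), u.length = m a + 1 →
      (((sstep^[T a] ([p], single i (rawz a u))).2 o).head? = some true ↔
        R1 (a, strip u) = true) := by
    intro a u hu
    rw [hrun a u hu, inner_rawz, g2]
    simp only [single, update_self, outp]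
    cases R1 (a, strip u) with
    | true => simp [enc_true]
    | false =>
      have : (Enc.enc false : D) ≠ D.tt := by
        rw [← enc_true]
        intro e
        exact Bool.false_ne_true (Enc.inj e)
      simp [this]
  refine ⟨fun a => tab Kl p i o (T a) (H a) (rtpl a (m a + 1)),
    fun q => vB Kl 0 i ((dl (Enc.enc q.1).enc).length + q.2), ptf_tab hT hH htpl, hnm,
    fun a v hv => ?_, fun a w hw hRw => ?_⟩
  · have hHa : (rtpl a (m a + 1)).length + T a < H a := Nat.lt_succ_self _
    obtain ⟨hz, hacc⟩ := tab_sound' hKl hHa hv rfl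
    obtain ⟨u, hu, hzu⟩ := (match_rtpl a (m a + 1) _).1 hz
    rw [hzu, hhead a u hu, hR1def] at hacc
    simp only [Bool.and_eq_true, decide_eq_true_eq] at hacc
    obtain ⟨h5, h6⟩ := hacc
    have h7 : strip u = u.take (m a) := by
      conv_lhs => rw [strip_eq_take, h6]
    have h8 : strip u = (List.range (m a)).map
        (fun j => v (vB Kl 0 i ((dl (Enc.enc a).enc).length + j))) := by
      refine List.ext_getElem (by simp [h6]) fun j h9 h10 => ?_
      have hj : j < m a := by simpa using h10
      simp only [h7, List.getElem_take, List.getElem_map, List.getElem_range]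
      have h11 : (rawz a u)[(dl (Enc.enc a).enc).length + j]'(by
          unfold rawz; rw [List.length_append]; omega) = u[j]'(by omega) := by
        unfold rawz
        rw [List.getElem_append_right (by omega)]
        simp
      rw [← h11]
      simp only [← hzu, List.getElem_map, List.getElem_range]
    rw [← h8]
    exact h5
  · have hHa : (rtpl a (m a + 1)).length + T a < H a := Nat.lt_succ_self _
    have hu : (w ++ [true]).length = m a + 1 := by simp [hw]
    have hst : strip (w ++ [true]) = w := strip_pad w 0
    have hacc : ((sstep^[T a] ([p], single i (rawz a (w ++ [true])))).2 o).head? = some true := by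
      rw [hhead a _ hu, hst, hR1def]
      simp [hRw, hw]
    obtain ⟨v, hv, hvj⟩ := tab_complete' hKl hHa
      ((match_rtpl a (m a + 1) (rawz a (w ++ [true]))).2 ⟨_, hu, rfl⟩) hacc
    refine ⟨v, hv, fun j hj => ?_⟩
    dsimp only
    have hl : (rawz a (w ++ [true])).length = (dl (Enc.enc a).enc).length + (m a + 1) := by
      unfold rawz
      rw [List.length_append, hu]
    rw [hvj _ (by rw [hl]; omega)]
    unfold rawz
    rw [List.getD_append_right _ _ _ _ (by omega), Nat.add_sub_cancel_left,
      List.getD_append _ _ _ _ (by omega)]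

end Pool.Agent.PT
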