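import Pool.Agent.Work.PT.Tree

/-!
# Functions on trees computed by stack programs, with time bounds
-/

set_option autoImplicit false

namespace Pool.Agent.PT

open Function

/-- `CompT f T`: some stack program computes `f` on (codes of) trees in time `T`. -/
def CompT (f : D → D) (T : D → ℕ) : Prop :=
  ∃ (K : Type) (_ : Fintype K) (_ : DecidableEq K) (p : Prog K) (i o : K),
    ∀ x : D, Runs p (single i x.enc) (single o (f x).enc) (T x)

theorem CompT.mono {f : D → D} {T T' : D → ℕ} (h : CompT f T) (hT : ∀ x, T x ≤ T' x) :
    CompT f T' := by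
  obtain ⟨K, i1, i2, p, i, o, h⟩ := h
  exact ⟨K, i1, i2, p, i, o, fun x => (h x).mono (hT x)⟩

theorem CompT.size_le {f : D → D} {T : D → ℕ} (h : CompT f T) (x : D) :
    (f x).size ≤ x.size + T x := by
  obtain ⟨K, i1, i2, p, i, o, h⟩ := h
  obtain ⟨t, ht, e⟩ := h x
  have h1 := e.length_le o
  unfold single at h1
  rw [update_self, D.length_enc] at h1
  have h2 : (update (fun _ => []) i x.enc o : List Bool).length ≤ x.size := by
    by_cases ho : o = i
    · subst ho; rw [update_self, D.length_enc]
    · rw [update_of_ne ho]; simp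
  omega

section mem

variable {K : Type} [DecidableEq K]

/-- Memory with four registers and other empty stacks. -/
def mem (K : Type) (x y z w : List Bool) : Mem (R ⊕ K) := Sum.elim (st x y z w) (fun _ => [])

omit [DecidableEq K] in
@[simp] theorem mem_inr (x y z w) (k : K) : mem K x y z w (Sum.inr k) = [] := rfl
omit [DecidableEq K] in
theorem mem_a (x y z w) : mem K x y z w (Sum.inl .a) = x := rfl
omit [DecidableEq K] in
theorem mem_b (x y z w) : mem K x y z w (Sum.inl .b) = y := rfl
omit [DecidableEq K] in
theorem mem_c (x y z w) : mem K x y z w (Sum.inl .c) = z := rfl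
omit [DecidableEq K] in
theorem mem_d (x y z w) : mem K x y z w (Sum.inl .d) = w := rfl

theorem upm_a (x y z w v) : update (mem K x y z w) (Sum.inl .a) v = mem K v y z w := by
  unfold mem; rw [Sum.update_elim_inl, up_a]
theorem upm_b (x y z w v) : update (mem K x y z w) (Sum.inl .b) v = mem K x v z w := by
  unfold mem; rw [Sum.update_elim_inl, up_b]
theorem upm_c (x y z w v) : update (mem K x y z w) (Sum.inl .c) v = mem K x y v w := by
  unfold mem; rw [Sum.update_elim_inl, up_c]
theorem upm_d (x y z w v) : update (mem K x y z w) (Sum.inl .d) v = mem K x y z v := by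
  unfold mem; rw [Sum.update_elim_inl, up_d]

theorem single_inl (i : R) (x : List Bool) :
    single (Sum.inl i : R ⊕ K) x = Sum.elim (single i x) (fun _ => []) := by
  unfold single
  rw [← Sum.update_elim_inl]
  congr 1
  funext k
  cases k <;> rfl

theorem single_ma (x) : single (Sum.inl R.a : R ⊕ K) x = mem K x [] [] [] := by
  rw [single_inl, single_a]; rfl
theorem single_mb (x) : single (Sum.inl R.b : R ⊕ K) x = mem K [] x [] [] := by
  rw [single_inl, single_b]; rfl
theorem single_mc (x) : single (Sum.inl R.c : R ⊕ K) x = mem K [] [] x [] := by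
  rw [single_inl, single_c]; rfl

omit [DecidableEq K] in
theorem ins_inl (S : Mem R) (x y z w : List Bool) :
    ins Sum.inl S (mem K x y z w) = Sum.elim S (fun _ => []) := by
  funext k
  cases k with
  | inl r => exact ins_apply Sum.inl_injective S _ r
  | inr k =>
    unfold ins
    rw [dif_neg]
    · rfl
    · rintro ⟨r, hr⟩; cases hr

/-- Run a register program inside the bigger memory. -/
theorem Runs.reg {p : Prog R} {x y z w x' y' z' w' : List Bool} {T : ℕ}
    (h : Runs p (st x y z w) (st x' y' z' w') T) :
    Runs (p.map Sum.inl) (mem K x y z w) (mem K x' y' z' w') T := by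
  have := h.map (K' := R ⊕ K) Sum.inl_injective (mem K x y z w)
  rw [ins_inl, ins_inl] at this
  exact this

/-- Call a subroutine on register `a`, with temporary `d`. -/
def callA {K1 : Type} (j : K1 → K) (p : Prog K1) (i o : K1) : Prog (R ⊕ K) :=
  callP (Sum.inl .a) (Sum.inl .d) (fun k => Sum.inr (j k)) p i o

/-- Call a subroutine on register `b`, with temporary `d`. -/
def callB {K1 : Type} (j : K1 → K) (p : Prog K1) (i o : K1) : Prog (R ⊕ K) :=
  callP (Sum.inl .b) (Sum.inl .d) (fun k => Sum.inr (j k)) p i o

theorem callA_runs {K1 : Type} [DecidableEq K1] {j : K1 → K} (hj : Injective j) {p : Prog K1}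
    {i o : K1} {u v : D} {T : ℕ} (h : Runs p (single i u.enc) (single o v.enc) T)
    (y z : List Bool) :
    Runs (callA j p i o) (mem K u.enc y z []) (mem K v.enc y z [])
      (T + 4 * u.size + 4 * v.size + 4) := by
  have := callP_runs (K' := R ⊕ K) (r := Sum.inl .a) (d := Sum.inl .d)
    (j := fun k => Sum.inr (j k)) (fun a b h => hj (Sum.inr.inj h)) (by simp) (by simp)
    (by simp) h (mem K u.enc y z []) (by simp) rfl rfl
  rw [upm_a, D.length_enc, D.length_enc] at this
  exact this

theorem callB_runs {K1 : Type} [DecidableEq K1] {j : K1 → K} (hj : Injective j) {p : Prog K1}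
    {i o : K1} {u v : D} {T : ℕ} (h : Runs p (single i u.enc) (single o v.enc) T)
    (x z : List Bool) :
    Runs (callB j p i o) (mem K x u.enc z []) (mem K x v.enc z [])
      (T + 4 * u.size + 4 * v.size + 4) := by
  have := callP_runs (K' := R ⊕ K) (r := Sum.inl .b) (d := Sum.inl .d)
    (j := fun k => Sum.inr (j k)) (fun a b h => hj (Sum.inr.inj h)) (by simp) (by simp)
    (by simp) h (mem K x u.enc z []) (by simp) rfl rfl
  rw [upm_b, D.length_enc, D.length_enc] at this
  exact this

end mem

/-- The identity. -/
theorem CompT.id : CompT (fun x => x) (fun _ => 0) :=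
  ⟨Unit, inferInstance, inferInstance, .skip, (), (), fun _ => Runs.skip _⟩

/-- Composition. -/
theorem CompT.comp {f g : D → D} {Tf Tg : D → ℕ} (hf : CompT f Tf) (hg : CompT g Tg) :
    CompT (fun x => f (g x))
      (fun x => Tg x + Tf (g x) + 4 * x.size + 8 * (g x).size + 4 * (f (g x)).size + 8) := by
  obtain ⟨K1, _, _, p1, i1, o1, h1⟩ := hf
  obtain ⟨K2, _, _, p2, i2, o2, h2⟩ := hg
  refine ⟨R ⊕ (K1 ⊕ K2), inferInstance, inferInstance,
    .seq (callA Sum.inr p2 i2 o2) (callA Sum.inl p1 i1 o1), Sum.inl .a, Sum.inl .a, fun x => ?_⟩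
  beta_reduce
  rw [single_ma, single_ma]
  exact ((callA_runs Sum.inr_injective (h2 x) [] []).seq
    (callA_runs Sum.inl_injective (h1 (g x)) [] [])).mono (by omega)

/-- Pairing. -/
theorem CompT.pair {f g : D → D} {Tf Tg : D → ℕ} (hf : CompT f Tf) (hg : CompT g Tg) :
    CompT (fun x => .cons (f x) (g x))
      (fun x => Tf x + Tg x + 13 * x.size + 8 * (f x).size + 8 * (g x).size + 15) := by
  obtain ⟨K1, _, _, p1, i1, o1, h1⟩ := hf
  obtain ⟨K2, _, _, p2, i2, o2, h2⟩ := hg
  refine ⟨R ⊕ (K1 ⊕ K2), inferInstance, inferInstance,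
    .seq (copyAB.map Sum.inl) (.seq (callA Sum.inl p1 i1 o1) (.seq (callB Sum.inr p2 i2 o2)
      (consP.map Sum.inl))), Sum.inl .a, Sum.inl .c, fun x => ?_⟩
  beta_reduce
  rw [single_ma, single_mc]
  have c1 := (copyAB_runs x.enc [] []).reg (K := K1 ⊕ K2)
  rw [List.append_nil, D.length_enc] at c1
  have c2 := callA_runs (K := K1 ⊕ K2) Sum.inl_injective (h1 x) x.enc []
  have c3 := callB_runs (K := K1 ⊕ K2) Sum.inr_injective (h2 x) (f x).enc []
  have c4 := (consP_runs (f x).enc (g x).enc).reg (K := K1 ⊕ K2)
  rw [D.length_enc, D.length_enc] at c4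
  exact (c1.seq (c2.seq (c3.seq c4))).mono (by omega)

/-- Constants. -/
def pushAll {K : Type} (k : K) : List Bool → Prog K
  | [] => .skip
  | b :: l => .seq (pushAll k l) (.push k b)

theorem pushAll_runs {K : Type} [DecidableEq K] (k : K) (l : List Bool) (S : Mem K) :
    Runs (pushAll k l) S (update S k (l ++ S k)) l.length := by
  induction l with
  | nil => simp only [List.nil_append, update_eq_self]; exact Runs.skip S
  | cons b l ih =>
    have h := Runs.push k b (update S k (l ++ S k))
    rw [update_self, update_idem] at h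
    exact ih.seq h

theorem CompT.const (c : D) : CompT (fun _ => c) (fun x => x.size + 1 + c.size) := by
  refine ⟨R, inferInstance, inferInstance, .seq clearA (pushAll .b c.enc), .a, .b, fun x => ?_⟩
  beta_reduce
  rw [single_a, single_b]
  have h1 := clearA_runs x.enc [] [] []
  have h2 := pushAll_runs R.b c.enc (st [] [] [] [])
  rw [st_b, up_b, List.append_nil, D.length_enc] at h2
  rw [D.length_enc] at h1
  exact h1.seq h2

/-- Head. -/
theorem CompT.hd : CompT D.hd (fun x => 8 * x.size + 5) := by
  refine ⟨R, inferInstance, inferInstance, .seq splitP clearA, .a, .b, fun x => ?_⟩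
  beta_reduce
  rw [single_a, single_b]
  have h1 := splitP_runs x
  have h2 := clearA_runs x.tl.enc x.hd.enc [] []
  rw [D.length_enc] at h2
  have := D.size_tl_le x
  exact (h1.seq h2).mono (by omega)

/-- Tail. -/
theorem CompT.tl : CompT D.tl (fun x => 11 * x.size + 7) := by
  refine ⟨R, inferInstance, inferInstance,
    .seq splitP (.seq (mv .b .c) (.loop .c .skip .skip)), .a, .a, fun x => ?_⟩
  beta_reduce
  rw [single_a, single_a]
  have h1 := splitP_runs x
  have h2 := mv_runs (a := R.b) (b := R.c) (by decide) (st x.tl.enc x.hd.enc [] [])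
  simp only [st_b, up_b, st_c, up_c, List.append_nil, D.length_enc] at h2
  have h3 : ∀ (l : List Bool), Runs (.loop R.c .skip .skip) (st x.tl.enc [] l [])
      (st x.tl.enc [] [] []) (l.length + 1) := by
    intro l
    induction l with
    | nil => exact Runs.loop_nil rfl
    | cons b l ih =>
      cases b with
      | false =>
        exact Runs.mono (Runs.loop_false l rfl (by rw [up_c]; exact Runs.skip _) ih) (by simp)
      | true =>
        exact Runs.mono (Runs.loop_true l rfl (by rw [up_c]; exact Runs.skip _) ih) (by simp)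
  have h4 := h3 x.hd.enc.reverse
  rw [List.length_reverse, D.length_enc] at h4
  have := D.size_hd_le x
  exact (h1.seq (h2.seq h4)).mono (by omega)

/-- Case distinction on `nil`. -/
theorem CompT.ite {c f g : D → D} {Tc Tf Tg : D → ℕ} (hc : CompT c Tc) (hf : CompT f Tf)
    (hg : CompT g Tg) :
    CompT (fun x => if c x = .nil then f x else g x)
      (fun x => Tc x + (if c x = .nil then Tf x else Tg x) + 13 * x.size + 5 * (c x).size +
        4 * (if c x = .nil then f x else g x).size + 15) := by
  obtain ⟨K0, _, _, p0, i0, o0, h0⟩ := hc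
  obtain ⟨K1, _, _, p1, i1, o1, h1⟩ := hf
  obtain ⟨K2, _, _, p2, i2, o2, h2⟩ := hg
  refine ⟨R ⊕ (K0 ⊕ (K1 ⊕ K2)), inferInstance, inferInstance,
    .seq (copyAB.map Sum.inl) (.seq (callA Sum.inl p0 i0 o0)
      (.case (Sum.inl .a) .skip
        (callB (fun k => Sum.inr (Sum.inl k)) p1 i1 o1)
        (.seq (clearA.map Sum.inl) (callB (fun k => Sum.inr (Sum.inr k)) p2 i2 o2)))),
    Sum.inl .a, Sum.inl .b, fun x => ?_⟩
  beta_reduce
  rw [single_ma, single_mb]
  have c1 := (copyAB_runs x.enc [] []).reg (K := K0 ⊕ (K1 ⊕ K2))
  rw [List.append_nil, D.length_enc] at c1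
  have c2 := callA_runs (K := K0 ⊕ (K1 ⊕ K2)) Sum.inl_injective (h0 x) x.enc []
  by_cases hx : c x = .nil
  · have e : (if c x = .nil then f x else g x) = f x := if_pos hx
    have e' : (if c x = .nil then Tf x else Tg x) = Tf x := if_pos hx
    rw [e, e']
    have c3 := callB_runs (K := K0 ⊕ (K1 ⊕ K2)) (j := fun k => Sum.inr (Sum.inl k))
      (fun a b h => Sum.inl_injective (Sum.inr_injective h)) (h1 x) [] []
    have c4 : Runs (.case (Sum.inl .a) .skip
        (callB (fun k => Sum.inr (Sum.inl k)) p1 i1 o1)
        (.seq (clearA.map Sum.inl) (callB (fun k => Sum.inr (Sum.inr k)) p2 i2 o2)))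
        (mem (K0 ⊕ (K1 ⊕ K2)) (c x).enc x.enc [] []) (mem _ [] (f x).enc [] [])
        (Tf x + 4 * x.size + 4 * (f x).size + 4 + 1) := by
      rw [hx]
      exact Runs.case_false [] rfl (by rw [upm_a]; exact c3)
    exact (c1.seq (c2.seq c4)).mono (by omega)
  · have e : (if c x = .nil then f x else g x) = g x := if_neg hx
    have e' : (if c x = .nil then Tf x else Tg x) = Tg x := if_neg hx
    rw [e, e']
    obtain ⟨u, v, huv⟩ : ∃ u v, c x = .cons u v := by
      cases h : c x with
      | nil => exact absurd h hx
      | cons u v => exact ⟨u, v, rfl⟩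
    have c3 := (clearA_runs (u.enc ++ v.enc) x.enc [] []).reg (K := K0 ⊕ (K1 ⊕ K2))
    have hl : (u.enc ++ v.enc).length ≤ (c x).size := by
      rw [huv, D.size_cons, List.length_append, D.length_enc, D.length_enc]; omega
    have c4 := callB_runs (K := K0 ⊕ (K1 ⊕ K2)) (j := fun k => Sum.inr (Sum.inr k))
      (fun a b h => Sum.inr_injective (Sum.inr_injective h)) (h2 x) [] []
    have c5 : Runs (.case (Sum.inl .a) .skip
        (callB (fun k => Sum.inr (Sum.inl k)) p1 i1 o1)
        (.seq (clearA.map Sum.inl) (callB (fun k => Sum.inr (Sum.inr k)) p2 i2 o2)))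
        (mem (K0 ⊕ (K1 ⊕ K2)) (c x).enc x.enc [] []) (mem _ [] (g x).enc [] [])
        ((u.enc ++ v.enc).length + 1 + (Tg x + 4 * x.size + 4 * (g x).size + 4) + 1) := by
      rw [huv]
      exact Runs.case_true (u.enc ++ v.enc) rfl (by rw [upm_a]; exact c3.seq c4)
    exact (c1.seq (c2.seq c5)).mono (by omega)

/-- The sum of `F` over the first `n` iterates. -/
def sumIter (step : D → D) (F : D → ℕ) : ℕ → D → ℕ
  | 0, _ => 0
  | n + 1, s => F s + sumIter step F n (step s)

/-- Iteration. -/
theorem CompT.iter {c f g : D → D} {Tc Tf Tg : D → ℕ} (hc : CompT c Tc) (hf : CompT f Tf)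
    (hg : CompT g Tg) :
    CompT (fun x => g^[(c x).nodes] (f x))
      (fun x => Tc x + Tf x + 13 * x.size + 6 * (c x).size + 4 * (f x).size + 20 +
        sumIter g (fun s => Tg s + 4 * s.size + 4 * (g s).size + 4) (c x).nodes (f x)) := by
  obtain ⟨K0, _, _, p0, i0, o0, h0⟩ := hc
  obtain ⟨K1, _, _, p1, i1, o1, h1⟩ := hf
  obtain ⟨K2, _, _, p2, i2, o2, h2⟩ := hg
  refine ⟨R ⊕ (K0 ⊕ (K1 ⊕ K2)), inferInstance, inferInstance,
    .seq (copyAB.map Sum.inl) (.seq (callA Sum.inl p0 i0 o0)
      (.seq (callB (fun k => Sum.inr (Sum.inl k)) p1 i1 o1)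
      (.loop (Sum.inl .a) .skip (callB (fun k => Sum.inr (Sum.inr k)) p2 i2 o2)))),
    Sum.inl .a, Sum.inl .b, fun x => ?_⟩
  beta_reduce
  rw [single_ma, single_mb]
  have c1 := (copyAB_runs x.enc [] []).reg (K := K0 ⊕ (K1 ⊕ K2))
  rw [List.append_nil, D.length_enc] at c1
  have c2 := callA_runs (K := K0 ⊕ (K1 ⊕ K2)) Sum.inl_injective (h0 x) x.enc []
  have c3 := callB_runs (K := K0 ⊕ (K1 ⊕ K2)) (j := fun k => Sum.inr (Sum.inl k))
      (fun a b h => Sum.inl_injective (Sum.inr_injective h)) (h1 x) (c x).enc []
  have c4 : ∀ (l : List Bool) (s : D),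
      Runs (.loop (Sum.inl .a) .skip (callB (fun k => Sum.inr (Sum.inr k)) p2 i2 o2))
      (mem (K0 ⊕ (K1 ⊕ K2)) l s.enc [] [])
      (mem (K0 ⊕ (K1 ⊕ K2)) [] (g^[l.count true] s).enc [] [])
      (l.length + 1 + sumIter g (fun s => Tg s + 4 * s.size + 4 * (g s).size + 4)
        (l.count true) s) := by
    intro l
    induction l with
    | nil => intro s; exact Runs.mono (Runs.loop_nil rfl) (by simp)
    | cons b l ih =>
      intro s
      cases b with
      | false =>
        have e : (false :: l).count true = l.count true := by simp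
        rw [e]
        exact Runs.mono (Runs.loop_false l rfl (by rw [upm_a]; exact Runs.skip _) (ih s))
          (by simp only [List.length_cons]; omega)
      | true =>
        have e : (true :: l).count true = l.count true + 1 := by simp
        rw [e, iterate_succ_apply]
        have c5 := callB_runs (K := K0 ⊕ (K1 ⊕ K2)) (j := fun k => Sum.inr (Sum.inr k))
          (fun a b h => Sum.inr_injective (Sum.inr_injective h)) (h2 s) l []
        refine Runs.mono (Runs.loop_true l rfl (by rw [upm_a]; exact c5) (ih (g s))) ?_
        simp only [sumIter, List.length_cons]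
        omega
  have c6 := c4 (c x).enc (f x)
  rw [D.count_enc, D.length_enc] at c6
  exact (c1.seq (c2.seq (c3.seq c6))).mono (by omega)

/-- Equality test of the two components. -/
def eqLoop : Prog R :=
  .loop .a
    (.case .b (.push .c true) .skip (.push .c true))
    (.case .b (.push .c true) (.push .c true) .skip)

/-- After the loop, decide. -/
def eqP : Prog R :=
  .seq splitP (.seq eqLoop (.seq (.case .b .skip (.push .c true) (.push .c true))
    (.seq (.loop .b .skip .skip)
      (.case .c (.seq (.push .a false) (.seq (.push .a false) (.push .a true)))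
        (.seq (.loop .c .skip .skip) (.push .a false))
        (.seq (.loop .c .skip .skip) (.push .a false))))))

theorem eqLoop_runs (l m cs : List Bool) : ∃ m' cs',
    Runs eqLoop (st l m cs []) (st [] m' cs' []) (3 * l.length + 1) ∧
    m'.length ≤ m.length ∧ cs'.length ≤ cs.length + l.length ∧
    ((m' = [] ∧ cs' = []) ↔ (l = m ∧ cs = [])) := by
  induction l generalizing m cs with
  | nil =>
    refine ⟨m, cs, Runs.loop_nil rfl, le_refl _, by simp, ?_⟩
    constructor
    · rintro ⟨rfl, rfl⟩; exact ⟨rfl, rfl⟩
    · rintro ⟨rfl, rfl⟩; exact ⟨rfl, rfl⟩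
  | cons b l ih =>
    cases m with
    | nil =>
      obtain ⟨m', cs', hr, h1, h2, h3⟩ := ih [] (true :: cs)
      refine ⟨m', cs', ?_, h1, by simp at h2 ⊢; omega, ?_⟩
      · have hp : Runs (Prog.case R.b (.push .c true) .skip (.push .c true))
            (st l [] cs []) (st l [] (true :: cs) []) 2 := by
          refine Runs.case_nil rfl ?_
          have := Runs.push .c true (st l [] cs [])
          simp only [st_c, up_c] at this
          exact this
        have hp' : Runs (Prog.case R.b (.push .c true) (.push .c true) .skip)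
            (st l [] cs []) (st l [] (true :: cs) []) 2 := by
          refine Runs.case_nil rfl ?_
          have := Runs.push .c true (st l [] cs [])
          simp only [st_c, up_c] at this
          exact this
        cases b with
        | false =>
          exact Runs.mono (Runs.loop_false l rfl (by rw [up_a]; exact hp) hr) (by simp; omega)
        | true =>
          exact Runs.mono (Runs.loop_true l rfl (by rw [up_a]; exact hp') hr) (by simp; omega)
      · rw [h3]; simp
    | cons b' m =>
      by_cases hb : b = b'
      · subst hb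
        obtain ⟨m', cs', hr, h1, h2, h3⟩ := ih m cs
        refine ⟨m', cs', ?_, by simp; omega, by simp; omega, ?_⟩
        · cases b with
          | false =>
            refine Runs.mono (Runs.loop_false (T := 2) l rfl ?_ hr) (by simp; omega)
            rw [up_a]
            refine Runs.mono (Runs.case_false m rfl ?_) (le_refl _)
            rw [up_b]; exact (Runs.skip _).mono (by omega)
          | true =>
            refine Runs.mono (Runs.loop_true (T := 2) l rfl ?_ hr) (by simp; omega)
            rw [up_a]
            refine Runs.mono (Runs.case_true m rfl ?_) (le_refl _)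
            rw [up_b]; exact (Runs.skip _).mono (by omega)
        · rw [h3]; simp
      · obtain ⟨m', cs', hr, h1, h2, h3⟩ := ih m (true :: cs)
        refine ⟨m', cs', ?_, by simp; omega, by simp at h2 ⊢; omega, ?_⟩
        · have hp := Runs.push .c true (st l m cs [])
          simp only [st_c, up_c] at hp
          cases b with
          | false =>
            have : b' = true := by cases b' <;> simp_all
            subst this
            refine Runs.mono (Runs.loop_false (T := 2) l rfl ?_ hr) (by simp; omega)
            rw [up_a]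
            refine Runs.mono (Runs.case_true m rfl ?_) (le_refl _)
            rw [up_b]; exact hp
          | true =>
            have : b' = false := by cases b' <;> simp_all
            subst this
            refine Runs.mono (Runs.loop_true (T := 2) l rfl ?_ hr) (by simp; omega)
            rw [up_a]
            refine Runs.mono (Runs.case_false m rfl ?_) (le_refl _)
            rw [up_b]; exact hp
        · rw [h3]; simp [hb]

theorem clearB_runs (x y z w : List Bool) :
    Runs (.loop .b .skip .skip) (st x y z w) (st x [] z w) (y.length + 1) := by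
  induction y with
  | nil => exact Runs.loop_nil rfl
  | cons b l ih =>
    cases b with
    | false =>
      exact Runs.mono (Runs.loop_false l rfl (by rw [up_b]; exact Runs.skip _) ih) (by simp)
    | true =>
      exact Runs.mono (Runs.loop_true l rfl (by rw [up_b]; exact Runs.skip _) ih) (by simp)

theorem clearC_runs (x y z w : List Bool) :
    Runs (.loop .c .skip .skip) (st x y z w) (st x y [] w) (z.length + 1) := by
  induction z with
  | nil => exact Runs.loop_nil rfl
  | cons b l ih =>
    cases b with
    | false =>
      exact Runs.mono (Runs.loop_false l rfl (by rw [up_c]; exact Runs.skip _) ih) (by simp)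
    | true =>
      exact Runs.mono (Runs.loop_true l rfl (by rw [up_c]; exact Runs.skip _) ih) (by simp)

theorem CompT.eq : CompT (fun x => D.ofBool (decide (x.tl = x.hd)))
    (fun x => 20 * x.size + 30) := by
  refine ⟨R, inferInstance, inferInstance, eqP, .a, .a, fun x => ?_⟩
  beta_reduce
  rw [single_a, single_a]
  have h1 := splitP_runs x
  obtain ⟨m', cs', hr, hm, hc, hiff⟩ := eqLoop_runs x.tl.enc x.hd.enc []
  have ht := D.size_tl_le x
  have hh := D.size_hd_le x
  simp only [D.length_enc, List.length_nil, zero_add, and_true] at hm hc hiff hr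
  -- the third stage
  have h3 : ∃ cs'', Runs (.case R.b .skip (.push .c true) (.push .c true))
      (st [] m' cs' []) (st [] m'.tail cs'' []) 2 ∧
      cs''.length ≤ cs'.length + 1 ∧ (cs'' = [] ↔ (m' = [] ∧ cs' = [])) := by
    cases m' with
    | nil =>
      exact ⟨cs', Runs.case_nil rfl ((Runs.skip _).mono (by omega)), by omega, by simp⟩
    | cons b m =>
      refine ⟨true :: cs', ?_, by simp, by simp⟩
      have hp := Runs.push .c true (st [] m cs' [])
      simp only [st_c, up_c] at hp
      cases b with
      | false => exact Runs.case_false m rfl (by rw [up_b]; exact hp)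
      | true => exact Runs.case_true m rfl (by rw [up_b]; exact hp)
  obtain ⟨cs'', hr3, hc3, hiff3⟩ := h3
  have h4 := clearB_runs [] m'.tail cs'' []
  have hmt : m'.tail.length ≤ m'.length := by simp
  have h5 : Runs (.case R.c (.seq (.push .a false) (.seq (.push .a false) (.push .a true)))
        (.seq (.loop .c .skip .skip) (.push .a false))
        (.seq (.loop .c .skip .skip) (.push .a false))) (st [] [] cs'' [])
        (st (D.ofBool (decide (x.tl = x.hd))).enc [] [] []) (cs''.length + 5) := by
    cases hcs : cs'' with
    | nil =>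
      have : x.tl = x.hd := D.enc_injective (hiff.1 (hiff3.1 hcs))
      rw [decide_eq_true this]
      refine Runs.mono (Runs.case_nil rfl (T := 1 + (1 + 1)) ?_) (by simp)
      have a1 := Runs.push .a false (st [] [] [] [])
      simp only [st_a, up_a] at a1
      have a2 := Runs.push .a false (st [false] [] [] [])
      simp only [st_a, up_a] at a2
      have a3 := Runs.push .a true (st [false, false] [] [] [])
      simp only [st_a, up_a] at a3
      exact a1.seq (a2.seq a3)
    | cons b l =>
      have : ¬ x.tl = x.hd := by
        intro h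
        have := hiff3.2 (hiff.2 (congrArg D.enc h))
        rw [hcs] at this
        cases this
      rw [decide_eq_false this]
      have a1 := clearC_runs [] [] l []
      have a2 := Runs.push .a false (st [] [] [] [])
      simp only [st_a, up_a] at a2
      cases b with
      | false =>
        exact Runs.mono (Runs.case_false l rfl (by rw [up_c]; exact a1.seq a2))
          (by simp only [List.length_cons]; omega)
      | true =>
        exact Runs.mono (Runs.case_true l rfl (by rw [up_c]; exact a1.seq a2))
          (by simp only [List.length_cons]; omega)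
  exact (h1.seq (hr.seq (hr3.seq (h4.seq h5)))).mono (by omega)

end Pool.Agent.PT
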