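import Mathlib

/-!
# Structured stack programs and their compilation to `Turing.FinTM2`

`Prog K` is a small structured language whose memory is a family of stacks of
booleans indexed by `K`.  `Exec p S S' t` says that `p` transforms `S` into `S'`
in exactly `t` units of time.  `machine p i o` is a `Turing.FinTM2` which
simulates `p` with at most one step per unit of time.
-/

set_option autoImplicit false

namespace Pool.Agent.PT

open Turing Function

/-- Structured programs over stacks of booleans indexed by `K`. -/
inductive Prog (K : Type) : Type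
  | skip : Prog K
  | push (k : K) (b : Bool) : Prog K
  | seq (p q : Prog K) : Prog K
  | case (k : K) (pn pf pt : Prog K) : Prog K
  | loop (k : K) (pf pt : Prog K) : Prog K

/-- Memory: one stack of booleans for each index. -/
abbrev Mem (K : Type) := K → List Bool

/-- Big-step semantics with exact cost. -/
inductive Exec {K : Type} [DecidableEq K] : Prog K → Mem K → Mem K → ℕ → Prop
  | skip (S : Mem K) : Exec .skip S S 0
  | push (k : K) (b : Bool) (S : Mem K) : Exec (.push k b) S (update S k (b :: S k)) 1
  | seq {p q : Prog K} {S S' S'' : Mem K} {t t' : ℕ} :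
      Exec p S S' t → Exec q S' S'' t' → Exec (.seq p q) S S'' (t + t')
  | case_nil {k : K} {pn pf pt : Prog K} {S S' : Mem K} {t : ℕ} :
      S k = [] → Exec pn S S' t → Exec (.case k pn pf pt) S S' (t + 1)
  | case_cons {k : K} {pn pf pt : Prog K} {S S' : Mem K} {t : ℕ} (b : Bool) (l : List Bool) :
      S k = b :: l → Exec (bif b then pt else pf) (update S k l) S' t →
      Exec (.case k pn pf pt) S S' (t + 1)
  | loop_nil {k : K} {pf pt : Prog K} {S : Mem K} :
      S k = [] → Exec (.loop k pf pt) S S 1
  | loop_cons {k : K} {pf pt : Prog K} {S S' S'' : Mem K} {t t' : ℕ} (b : Bool) (l : List Bool) :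
      S k = b :: l → Exec (bif b then pt else pf) (update S k l) S' t →
      Exec (.loop k pf pt) S' S'' t' → Exec (.loop k pf pt) S S'' (t + t' + 1)

/-- Labels needed for a program: one for each loop head. -/
def Lab {K : Type} : Prog K → Type
  | .skip => Empty
  | .push _ _ => Empty
  | .seq p q => Lab p ⊕ Lab q
  | .case _ pn pf pt => Lab pn ⊕ (Lab pf ⊕ Lab pt)
  | .loop _ pf pt => Option (Lab pf ⊕ Lab pt)

/-- The label type is finite. -/
@[instance_reducible]
def labFintype {K : Type} : (p : Prog K) → Fintype (Lab p)
  | .skip => inferInstanceAs (Fintype Empty)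
  | .push _ _ => inferInstanceAs (Fintype Empty)
  | .seq p q =>
      letI := labFintype p; letI := labFintype q
      inferInstanceAs (Fintype (Lab p ⊕ Lab q))
  | .case _ pn pf pt =>
      letI := labFintype pn; letI := labFintype pf; letI := labFintype pt
      inferInstanceAs (Fintype (Lab pn ⊕ (Lab pf ⊕ Lab pt)))
  | .loop _ pf pt =>
      letI := labFintype pf; letI := labFintype pt
      inferInstanceAs (Fintype (Option (Lab pf ⊕ Lab pt)))

instance {K : Type} (p : Prog K) : Fintype (Lab p) := labFintype p

/-- Statements of the target machine. -/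
abbrev St (K Λ : Type) := TM2.Stmt (fun _ : K => Bool) Λ (Option Bool)

/-- Compile a program to a statement, given the embedding of its labels and a
continuation. -/
def cmp {K Λ : Type} : (p : Prog K) → (Lab p → Λ) → St K Λ → St K Λ
  | .skip, _, κ => κ
  | .push k b, _, κ => .push k (fun _ => b) κ
  | .seq p q, e, κ => cmp p (fun l => e (Sum.inl l)) (cmp q (fun l => e (Sum.inr l)) κ)
  | .case k pn pf pt, e, κ =>
      .pop k (fun _ o => o) (.branch (fun v => v.isNone)
        (cmp pn (fun l => e (Sum.inl l)) κ)
        (.branch (fun v => v == some true)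
          (cmp pt (fun l => e (Sum.inr (Sum.inr l))) κ)
          (cmp pf (fun l => e (Sum.inr (Sum.inl l))) κ)))
  | .loop _ _ _, e, _ => .goto (fun _ => e none)

/-- The code at each label of a program. -/
def code {K Λ : Type} : (p : Prog K) → (Lab p → Λ) → St K Λ → Lab p → St K Λ
  | .skip, _, _, l => nomatch (l : Empty)
  | .push _ _, _, _, l => nomatch (l : Empty)
  | .seq p q, e, κ, Sum.inl l =>
      code p (fun l => e (Sum.inl l)) (cmp q (fun l => e (Sum.inr l)) κ) l
  | .seq _ q, e, κ, Sum.inr l => code q (fun l => e (Sum.inr l)) κ l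
  | .case _ pn _ _, e, κ, Sum.inl l => code pn (fun l => e (Sum.inl l)) κ l
  | .case _ _ pf _, e, κ, Sum.inr (Sum.inl l) => code pf (fun l => e (Sum.inr (Sum.inl l))) κ l
  | .case _ _ _ pt, e, κ, Sum.inr (Sum.inr l) => code pt (fun l => e (Sum.inr (Sum.inr l))) κ l
  | .loop k pf pt, e, κ, none =>
      .pop k (fun _ o => o) (.branch (fun v => v.isNone) κ
        (.branch (fun v => v == some true)
          (cmp pt (fun l => e (some (Sum.inr l))) (.goto (fun _ => e none)))
          (cmp pf (fun l => e (some (Sum.inl l))) (.goto (fun _ => e none)))))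
  | .loop _ pf _, e, _, some (Sum.inl l) =>
      code pf (fun l => e (some (Sum.inl l))) (.goto (fun _ => e none)) l
  | .loop _ _ pt, e, _, some (Sum.inr l) =>
      code pt (fun l => e (some (Sum.inr l))) (.goto (fun _ => e none)) l

section sim

variable {K Λ : Type} [DecidableEq K]

/-- `n`-fold iteration of the step function. -/
def stepN (M : Λ → St K Λ) (n : ℕ) (c : Option (TM2.Cfg (fun _ : K => Bool) Λ (Option Bool))) :
    Option (TM2.Cfg (fun _ : K => Bool) Λ (Option Bool)) :=
  (flip bind (TM2.step M))^[n] c

theorem stepN_add (M : Λ → St K Λ) (m n : ℕ) (c) :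
    stepN M (m + n) c = stepN M m (stepN M n c) := by
  unfold stepN
  rw [Function.iterate_add_apply]

theorem stepN_one_goto (M : Λ → St K Λ) (l : Λ) (v : Option Bool) (S : Mem K) :
    stepN M 1 (some ⟨some l, v, S⟩) = some (TM2.stepAux (M l) v S) := rfl

theorem sim (M : Λ → St K Λ) {p : Prog K} {S S' : Mem K} {t : ℕ} (h : Exec p S S' t) :
    ∀ (e : Lab p → Λ) (κ : St K Λ) (_ : ∀ l, M (e l) = code p e κ l) (v : Option Bool),
    ∃ v' n, n ≤ t ∧
      stepN M n (some (TM2.stepAux (cmp p e κ) v S)) = some (TM2.stepAux κ v' S') := by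
  induction h with
  | skip S =>
    intro e κ _ v
    exact ⟨v, 0, le_refl _, rfl⟩
  | push k b S =>
    intro e κ _ v
    exact ⟨v, 0, Nat.zero_le _, rfl⟩
  | @seq p q S S' S'' t t' _ _ ih1 ih2 =>
    intro e κ hM v
    obtain ⟨v1, n1, hn1, h1⟩ := ih1 (fun l => e (Sum.inl l))
      (cmp q (fun l => e (Sum.inr l)) κ) (fun l => hM (Sum.inl l)) v
    obtain ⟨v2, n2, hn2, h2⟩ := ih2 (fun l => e (Sum.inr l)) κ (fun l => hM (Sum.inr l)) v1
    refine ⟨v2, n2 + n1, by omega, ?_⟩
    rw [stepN_add]
    show stepN M n2 (stepN M n1 (some (TM2.stepAux (cmp p (fun l => e (Sum.inl l))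
      (cmp q (fun l => e (Sum.inr l)) κ)) v S))) = _
    rw [h1, h2]
  | @case_nil k pn pf pt S S' t hk _ ih =>
    intro e κ hM v
    obtain ⟨v1, n1, hn1, h1⟩ := ih (fun l => e (Sum.inl l)) κ (fun l => hM (Sum.inl l)) none
    refine ⟨v1, n1, by omega, ?_⟩
    rw [← h1]
    have hS : update S k (S k).tail = S := by
      rw [hk]; simp only [List.tail_nil]; rw [← hk]; exact update_eq_self k S
    show stepN M n1 (some (TM2.stepAux (.pop k (fun _ o => o) _) v S)) = _
    simp only [TM2.stepAux, hS]
    rw [hk]
    rfl
  | @case_cons k pn pf pt S S' t b l hk _ ih =>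
    intro e κ hM v
    cases b with
    | true =>
      obtain ⟨v1, n1, hn1, h1⟩ := ih (fun l => e (Sum.inr (Sum.inr l))) κ
        (fun l => hM (Sum.inr (Sum.inr l))) (some true)
      refine ⟨v1, n1, by omega, ?_⟩
      rw [← h1]
      show stepN M n1 (some (TM2.stepAux (.pop k (fun _ o => o) _) v S)) = _
      simp only [TM2.stepAux]
      rw [hk]
      rfl
    | false =>
      obtain ⟨v1, n1, hn1, h1⟩ := ih (fun l => e (Sum.inr (Sum.inl l))) κ
        (fun l => hM (Sum.inr (Sum.inl l))) (some false)
      refine ⟨v1, n1, by omega, ?_⟩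
      rw [← h1]
      show stepN M n1 (some (TM2.stepAux (.pop k (fun _ o => o) _) v S)) = _
      simp only [TM2.stepAux]
      rw [hk]
      rfl
  | @loop_nil k pf pt S hk =>
    intro e κ hM v
    refine ⟨none, 1, le_refl _, ?_⟩
    have hS : update S k (S k).tail = S := by
      rw [hk]; simp only [List.tail_nil]; rw [← hk]; exact update_eq_self k S
    show stepN M 1 (some ⟨some (e none), v, S⟩) = _
    rw [stepN_one_goto, hM none]
    show some (TM2.stepAux (.pop k (fun _ o => o) _) v S) = _
    simp only [TM2.stepAux, hS]
    rw [hk]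
    rfl
  | @loop_cons k pf pt S S' S'' t t' b l hk _ _ ih1 ih2 =>
    intro e κ hM v
    cases b with
    | true =>
      obtain ⟨v1, n1, hn1, h1⟩ := ih1 (fun l => e (some (Sum.inr l))) (.goto (fun _ => e none))
        (fun l => hM (some (Sum.inr l))) (some true)
      obtain ⟨v2, n2, hn2, h2⟩ := ih2 e κ hM v1
      refine ⟨v2, n2 + (n1 + 1), by omega, ?_⟩
      rw [stepN_add, stepN_add]
      show stepN M n2 (stepN M n1 (stepN M 1 (some ⟨some (e none), v, S⟩))) = _
      rw [stepN_one_goto, hM none]
      have : stepN M n1 (some (TM2.stepAux (code (.loop k pf pt) e κ none) v S)) =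
          some (TM2.stepAux (cmp (.loop k pf pt) e κ) v1 S') := by
        refine Eq.trans ?_ h1
        show stepN M n1 (some (TM2.stepAux (.pop k (fun _ o => o) _) v S)) = _
        simp only [TM2.stepAux]
        rw [hk]
        rfl
      rw [this, h2]
    | false =>
      obtain ⟨v1, n1, hn1, h1⟩ := ih1 (fun l => e (some (Sum.inl l))) (.goto (fun _ => e none))
        (fun l => hM (some (Sum.inl l))) (some false)
      obtain ⟨v2, n2, hn2, h2⟩ := ih2 e κ hM v1
      refine ⟨v2, n2 + (n1 + 1), by omega, ?_⟩
      rw [stepN_add, stepN_add]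
      show stepN M n2 (stepN M n1 (stepN M 1 (some ⟨some (e none), v, S⟩))) = _
      rw [stepN_one_goto, hM none]
      have : stepN M n1 (some (TM2.stepAux (code (.loop k pf pt) e κ none) v S)) =
          some (TM2.stepAux (cmp (.loop k pf pt) e κ) v1 S') := by
        refine Eq.trans ?_ h1
        show stepN M n1 (some (TM2.stepAux (.pop k (fun _ o => o) _) v S)) = _
        simp only [TM2.stepAux]
        rw [hk]
        rfl
      rw [this, h2]

end sim

/-- The memory with contents `x` on stack `i` and all other stacks empty. -/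
def single {K : Type} [DecidableEq K] (i : K) (x : List Bool) : Mem K :=
  update (fun _ => []) i x

/-- The code of the machine simulating a program. -/
def mcode {K : Type} (p : Prog K) : Option (Lab p) → St K (Option (Lab p))
  | none => cmp p some (.load (fun _ => none) .halt)
  | some l => code p some (.load (fun _ => none) .halt) l

/-- The Turing machine (in Mathlib's sense) which simulates a program. -/
def machine {K : Type} [DecidableEq K] [Fintype K] (p : Prog K) (i o : K) : FinTM2 where
  K := K
  k₀ := i
  k₁ := o
  Γ := fun _ => Bool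
  Λ := Option (Lab p)
  main := none
  σ := Option Bool
  initialState := none
  Γk₀Fin := inferInstanceAs (Fintype Bool)
  m := mcode p

theorem single_eq_dite {K : Type} [DecidableEq K] (i : K) (x : List Bool) (k : K)
    (f : k = i → List Bool) (hf : ∀ h, f h = x) :
    (if h : k = i then f h else []) = single i x k := by
  unfold single
  by_cases h : k = i
  · rw [dif_pos h, hf, h, update_self]
  · rw [dif_neg h, update_of_ne h]

theorem cast_list_bool (h : List Bool = List Bool) (x : List Bool) : cast h x = x := rfl

theorem machine_initList {K : Type} [DecidableEq K] [Fintype K] (p : Prog K) (i o : K)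
    (x : List Bool) :
    initList (machine p i o) x =
      (⟨some none, none, single i x⟩ : TM2.Cfg (fun _ : K => Bool) (Option (Lab p)) (Option Bool)) := by
  refine congrArg (fun S => (⟨some none, none, S⟩ :
    TM2.Cfg (fun _ : K => Bool) (Option (Lab p)) (Option Bool))) (funext fun k => ?_)
  refine single_eq_dite i x k _ (fun h => ?_)
  cases h
  rfl

theorem machine_haltList {K : Type} [DecidableEq K] [Fintype K] (p : Prog K) (i o : K)
    (x : List Bool) :
    haltList (machine p i o) x =
      (⟨none, none, single o x⟩ : TM2.Cfg (fun _ : K => Bool) (Option (Lab p)) (Option Bool)) := by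
  refine congrArg (fun S => (⟨none, none, S⟩ :
    TM2.Cfg (fun _ : K => Bool) (Option (Lab p)) (Option Bool))) (funext fun k => ?_)
  refine single_eq_dite o x k _ (fun h => ?_)
  cases h
  rfl

/-- The machine simulates the program. -/
theorem machine_outputs {K : Type} [DecidableEq K] [Fintype K] (p : Prog K) (i o : K)
    (x y : List Bool) (t : ℕ) (h : Exec p (single i x) (single o y) t) :
    Nonempty (TM2OutputsInTime (machine p i o) x (some y) (t + 1)) := by
  obtain ⟨v', n, hn, hsim⟩ := sim (mcode p) h some (.load (fun _ => none) .halt)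
    (fun l => rfl) none
  have h2 : stepN (mcode p) (n + 1) (some ⟨some none, none, single i x⟩) =
      some ⟨none, none, single o y⟩ := by
    rw [stepN_add, stepN_one_goto]
    exact hsim
  refine ⟨⟨⟨n + 1, ?_⟩, Nat.succ_le_succ hn⟩⟩
  refine Eq.trans ?_ (h2.trans ?_)
  · exact congrArg (fun c => stepN (mcode p) (n + 1) (some c)) (machine_initList p i o x)
  · exact congrArg some (machine_haltList p i o y).symm

end Pool.Agent.PT
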