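import Pool.Agent.Work.PT.Basic

/-!
# Binary trees and register programs
-/

set_option autoImplicit false

namespace Pool.Agent.PT

open Function

/-- Binary trees: the universal data type. -/
inductive D : Type
  | nil : D
  | cons (a b : D) : D
  deriving DecidableEq, Inhabited

namespace D

/-- Prefix encoding of a tree by booleans. -/
def enc : D → List Bool
  | nil => [false]
  | cons a b => true :: (a.enc ++ b.enc)

/-- Number of internal nodes. -/
def nodes : D → ℕ
  | nil => 0
  | cons a b => a.nodes + b.nodes + 1

/-- The size of a tree: the length of its encoding. -/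
def size (x : D) : ℕ := 2 * x.nodes + 1

theorem length_enc (x : D) : x.enc.length = x.size := by
  induction x with
  | nil => rfl
  | cons a b iha ihb => simp [enc, size, nodes] at *; omega

theorem count_enc (x : D) : x.enc.count true = x.nodes := by
  induction x with
  | nil => rfl
  | cons a b iha ihb => simp [enc, nodes, iha, ihb]

theorem size_cons (a b : D) : (cons a b).size = a.size + b.size + 1 := by
  simp [size, nodes]; omega

theorem size_nil : nil.size = 1 := rfl

theorem size_pos (x : D) : 1 ≤ x.size := by simp [size]

theorem enc_append_inj : ∀ (x y : D) (l l' : List Bool), x.enc ++ l = y.enc ++ l' →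
    x = y ∧ l = l' := by
  intro x
  induction x with
  | nil =>
    intro y l l' h
    cases y with
    | nil => simpa [enc] using h
    | cons a b => simp [enc] at h
  | cons a b iha ihb =>
    intro y l l' h
    cases y with
    | nil => simp [enc] at h
    | cons c d =>
      simp only [enc, List.cons_append, List.append_assoc, List.cons.injEq, true_and] at h
      obtain ⟨rfl, h2⟩ := iha c _ _ h
      obtain ⟨rfl, h3⟩ := ihb d _ _ h2
      exact ⟨rfl, h3⟩

theorem enc_injective : Injective enc := by
  intro x y h
  exact (enc_append_inj x y [] [] (by simpa using h)).1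

/-- First component (`nil` for `nil`). -/
def hd : D → D
  | nil => nil
  | cons a _ => a

/-- Second component (`nil` for `nil`). -/
def tl : D → D
  | nil => nil
  | cons _ b => b

@[simp] theorem hd_cons (a b : D) : (cons a b).hd = a := rfl
@[simp] theorem tl_cons (a b : D) : (cons a b).tl = b := rfl
@[simp] theorem hd_nil : nil.hd = nil := rfl
@[simp] theorem tl_nil : nil.tl = nil := rfl

theorem size_hd_le (x : D) : x.hd.size ≤ x.size := by
  cases x with
  | nil => exact le_refl _
  | cons a b => rw [size_cons]; simp; omega

theorem size_tl_le (x : D) : x.tl.size ≤ x.size := by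
  cases x with
  | nil => exact le_refl _
  | cons a b => rw [size_cons]; simp; omega

/-- The truth value `true`. -/
def tt : D := cons nil nil

/-- Booleans as trees. -/
def ofBool : Bool → D
  | true => tt
  | false => nil

end D

/-- Four registers. -/
inductive R : Type
  | a | b | c | d
  deriving DecidableEq

instance : Fintype R := Fintype.ofList [.a, .b, .c, .d] (by intro x; cases x <;> simp)

/-- Register memory. -/
def st (x y z w : List Bool) : Mem R
  | .a => x
  | .b => y
  | .c => z
  | .d => w

@[simp] theorem st_a (x y z w) : st x y z w .a = x := rfl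
@[simp] theorem st_b (x y z w) : st x y z w .b = y := rfl
@[simp] theorem st_c (x y z w) : st x y z w .c = z := rfl
@[simp] theorem st_d (x y z w) : st x y z w .d = w := rfl

@[simp] theorem up_a (x y z w v) : update (st x y z w) .a v = st v y z w := by
  funext k; cases k <;> rfl
@[simp] theorem up_b (x y z w v) : update (st x y z w) .b v = st x v z w := by
  funext k; cases k <;> rfl
@[simp] theorem up_c (x y z w v) : update (st x y z w) .c v = st x y v w := by
  funext k; cases k <;> rfl
@[simp] theorem up_d (x y z w v) : update (st x y z w) .d v = st x y z v := by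
  funext k; cases k <;> rfl

theorem single_a (x) : single R.a x = st x [] [] [] := by
  funext k; cases k <;> rfl
theorem single_b (x) : single R.b x = st [] x [] [] := by
  funext k; cases k <;> rfl
theorem single_c (x) : single R.c x = st [] [] x [] := by
  funext k; cases k <;> rfl

section regprogs

/-- Empty register `a`. -/
def clearA : Prog R := .loop .a .skip .skip

theorem clearA_runs (x y z w : List Bool) :
    Runs clearA (st x y z w) (st [] y z w) (x.length + 1) := by
  induction x with
  | nil => exact Runs.loop_nil rfl
  | cons b l ih =>
    cases b with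
    | false =>
      exact Runs.mono (Runs.loop_false l rfl (by rw [up_a]; exact Runs.skip _) ih) (by simp)
    | true =>
      exact Runs.mono (Runs.loop_true l rfl (by rw [up_a]; exact Runs.skip _) ih) (by simp)

/-- Copy `a` to `b` (prepending), using `d`. -/
def copyAB : Prog R :=
  .seq (mv .a .d) (.loop .d (.seq (.push .a false) (.push .b false))
    (.seq (.push .a true) (.push .b true)))

theorem copyAB_aux (l x y z : List Bool) :
    Runs (.loop .d (.seq (.push .a false) (.push .b false))
      (.seq (.push .a true) (.push .b true))) (st x y z l)
      (st (l.reverse ++ x) (l.reverse ++ y) z []) (3 * l.length + 1) := by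
  induction l generalizing x y with
  | nil => exact Runs.loop_nil rfl
  | cons b l ih =>
    have h := ih (b :: x) (b :: y)
    have e1 : (b :: l).reverse ++ x = l.reverse ++ (b :: x) := by simp
    have e2 : (b :: l).reverse ++ y = l.reverse ++ (b :: y) := by simp
    rw [e1, e2]
    have hp : Runs (.seq (.push .a b) (.push .b b)) (st x y z l) (st (b :: x) (b :: y) z l)
        (1 + 1) := by
      have h1 := Runs.push .a b (st x y z l)
      simp only [st_a, up_a] at h1
      have h2 := Runs.push .b b (st (b :: x) y z l)
      simp only [st_b, up_b] at h2
      exact h1.seq h2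
    cases b with
    | false =>
      exact Runs.mono (Runs.loop_false l rfl (by rw [up_d]; exact hp) h) (by simp; omega)
    | true =>
      exact Runs.mono (Runs.loop_true l rfl (by rw [up_d]; exact hp) h) (by simp; omega)

theorem copyAB_runs (x y z : List Bool) :
    Runs copyAB (st x y z []) (st x (x ++ y) z []) (5 * x.length + 2) := by
  have h1 := mv_runs (a := R.a) (b := R.d) (by decide) (st x y z [])
  simp only [st_a, up_a, st_d, up_d, List.append_nil] at h1
  have h2 := copyAB_aux x.reverse [] y z
  simp only [List.reverse_reverse, List.append_nil, List.length_reverse] at h2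
  exact (h1.seq h2).mono (by omega)

/-- Move `b` to `c`, then `a` on top of it, then `true`. -/
def consP : Prog R :=
  .seq (mv .b .d) (.seq (mv .d .c) (.seq (mv .a .d) (.seq (mv .d .c) (.push .c true))))

theorem consP_runs (x y : List Bool) :
    Runs consP (st x y [] []) (st [] [] (true :: (x ++ y)) [])
      (4 * x.length + 4 * y.length + 5) := by
  have h1 := mv_runs (a := R.b) (b := R.d) (by decide) (st x y [] [])
  simp only [st_b, up_b, st_d, up_d, List.append_nil] at h1
  have h2 := mv_runs (a := R.d) (b := R.c) (by decide) (st x [] [] y.reverse)
  simp only [st_c, up_c, st_d, up_d, List.append_nil, List.reverse_reverse,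
    List.length_reverse] at h2
  have h3 := mv_runs (a := R.a) (b := R.d) (by decide) (st x [] y [])
  simp only [st_a, up_a, st_d, up_d, List.append_nil] at h3
  have h4 := mv_runs (a := R.d) (b := R.c) (by decide) (st [] [] y x.reverse)
  simp only [st_c, up_c, st_d, up_d, List.reverse_reverse,
    List.length_reverse] at h4
  have h5 := Runs.push .c true (st [] [] (x ++ y) [])
  simp only [st_c, up_c] at h5
  exact (h1.seq (h2.seq (h3.seq (h4.seq h5)))).mono (by omega)

/-- Body of the tree parser. -/
def parseBody : Prog R :=
  .case .a .skip (.push .d false) (.seq (.push .d true) (.seq (.push .c true) (.push .c true)))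

/-- The tree parser loop, the counter is in `c`, the output (reversed) in `d`. -/
def parseLoop : Prog R := .loop .c parseBody parseBody

theorem parseLoop_step (x : D) : ∀ (rest y cs dd : List Bool) (S' : Mem R) (T : ℕ),
    Runs parseLoop (st rest y cs (x.enc.reverse ++ dd)) S' T →
    Runs parseLoop (st (x.enc ++ rest) y (true :: cs) dd) S' (T + 5 * x.enc.length) := by
  induction x with
  | nil =>
    intro rest y cs dd S' T h
    refine Runs.mono (Runs.loop_true (T := 2) cs rfl ?_ h) (by simp [D.enc]; omega)
    rw [up_c]
    refine Runs.case_false rest rfl ?_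
    rw [up_a]
    have h1 := Runs.push .d false (st rest y cs dd)
    simp only [st_d, up_d] at h1
    exact h1
  | cons l r ihl ihr =>
    intro rest y cs dd S' T h
    have hr := ihr rest y cs (l.enc.reverse ++ (true :: dd)) S' T (by
      simpa [D.enc] using h)
    have hl := ihl (r.enc ++ rest) y (true :: cs) (true :: dd) S' _ hr
    refine Runs.mono (Runs.loop_true (T := 4) cs rfl ?_ hl) (by simp [D.enc]; omega)
    rw [up_c]
    refine Runs.case_true (l.enc ++ (r.enc ++ rest)) (by simp [D.enc]) ?_
    rw [up_a]
    have h1 := Runs.push .d true (st (l.enc ++ (r.enc ++ rest)) y cs dd)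
    simp only [st_d, up_d] at h1
    have h2 := Runs.push .c true (st (l.enc ++ (r.enc ++ rest)) y cs (true :: dd))
    simp only [st_c, up_c] at h2
    have h3 := Runs.push .c true (st (l.enc ++ (r.enc ++ rest)) y (true :: cs) (true :: dd))
    simp only [st_c, up_c] at h3
    exact h1.seq (h2.seq h3)

/-- Parse one tree from `a` to `b`. -/
def parseP : Prog R := .seq (.push .c true) (.seq parseLoop (mv .d .b))

theorem parseP_runs (x : D) (rest : List Bool) :
    Runs parseP (st (x.enc ++ rest) [] [] []) (st rest x.enc [] []) (7 * x.size + 3) := by
  have h1 := Runs.push .c true (st (x.enc ++ rest) [] [] [])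
  simp only [st_c, up_c] at h1
  have h2 := parseLoop_step x rest [] [] [] (st rest [] [] (x.enc.reverse ++ [])) 1
    (Runs.loop_nil rfl)
  rw [D.length_enc, List.append_nil] at h2
  have h3 := mv_runs (a := R.d) (b := R.b) (by decide) (st rest [] [] x.enc.reverse)
  simp only [st_b, up_b, st_d, up_d, List.append_nil, List.reverse_reverse,
    List.length_reverse, D.length_enc] at h3
  exact (h1.seq (h2.seq h3)).mono (by omega)

/-- Split `a` (the code of a tree) into its head (in `b`) and tail (in `a`). -/
def splitP : Prog R :=
  .case .a .skip (.seq (.push .a false) (.push .b false)) parseP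

theorem splitP_runs (x : D) :
    Runs splitP (st x.enc [] [] []) (st x.tl.enc x.hd.enc [] []) (7 * x.size + 4) := by
  cases x with
  | nil =>
    refine Runs.mono (Runs.case_false [] rfl (T := 1 + 1) ?_) (by simp [D.size, D.nodes])
    rw [up_a]
    have h1 := Runs.push .a false (st [] [] [] [])
    simp only [st_a, up_a] at h1
    have h2 := Runs.push .b false (st [false] [] [] [])
    simp only [st_b, up_b] at h2
    exact h1.seq h2
  | cons l r =>
    refine Runs.mono (Runs.case_true (l.enc ++ r.enc) rfl
      (by rw [up_a]; exact parseP_runs l r.enc)) ?_
    rw [D.size_cons]; omega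

end regprogs

end Pool.Agent.PT
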