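import Pool.Agent.Work.PT.Comp

/-!
# Typed functions computable in bounded (in particular polynomial) time
-/

set_option autoImplicit false

namespace Pool.Agent.PT

open Function

/-- Types with an injective encoding by trees. -/
class Enc (α : Type) where
  enc : α → D
  inj : Injective enc

export Enc (enc)

/-- Size of (the encoding of) an object. -/
def sz {α : Type} [Enc α] (a : α) : ℕ := (enc a).size

theorem sz_pos {α : Type} [Enc α] (a : α) : 1 ≤ sz a := D.size_pos _

instance : Enc D := ⟨fun x => x, fun _ _ h => h⟩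

instance : Enc Unit := ⟨fun _ => .nil, fun _ _ _ => rfl⟩

instance : Enc Bool := ⟨D.ofBool, by
  intro a b h; cases a <;> cases b <;> simp_all [D.ofBool, D.tt]⟩

instance {α β : Type} [Enc α] [Enc β] : Enc (α × β) :=
  ⟨fun p => .cons (enc p.1) (enc p.2), by
    rintro ⟨a, b⟩ ⟨c, d⟩ h
    simp only [D.cons.injEq] at h
    exact Prod.ext (Enc.inj h.1) (Enc.inj h.2)⟩

/-- Unary encoding of natural numbers. -/
def encNat : ℕ → D
  | 0 => .nil
  | n + 1 => .cons .nil (encNat n)

theorem encNat_nodes (n : ℕ) : (encNat n).nodes = n := by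
  induction n with
  | zero => rfl
  | succ n ih => simp [encNat, D.nodes, ih]

instance : Enc ℕ := ⟨encNat, fun a b h => by
  rw [← encNat_nodes a, h, encNat_nodes]⟩

/-- Encoding of lists. -/
def encList {α : Type} [Enc α] : List α → D
  | [] => .nil
  | a :: l => .cons (enc a) (encList l)

theorem encList_inj {α : Type} [Enc α] : Injective (encList (α := α)) := by
  intro l
  induction l with
  | nil => intro l' h; cases l' with
    | nil => rfl
    | cons a l => cases h
  | cons a l ih => intro l' h; cases l' with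
    | nil => cases h
    | cons b l' =>
      simp only [encList, D.cons.injEq] at h
      rw [Enc.inj h.1, ih h.2]

instance {α : Type} [Enc α] : Enc (List α) := ⟨encList, encList_inj⟩

instance {α : Type} [Enc α] : Enc (Option α) :=
  ⟨fun o => match o with | none => .nil | some a => .cons (enc a) .nil, by
    intro a b h
    cases a <;> cases b <;> simp_all [Enc.inj.eq_iff]⟩

theorem enc_unit (u : Unit) : enc u = .nil := rfl
theorem enc_true : enc true = D.tt := rfl
theorem enc_false : enc false = D.nil := rfl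
theorem enc_pair {α β : Type} [Enc α] [Enc β] (a : α) (b : β) :
    enc (a, b) = .cons (enc a) (enc b) := rfl
theorem enc_zero : enc (0 : ℕ) = D.nil := rfl
theorem enc_succ (n : ℕ) : enc (n + 1) = .cons .nil (enc n) := rfl
theorem enc_nil {α : Type} [Enc α] : enc ([] : List α) = .nil := rfl
theorem enc_cons {α : Type} [Enc α] (a : α) (l : List α) :
    enc (a :: l) = .cons (enc a) (enc l) := rfl
theorem enc_none {α : Type} [Enc α] : enc (none : Option α) = .nil := rfl
theorem enc_some {α : Type} [Enc α] (a : α) : enc (some a) = .cons (enc a) .nil := rfl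

theorem sz_pair {α β : Type} [Enc α] [Enc β] (a : α) (b : β) :
    sz (a, b) = sz a + sz b + 1 := D.size_cons _ _
theorem sz_nat (n : ℕ) : sz n = 2 * n + 1 := by
  show D.size (encNat n) = _
  rw [D.size, encNat_nodes]
theorem sz_nil {α : Type} [Enc α] : sz ([] : List α) = 1 := rfl
theorem sz_cons {α : Type} [Enc α] (a : α) (l : List α) :
    sz (a :: l) = sz a + sz l + 1 := D.size_cons _ _
theorem sz_bool (b : Bool) : sz b ≤ 3 := by cases b <;> decide
theorem sz_unit (u : Unit) : sz u = 1 := rfl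
theorem sz_none {α : Type} [Enc α] : sz (none : Option α) = 1 := rfl
theorem sz_some {α : Type} [Enc α] (a : α) : sz (some a) = sz a + 2 := by
  show D.size (.cons _ _) = _
  rw [D.size_cons]; rfl

theorem length_le_nodes {α : Type} [Enc α] (l : List α) : l.length ≤ (enc l).nodes := by
  induction l with
  | nil => exact le_refl _
  | cons a l ih => rw [enc_cons, D.nodes, List.length_cons]; omega

theorem length_le_sz {α : Type} [Enc α] (l : List α) : l.length ≤ sz l := by
  have := length_le_nodes l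
  unfold sz D.size; omega

theorem sz_le_of_mem {α : Type} [Enc α] {l : List α} {a : α} (h : a ∈ l) : sz a ≤ sz l := by
  induction l with
  | nil => cases h
  | cons b l ih =>
    rw [sz_cons]
    rcases List.mem_cons.1 h with rfl | h
    · omega
    · have := ih h; omega

section poly

variable {α β γ δ σ : Type} [Enc α] [Enc β] [Enc γ] [Enc δ] [Enc σ]

/-- Polynomially bounded functions of (the size of) the argument. -/
def PB (B : α → ℕ) : Prop := ∃ k : ℕ, ∀ a, B a ≤ (sz a + 2) ^ k

theorem PB.mono {B B' : α → ℕ} (h : PB B') (hB : ∀ a, B a ≤ B' a) : PB B := by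
  obtain ⟨k, hk⟩ := h
  exact ⟨k, fun a => (hB a).trans (hk a)⟩

theorem PB.const (c : ℕ) : PB (fun _ : α => c) := by
  refine ⟨c, fun a => ?_⟩
  calc c ≤ 2 ^ c := Nat.lt_two_pow_self.le
    _ ≤ (sz a + 2) ^ c := Nat.pow_le_pow_left (by omega) _

theorem PB.sz : PB (fun a : α => sz a) := ⟨1, fun a => by simp⟩

theorem PB.add {B B' : α → ℕ} (h : PB B) (h' : PB B') : PB (fun a => B a + B' a) := by
  obtain ⟨k, hk⟩ := h
  obtain ⟨k', hk'⟩ := h'
  refine ⟨k + k' + 1, fun a => ?_⟩
  have h1 : (PT.sz a + 2) ^ k ≤ (PT.sz a + 2) ^ (k + k') :=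
    Nat.pow_le_pow_right (by omega) (by omega)
  have h2 : (PT.sz a + 2) ^ k' ≤ (PT.sz a + 2) ^ (k + k') :=
    Nat.pow_le_pow_right (by omega) (by omega)
  calc B a + B' a ≤ (PT.sz a + 2) ^ (k + k') + (PT.sz a + 2) ^ (k + k') :=
        add_le_add ((hk a).trans h1) ((hk' a).trans h2)
    _ = (PT.sz a + 2) ^ (k + k') * 2 := by ring
    _ ≤ (PT.sz a + 2) ^ (k + k') * (PT.sz a + 2) := Nat.mul_le_mul_left _ (by omega)
    _ = (PT.sz a + 2) ^ (k + k' + 1) := (pow_succ _ _).symm

theorem PB.mul {B B' : α → ℕ} (h : PB B) (h' : PB B') : PB (fun a => B a * B' a) := by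
  obtain ⟨k, hk⟩ := h
  obtain ⟨k', hk'⟩ := h'
  refine ⟨k + k', fun a => ?_⟩
  rw [pow_add]
  exact Nat.mul_le_mul (hk a) (hk' a)

theorem PB.pow {B : α → ℕ} (h : PB B) (n : ℕ) : PB (fun a => B a ^ n) := by
  obtain ⟨k, hk⟩ := h
  refine ⟨k * n, fun a => ?_⟩
  rw [pow_mul]
  exact Nat.pow_le_pow_left (hk a) _

/-- Composition: `B (f a)` is polynomially bounded if the size of `f a` is. -/
theorem PB.comp {B : β → ℕ} {f : α → β} (h : PB B) (hf : PB (fun a => PT.sz (f a))) :
    PB (fun a => B (f a)) := by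
  obtain ⟨k, hk⟩ := h
  have h1 : PB (fun a => (PT.sz (f a) + 2) ^ k) := (hf.add (PB.const 2)).pow k
  exact h1.mono (fun a => hk _)

/-- `f` is computed by a stack program; on (the code of) `a` it needs time at most `B a`. -/
def TimeF (f : α → β) (B : α → ℕ) : Prop :=
  ∃ (g : D → D) (T : D → ℕ), CompT g T ∧ (∀ a, g (enc a) = enc (f a)) ∧ ∀ a, T (enc a) ≤ B a

theorem TimeF.mono {f : α → β} {B B' : α → ℕ} (h : TimeF f B) (hB : ∀ a, B a ≤ B' a) :
    TimeF f B' := by
  obtain ⟨g, T, h1, h2, h3⟩ := h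
  exact ⟨g, T, h1, h2, fun a => (h3 a).trans (hB a)⟩

theorem TimeF.size_le {f : α → β} {B : α → ℕ} (h : TimeF f B) (a : α) :
    sz (f a) ≤ sz a + B a := by
  obtain ⟨g, T, h1, h2, h3⟩ := h
  have h4 := h1.size_le (enc a)
  rw [h2] at h4
  exact h4.trans (Nat.add_le_add_left (h3 a) _)

theorem TimeF.comp {f : β → γ} {g : α → β} {Bf : β → ℕ} {Bg : α → ℕ} (hf : TimeF f Bf)
    (hg : TimeF g Bg) : TimeF (fun a => f (g a))
      (fun a => Bg a + Bf (g a) + 4 * sz a + 8 * sz (g a) + 4 * sz (f (g a)) + 8) := by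
  obtain ⟨f', Tf, f1, f2, f3⟩ := hf
  obtain ⟨g', Tg, g1, g2, g3⟩ := hg
  refine ⟨_, _, f1.comp g1, fun a => by rw [g2, f2], fun a => ?_⟩
  have h1 := g3 a
  have h2 := f3 (g a)
  simp only [g2, f2]
  show Tg (enc a) + Tf (enc (g a)) + 4 * sz a + 8 * sz (g a) + 4 * sz (f (g a)) + 8 ≤ _
  omega

/-- Polynomial-time computable functions. -/
def PTF (f : α → β) : Prop := ∃ B, TimeF f B ∧ PB B

theorem PTF.size {f : α → β} (h : PTF f) : PB (fun a => sz (f a)) := by
  obtain ⟨B, h1, h2⟩ := h
  exact (PB.sz.add h2).mono (fun a => h1.size_le a)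

theorem PTF.comp {f : β → γ} {g : α → β} (hf : PTF f) (hg : PTF g) : PTF (fun a => f (g a)) := by
  have hs := hg.size
  have hs2 : PB (fun a => sz (f (g a))) := hf.size.comp hs
  obtain ⟨Bf, f1, f2⟩ := hf
  obtain ⟨Bg, g1, g2⟩ := hg
  refine ⟨_, f1.comp g1, ?_⟩
  exact ((((g2.add (f2.comp hs)).add ((PB.const 4).mul PB.sz)).add ((PB.const 8).mul hs)).add
    ((PB.const 4).mul hs2)).add (PB.const 8)

theorem PTF.id : PTF (fun a : α => a) :=
  ⟨fun _ => 0, ⟨_, _, CompT.id, fun _ => rfl, fun _ => le_refl _⟩, PB.const 0⟩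

theorem PTF.const (b : β) : PTF (fun _ : α => b) :=
  ⟨fun a => sz a + 1 + sz b, ⟨_, _, CompT.const (enc b), fun _ => rfl, fun _ => le_refl _⟩,
    (PB.sz.add (PB.const 1)).add (PB.const _)⟩

theorem PTF.pair {f : α → β} {g : α → γ} (hf : PTF f) (hg : PTF g) :
    PTF (fun a => (f a, g a)) := by
  have hfs := hf.size
  have hgs := hg.size
  obtain ⟨Bf, ⟨f', Tf, f1, f2, f3⟩, f4⟩ := hf
  obtain ⟨Bg, ⟨g', Tg, g1, g2, g3⟩, g4⟩ := hg
  refine ⟨fun a => Bf a + Bg a + 13 * sz a + 8 * sz (f a) + 8 * sz (g a) + 15,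
    ⟨_, _, f1.pair g1, fun a => by rw [f2, g2]; rfl, fun a => ?_⟩, ?_⟩
  · have h1 := f3 a
    have h2 := g3 a
    simp only [f2, g2]
    show Tf (enc a) + Tg (enc a) + 13 * sz a + 8 * sz (f a) + 8 * sz (g a) + 15 ≤ _
    omega
  · exact ((((f4.add g4).add ((PB.const 13).mul PB.sz)).add ((PB.const 8).mul hfs)).add
      ((PB.const 8).mul hgs)).add (PB.const 15)

/-- A function whose code-level action is head. -/
theorem PTF.of_hd {f : α → β} (h : ∀ a, (enc a).hd = enc (f a)) : PTF f :=
  ⟨fun a => 8 * sz a + 5, ⟨_, _, CompT.hd, h, fun _ => le_refl _⟩,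
    ((PB.const 8).mul PB.sz).add (PB.const 5)⟩

theorem PTF.of_tl {f : α → β} (h : ∀ a, (enc a).tl = enc (f a)) : PTF f :=
  ⟨fun a => 11 * sz a + 7, ⟨_, _, CompT.tl, h, fun _ => le_refl _⟩,
    ((PB.const 11).mul PB.sz).add (PB.const 7)⟩

theorem PTF.of_id {f : α → β} (h : ∀ a, enc a = enc (f a)) : PTF f :=
  ⟨fun _ => 0, ⟨_, _, CompT.id, h, fun _ => le_refl _⟩, PB.const 0⟩

theorem PTF.fst : PTF (fun p : α × β => p.1) := PTF.of_hd (fun _ => rfl)
theorem PTF.snd : PTF (fun p : α × β => p.2) := PTF.of_tl (fun _ => rfl)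

/-- Two functions with the same codes. -/
theorem PTF.recode {f : α → β} {f' : α → γ} (h : PTF f) (e : ∀ a, enc (f a) = enc (f' a)) :
    PTF f' := by
  obtain ⟨Bf, ⟨g, Tf, f1, f2, f3⟩, f4⟩ := h
  exact ⟨Bf, ⟨g, Tf, f1, fun a => by rw [f2, e], f3⟩, f4⟩

theorem PTF.congr {f g : α → β} (hf : PTF f) (h : ∀ a, f a = g a) : PTF g := by
  have : f = g := funext h
  rwa [← this]

/-- Case distinction on lists. -/
theorem PTF.list_case {l : α → List β} {f : α → γ} {g : α × (β × List β) → γ}
    (hl : PTF l) (hf : PTF f) (hg : PTF g) :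
    PTF (fun a => match l a with | [] => f a | b :: r => g (a, (b, r))) := by
  have hls := hl.size
  have hfs := hf.size
  obtain ⟨Bl, ⟨l', Tl, l1, l2, l3⟩, l4⟩ := hl
  obtain ⟨Bf, ⟨f', Tf, f1, f2, f3⟩, f4⟩ := hf
  obtain ⟨Bg, ⟨g', Tg, g1, g2, g3⟩, ⟨k, g4⟩⟩ := hg
  have key := l1.ite f1 (g1.comp (CompT.id.pair l1))
  have hP : PB (fun a => (sz a + sz (l a) + 3) ^ k) :=
    ((PB.sz.add hls).add (PB.const 3)).pow k
  refine ⟨fun a => 2 * Bl a + Bf a + 9 * (sz a + sz (l a) + 3) ^ k +
    100 * sz a + 100 * sz (l a) + 10 * sz (f a) + 100, ⟨_, _, key, fun a => ?_, fun a => ?_⟩, ?_⟩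
  · beta_reduce
    rw [l2, f2]
    cases h : l a with
    | nil => simp [enc_nil]
    | cons b r =>
      have h2 := g2 (a, (b, r))
      rw [if_neg (by rw [enc_cons]; simp)]
      exact h2
  · beta_reduce
    rw [l2]
    have h0 := l3 a
    cases h : l a with
    | nil =>
      rw [enc_nil, if_pos rfl, if_pos rfl, f2]
      have h1 := f3 a
      show Tl (enc a) + Tf (enc a) + 13 * sz a + 5 * sz ([] : List β) + 4 * sz (f a) + 15 ≤ _
      omega
    | cons b r =>
      rw [if_neg (by rw [enc_cons]; simp), if_neg (by rw [enc_cons]; simp)]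
      have h2 := g2 (a, (b, r))
      have h3 := g3 (a, (b, r))
      have h4 := g4 (a, (b, r))
      have h5 : sz (a, (b, r)) = sz a + sz (b :: r) + 1 := D.size_cons _ _
      rw [h5] at h4
      change Bg (a, (b, r)) ≤ (sz a + sz (b :: r) + 3) ^ k at h4
      have h7 := TimeF.size_le (f := g) ⟨g', Tg, g1, g2, g3⟩ (a, (b, r))
      rw [h5] at h7
      change g' (.cons (enc a) (enc (b :: r))) = enc (g (a, (b, r))) at h2
      change Tg (.cons (enc a) (enc (b :: r))) ≤ _ at h3
      rw [h2, D.size_cons]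
      change Tl (enc a) + (0 + Tl (enc a) + 13 * sz a + 8 * sz a + 8 * sz (b :: r) + 15
        + Tg (.cons (enc a) (enc (b :: r))) + 4 * sz a + 8 * (sz a + sz (b :: r) + 1)
        + 4 * sz (g (a, (b, r))) + 8)
        + 13 * sz a + 5 * sz (b :: r) + 4 * sz (g (a, (b, r))) + 15 ≤ _
      omega
  · exact ((((((((PB.const 2).mul l4).add f4).add ((PB.const 9).mul hP)).add
      ((PB.const 100).mul PB.sz)).add ((PB.const 100).mul hls)).add
      ((PB.const 10).mul hfs)).add (PB.const 100))

/-- Change the source along a function with the same codes. -/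
theorem PTF.presrc {f : β → γ} (hf : PTF f) (e : α → β) (he : ∀ a, enc a = enc (e a)) :
    PTF (fun a => f (e a)) := hf.comp (PTF.of_id he)

theorem enc_replicate_unit (n : ℕ) : enc (List.replicate n ()) = enc n := by
  induction n with
  | zero => rfl
  | succ n ih => rw [List.replicate_succ, enc_cons, enc_succ, ih]; rfl

theorem PTF.nat_case {n : α → ℕ} {f : α → γ} {g : α × ℕ → γ}
    (hn : PTF n) (hf : PTF f) (hg : PTF g) :
    PTF (fun a => match n a with | 0 => f a | m + 1 => g (a, m)) := by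
  have h1 : PTF (fun a => List.replicate (n a) ()) :=
    hn.recode (fun a => (enc_replicate_unit _).symm)
  have h2 : PTF (fun l : List Unit => l.length) := PTF.of_id (fun l => by
    have : l = List.replicate l.length () := by
      apply List.ext_getElem <;> simp
    conv_lhs => rw [this]
    exact enc_replicate_unit _)
  have h3 : PTF (fun p : α × (Unit × List Unit) => g (p.1, p.2.2.length)) :=
    hg.comp (PTF.fst.pair (h2.comp (PTF.snd.comp PTF.snd)))
  refine (PTF.list_case h1 hf h3).congr (fun a => ?_)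
  cases n a with
  | zero => rfl
  | succ m => simp [List.replicate_succ]

theorem PTF.option_case {o : α → Option β} {f : α → γ} {g : α × β → γ}
    (ho : PTF o) (hf : PTF f) (hg : PTF g) :
    PTF (fun a => match o a with | none => f a | some b => g (a, b)) := by
  have h1 : PTF (fun a => (o a).toList) := ho.recode (fun a => by
    cases o a <;> rfl)
  have h3 : PTF (fun p : α × (β × List β) => g (p.1, p.2.1)) :=
    hg.comp (PTF.fst.pair (PTF.fst.comp PTF.snd))
  refine (PTF.list_case h1 hf h3).congr (fun a => ?_)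
  cases o a <;> rfl

theorem PTF.cond {c : α → Bool} {f g : α → β} (hc : PTF c) (hf : PTF f) (hg : PTF g) :
    PTF (fun a => if c a then f a else g a) := by
  have h1 : PTF (fun a => if c a then [()] else []) :=
    hc.recode (fun a => by cases c a <;> rfl)
  refine (PTF.list_case h1 hg (hf.comp PTF.fst)).congr (fun a => ?_)
  cases c a <;> rfl

/-- Equality test. -/
theorem PTF.eq [DecidableEq β] {f g : α → β} (hf : PTF f) (hg : PTF g) :
    PTF (fun a => decide (f a = g a)) := by
  have key : PTF (fun p : β × β => decide (p.1 = p.2)) := by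
    refine ⟨fun p => 20 * sz p + 30, ⟨_, _, CompT.eq, fun p => ?_, fun _ => le_refl _⟩,
      ((PB.const 20).mul PB.sz).add (PB.const 30)⟩
    obtain ⟨a, b⟩ := p
    show D.ofBool (decide (enc b = enc a)) = D.ofBool (decide (a = b))
    congr 1
    rw [decide_eq_decide, Enc.inj.eq_iff]
    exact eq_comm
  exact key.comp (hf.pair hg)

theorem PTF.beq_of {p : α → Prop} [DecidablePred p] {c : α → Bool} (h : PTF c)
    (e : ∀ a, c a = true ↔ p a) : PTF (fun a => decide (p a)) :=
  h.congr (fun a => by rw [Bool.eq_iff_iff, e, decide_eq_true_iff])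

theorem PTF.not {c : α → Bool} (hc : PTF c) : PTF (fun a => !c a) :=
  (hc.cond (PTF.const false) (PTF.const true)).congr (fun a => by cases c a <;> rfl)

theorem PTF.and {c d : α → Bool} (hc : PTF c) (hd : PTF d) : PTF (fun a => c a && d a) :=
  (hc.cond hd (PTF.const false)).congr (fun a => by cases c a <;> simp)

theorem PTF.or {c d : α → Bool} (hc : PTF c) (hd : PTF d) : PTF (fun a => c a || d a) :=
  (hc.cond (PTF.const true) hd).congr (fun a => by cases c a <;> simp)

theorem PTF.ite {p : α → Prop} [DecidablePred p] {f g : α → β}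
    (hp : PTF (fun a => decide (p a))) (hf : PTF f) (hg : PTF g) :
    PTF (fun a => if p a then f a else g a) :=
  (hp.cond hf hg).congr (fun a => by by_cases h : p a <;> simp [h])

/-- The sum of bounds along an iteration. -/
theorem sumIter_le {g : D → D} {F : D → ℕ} {M : ℕ} : ∀ {n : ℕ} {s : D},
    (∀ i, i < n → F (g^[i] s) ≤ M) → sumIter g F n s ≤ n * M := by
  intro n
  induction n with
  | zero => intro s _; simp [sumIter]
  | succ n ih =>
    intro s h
    have h0 := h 0 (by omega)
    have h1 := ih (s := g s) (fun i hi => by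
      have := h (i + 1) (by omega)
      rwa [iterate_succ_apply] at this)
    simp only [sumIter, iterate_zero, id_eq] at h0 ⊢
    rw [Nat.succ_mul]
    omega

/-- Iteration with explicit time bounds. -/
theorem TimeF.iterate {c : α → δ} {init : α → σ} {step : α × σ → σ} {Bc Bi : α → ℕ}
    {Bs : α × σ → ℕ} (hc : TimeF c Bc) (hi : TimeF init Bi) (hs : TimeF step Bs)
    (M S : α → ℕ)
    (hS : ∀ a i, i ≤ (enc (c a)).nodes → sz ((fun s => step (a, s))^[i] (init a)) ≤ S a)
    (hM : ∀ a i, i < (enc (c a)).nodes → Bs (a, (fun s => step (a, s))^[i] (init a)) ≤ M a) :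
    ∃ C : ℕ, TimeF (fun a => (fun s => step (a, s))^[(enc (c a)).nodes] (init a))
      (fun a => C * (Bc a + Bi a + sz a + sz (c a) + S a + 1 +
        sz (c a) * (M a + sz a + S a + 1))) := by
  obtain ⟨c', Tc, c1, c2, c3⟩ := hc
  obtain ⟨i', Ti, i1, i2, i3⟩ := hi
  obtain ⟨s', Ts, s1, s2, s3⟩ := hs
  -- state: cons a s
  have g1 := CompT.pair CompT.hd s1
  have f1 := CompT.pair CompT.id i1
  have k1 := CompT.tl.comp (CompT.iter c1 f1 g1)
  have key : ∀ a i, (fun x : D => D.cons x.hd (s' x))^[i] (.cons (enc a) (enc (init a))) =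
      .cons (enc a) (enc ((fun s => step (a, s))^[i] (init a))) := by
    intro a i
    induction i with
    | zero => rfl
    | succ i ih =>
      rw [iterate_succ_apply', ih, iterate_succ_apply']
      exact congrArg (D.cons (enc a)) (s2 (a, (fun s => step (a, s))^[i] (init a)))
  refine ⟨1000, _, _, k1, fun a => ?_, fun a => ?_⟩
  · show ((fun x : D => D.cons x.hd (s' x))^[(c' (enc a)).nodes]
      (.cons (enc a) (i' (enc a)))).tl = _
    rw [c2, i2, key]
    rfl
  · simp only [c2, i2, key, D.tl_cons]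
    have hI := i3 a
    have hC := c3 a
    have hS0 := hS a 0 (by omega)
    simp only [iterate_zero, id_eq] at hS0
    have hSn := hS a _ (le_refl _)
    have hsum := sumIter_le (g := fun x : D => D.cons x.hd (s' x))
      (F := fun s => 8 * s.size + 5 + Ts s + 13 * s.size + 8 * s.hd.size + 8 * (s' s).size + 15
        + 4 * s.size + 4 * (D.cons s.hd (s' s)).size + 4)
      (M := 25 * (sz a + S a + 1) + M a + 13 * sz a + 12 * S a + 28)
      (n := (enc (c a)).nodes) (s := .cons (enc a) (enc (init a))) (fun i hi => by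
        rw [key]
        have h1 := hS a i (by omega)
        have h2 := hS a (i + 1) (by omega)
        have h3 := hM a i hi
        have h4 := s3 (a, (fun s => step (a, s))^[i] (init a))
        have h5 : s' (D.cons (enc a) (enc ((fun s => step (a, s))^[i] (init a)))) =
            enc ((fun s => step (a, s))^[i + 1] (init a)) := by
          rw [iterate_succ_apply']
          exact s2 (a, _)
        rw [D.hd_cons, h5, D.size_cons, D.size_cons]
        change Ts (D.cons (enc a) (enc ((fun s => step (a, s))^[i] (init a)))) ≤ _ at h4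
        unfold sz at h1 h2 ⊢
        omega)
    have hn : (enc (c a)).nodes ≤ sz (c a) := by unfold sz D.size; omega
    have hprod : (enc (c a)).nodes * (25 * (sz a + S a + 1) + M a + 13 * sz a + 12 * S a + 28) ≤
        100 * (sz (c a) * (M a + sz a + S a + 1)) := by
      calc _ ≤ sz (c a) * (100 * (M a + sz a + S a + 1)) :=
            Nat.mul_le_mul hn (by omega)
        _ = _ := by ring
    have hsum' := hsum.trans hprod
    clear hsum hprod
    generalize sumIter _ _ _ _ = SI at hsum' ⊢
    generalize sz (c a) * (M a + sz a + S a + 1) = Q at hsum' ⊢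
    simp only [D.size_cons]
    unfold sz at hS0 hSn ⊢
    omega

theorem PTF.iterate {c : α → δ} {init : α → σ} {step : α × σ → σ}
    (hc : PTF c) (hi : PTF init) (hs : PTF step) (S : α → ℕ) (hSp : PB S)
    (hS : ∀ a i, i ≤ (enc (c a)).nodes → sz ((fun s => step (a, s))^[i] (init a)) ≤ S a) :
    PTF (fun a => (fun s => step (a, s))^[(enc (c a)).nodes] (init a)) := by
  have hcs := hc.size
  obtain ⟨Bc, c1, c2⟩ := hc
  obtain ⟨Bi, i1, i2⟩ := hi
  obtain ⟨Bs, s1, ⟨k, s2⟩⟩ := hs
  obtain ⟨C, h⟩ := TimeF.iterate c1 i1 s1 (fun a => (sz a + S a + 3) ^ k) S hS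
    (fun a i hi => (s2 _).trans (Nat.pow_le_pow_left (by
      rw [sz_pair]
      have := hS a i (by omega)
      omega) _))
  refine ⟨_, h, ?_⟩
  exact (PB.const C).mul ((((((c2.add i2).add PB.sz).add hcs).add hSp).add (PB.const 1)).add
    (hcs.mul ((((((PB.sz.add hSp).add (PB.const 3)).pow k).add PB.sz).add hSp).add
      (PB.const 1))))

end poly

end Pool.Agent.PT
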